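import Pool.Agent.Helper61.CLB.Defs
import Pool.Agent.Helper59.CL.Grad

/-!
# Block B, E02: the gradient estimate at the origin (Gilbarg-Trudinger 3.4)

PROOF.  Let `q z = (v z - v (-conj z))/2`, i.e. `q(x,y) = (v(x,y) - v(-x,y))/2`: class `C^2` near the square, `|q| ≤ M`, `|lap q| ≤ N` (the Laplacian commutes with the reflection), `q = 0` for `x = 0`.  Let
`ψ = (M/d^2)(y^2 + x(2d - x)) + (N/2) x (d - x)`, `lap ψ = - N`.  On `K = {0 ≤ x ≤ d, |y| ≤ d}`: `lap (ψ ± q) ≤ 0` in the interior, and on the frontier `ψ ± q ≥ 0`: `x = 0`: `ψ ≥ 0 = q`; `x = d`: `ψ ≥ M`;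
`|y| = d`: `ψ ≥ M`.  By the maximum principle (`StMax`) `|q(x, 0)| ≤ ψ(x, 0) = (M/d^2) x (2d - x) + (N/2) x (d - x)` for `0 ≤ x ≤ d`; divide by `x`, let `x → 0`: `|dx q 0| ≤ 2M/d + N d/2`, and
`dx q 0 = dx v 0`.  (`M, N ≥ 0` because the square is nonempty.)
-/

set_option autoImplicit false

namespace Pool.Agent.Helper61.CLB

open MeasureTheory Filter Topology Metric
open scoped ContDiff Real ENNReal
open Pool.Agent.Helper53.CL

open Pool.Agent.Helper59.CL.Grad
open scoped ComplexConjugate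

universe u

/-- the closed square -/
private def Sq (d : ℝ) : Set ℂ := {z : ℂ | |z.re| ≤ d ∧ |z.im| ≤ d}

private theorem HS_sub_Sq {d : ℝ} : HS d ⊆ Sq d := by
  rintro z ⟨h1, h2, h3⟩
  exact ⟨h1, by rwa [abs_of_nonneg h2]⟩

private theorem conj_Sq {d : ℝ} {z : ℂ} (hz : z ∈ Sq d) : conj z ∈ Sq d := by
  obtain ⟨h1, h2⟩ := hz
  refine ⟨?_, ?_⟩
  · simpa using h1
  · simpa using h2

private theorem half_sq (hmp : StMax) {g : ℂ → ℝ} {d M N : ℝ} {O : Set ℂ} (hd : 0 < d)
    (hO : IsOpen O) (hsub : Sq d ⊆ O) (hg : ContDiffOn ℝ 2 g O)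
    (hM : ∀ z ∈ Sq d, |g z| ≤ M) (hN : ∀ z ∈ Sq d, |lap g z| ≤ N) {σ : ℝ}
    (hσ : |σ| ≤ 1 / 2) : ∀ z ∈ HS d, 0 ≤ bar (M / d ^ 2) (N / 2) d z + σ * (g z - g (conj z)) := by
  have h00 : (0 : ℂ) ∈ Sq d := ⟨by simp [hd.le], by simp [hd.le]⟩
  have hM0 : 0 ≤ M := (abs_nonneg _).trans (hM 0 h00)
  have hN0 : 0 ≤ N := (abs_nonneg _).trans (hN 0 h00)
  have hcc : Continuous (fun z : ℂ => conj z) := Complex.continuous_conj
  obtain ⟨O', hO'⟩ : ∃ O' : Set ℂ, O' = O ∩ (fun z : ℂ => conj z) ⁻¹' O := ⟨_, rfl⟩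
  have hO'o : IsOpen O' := by
    rw [hO']
    exact hO.inter (hO.preimage hcc)
  have hgc : ∀ z ∈ O', ContDiffAt ℝ 2 g z := by
    intro z hz
    rw [hO'] at hz
    exact hg.contDiffAt (hO.mem_nhds hz.1)
  have hgcc : ∀ z ∈ O', ContDiffAt ℝ 2 (fun z => g (conj z)) z := by
    intro z hz
    rw [hO'] at hz
    exact (hg.contDiffAt (hO.mem_nhds hz.2)).comp z Complex.conjCLE.contDiff.contDiffAt
  have hK : HS d ⊆ O' := by
    intro z hz
    rw [hO']
    exact ⟨hsub (HS_sub_Sq hz), hsub (conj_Sq (HS_sub_Sq hz))⟩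
  set h : ℂ → ℝ := fun z => bar (M / d ^ 2) (N / 2) d z + σ * (g z + (-1) * g (conj z)) with hh
  have hlap : ∀ z ∈ O', lap h z = -N + σ * (lap g z - lap g (conj z)) := by
    intro z hz
    have c1 := hgc z hz
    have c2 := hgcc z hz
    have c3 : ContDiffAt ℝ 2 (fun z => (-1) * g (conj z)) z := contDiffAt_const.mul c2
    rw [hh, lap_add (contDiff_bar _ _ _).contDiffAt (contDiffAt_const.mul (c1.add c3)),
      lap_const_mul (c1.add c3), lap_add c1 c3, lap_const_mul c2, lap_conj, lap_bar]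
    ring
  have hCD : ContDiffOn ℝ 2 h O' := by
    intro z hz
    have c1 := hgc z hz
    have c2 := hgcc z hz
    exact ((contDiff_bar _ _ _).contDiffAt.add
      (contDiffAt_const.mul (c1.add (contDiffAt_const.mul c2)))).contDiffWithinAt
  have hbd : ∀ z ∈ Sq d, |σ * (g z + (-1) * g (conj z))| ≤ M := by
    intro z hz
    have h1 := hM z hz
    have h2 := hM _ (conj_Sq hz)
    rw [abs_mul]
    have h3 : |g z + (-1) * g (conj z)| ≤ 2 * M := by
      rw [abs_le] at h1 h2 ⊢
      constructor <;> linarith [h1.1, h1.2, h2.1, h2.2]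
    calc |σ| * |g z + (-1) * g (conj z)| ≤ 1 / 2 * (2 * M) :=
          mul_le_mul hσ h3 (abs_nonneg _) (by norm_num)
      _ = M := by ring
  have key := hmp (HS d) O' h (isCompact_HS d) hO'o hK hCD ?_ ?_
  · intro z hz
    have h1 := key z hz
    have h2 : h z = bar (M / d ^ 2) (N / 2) d z + σ * (g z - g (conj z)) := by
      simp only [hh]
      ring
    rw [← h2]
    exact h1
  · intro z hz
    have hzK : z ∈ HS d := interior_subset hz
    rw [hlap z (hK hzK)]
    have h2 := hN z (HS_sub_Sq hzK)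
    have h3 := hN _ (conj_Sq (HS_sub_Sq hzK))
    have h4 : |σ * (lap g z - lap g (conj z))| ≤ N := by
      rw [abs_mul]
      have h5 : |lap g z - lap g (conj z)| ≤ 2 * N := by
        rw [abs_le] at h2 h3 ⊢
        constructor <;> linarith [h2.1, h2.2, h3.1, h3.2]
      calc |σ| * |lap g z - lap g (conj z)| ≤ 1 / 2 * (2 * N) :=
            mul_le_mul hσ h5 (abs_nonneg _) (by norm_num)
        _ = N := by ring
    have h6 := (abs_le.1 h4).2
    linarith
  · intro z0 hz0f
    have hz0 : z0 ∈ HS d := (isCompact_HS d).isClosed.frontier_subset hz0f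
    have hnint : z0 ∉ interior (HS d) := by
      rw [(isCompact_HS d).isClosed.frontier_eq] at hz0f
      exact hz0f.2
    have hint : ¬ (|z0.re| < d ∧ 0 < z0.im ∧ z0.im < d) := by
      intro hcon
      apply hnint
      have hopen : IsOpen {z : ℂ | |z.re| < d ∧ 0 < z.im ∧ z.im < d} := by
        have o1 : IsOpen {z : ℂ | |z.re| < d} := isOpen_lt (Complex.continuous_re.abs) continuous_const
        have o2 : IsOpen {z : ℂ | 0 < z.im} := isOpen_lt continuous_const Complex.continuous_im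
        have o3 : IsOpen {z : ℂ | z.im < d} := isOpen_lt Complex.continuous_im continuous_const
        exact o1.inter (o2.inter o3)
      exact mem_interior.2 ⟨_, fun z hz => ⟨hz.1.le, hz.2.1.le, hz.2.2.le⟩, hopen, hcon⟩
    obtain ⟨hr1, hi1, hi2⟩ := hz0
    have hb := (abs_le.1 (hbd z0 (HS_sub_Sq ⟨hr1, hi1, hi2⟩))).1
    have hN'0 : 0 ≤ N / 2 := by linarith
    have hB : 0 ≤ N / 2 * (z0.im * (d - z0.im)) :=
      mul_nonneg hN'0 (mul_nonneg hi1 (by linarith))
    rcases eq_or_lt_of_le hi1 with h0 | h0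
    · -- the imaginary part vanishes
      have h1 : conj z0 = z0 := by
        apply Complex.ext
        · simp
        · simp [← h0]
      simp only [hh]
      rw [h1]
      unfold bar
      rw [← h0]
      have : 0 ≤ M / d ^ 2 * (z0.re * z0.re) := mul_nonneg (by positivity) (mul_self_nonneg _)
      nlinarith
    · have h1 : d ^ 2 ≤ z0.re * z0.re + z0.im * (2 * d - z0.im) := by
        by_cases h2 : |z0.re| < d
        · have h3 : z0.im = d := by
            by_contra hne2
            exact hint ⟨h2, h0, lt_of_le_of_ne hi2 hne2⟩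
          rw [h3]
          nlinarith [mul_self_nonneg z0.re]
        · have h3 : |z0.re| = d := le_antisymm hr1 (not_lt.1 h2)
          have h4 : z0.re * z0.re = d ^ 2 := by
            rw [← h3, sq, abs_mul_abs_self]
          have h5 : 0 ≤ z0.im * (2 * d - z0.im) := mul_nonneg hi1 (by linarith)
          linarith
      have h2 : M ≤ M / d ^ 2 * (z0.re * z0.re + z0.im * (2 * d - z0.im)) := by
        calc M = M / d ^ 2 * d ^ 2 := by field_simp
          _ ≤ _ := mul_le_mul_of_nonneg_left h1 (by positivity)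
      simp only [hh]
      unfold bar
      linarith

private theorem dy_zero_sq (hmp : StMax) {g : ℂ → ℝ} {d M N : ℝ} {O : Set ℂ} (hd : 0 < d)
    (hO : IsOpen O) (hsub : Sq d ⊆ O) (hg : ContDiffOn ℝ 2 g O)
    (hM : ∀ z ∈ Sq d, |g z| ≤ M) (hN : ∀ z ∈ Sq d, |lap g z| ≤ N) :
    |dy g 0| ≤ 2 / d * M + d / 2 * N := by
  have h00 : (0 : ℂ) ∈ Sq d := ⟨by simp [hd.le], by simp [hd.le]⟩
  have hM0 : 0 ≤ M := (abs_nonneg _).trans (hM 0 h00)
  have hN0 : 0 ≤ N := (abs_nonneg _).trans (hN 0 h00)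
  have hgd : DifferentiableAt ℝ g 0 :=
    (hg.contDiffAt (hO.mem_nhds (hsub h00))).differentiableAt (by simp)
  have hline : ∀ s : ℝ, HasDerivAt (fun t : ℝ => g (t • (s • Complex.I))) (s * dy g 0) 0 := by
    intro s
    have hl : HasDerivAt (fun t : ℝ => t • (s • Complex.I)) (s • Complex.I) 0 := by
      have := (hasDerivAt_id (0 : ℝ)).smul_const (s • Complex.I)
      simpa using this
    have hg0 : HasFDerivAt g (fderiv ℝ g 0) ((0 : ℝ) • (s • Complex.I)) := by
      rw [zero_smul]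
      exact hgd.hasFDerivAt
    have := hg0.comp_hasDerivAt (0 : ℝ) hl
    have h2 : fderiv ℝ g 0 (s • Complex.I) = s * dy g 0 := by
      rw [map_smul]
      rfl
    rw [h2] at this
    exact this
  have hF : HasDerivAt (fun t : ℝ => 1 / 2 * (g (t • ((1 : ℝ) • Complex.I)) -
      g (t • ((-1 : ℝ) • Complex.I)))) (dy g 0) 0 := by
    have := ((hline 1).sub (hline (-1))).const_mul (1 / 2)
    refine this.congr_deriv ?_
    ring
  have hT := hF.tendsto_slope_zero_right
  have hbound : ∀ᶠ t in 𝓝[>] (0 : ℝ), |t⁻¹ • ((1 / 2 * (g ((0 + t) • ((1 : ℝ) • Complex.I)) -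
      g ((0 + t) • ((-1 : ℝ) • Complex.I)))) - (1 / 2 * (g ((0 : ℝ) • ((1 : ℝ) • Complex.I)) -
      g ((0 : ℝ) • ((-1 : ℝ) • Complex.I)))))| ≤ 2 / d * M + d / 2 * N := by
    have hlt : ∀ᶠ t in 𝓝[>] (0 : ℝ), t < d := eventually_nhdsWithin_of_eventually_nhds (gt_mem_nhds hd)
    filter_upwards [self_mem_nhdsWithin, hlt] with t ht htd
    have ht0 : 0 < t := ht
    have hmem : (t • Complex.I : ℂ) ∈ HS d := by
      refine ⟨?_, ?_, ?_⟩
      · simp [hd.le]
      · simpa using ht0.le
      · simpa using htd.le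
    have h1 := half_sq hmp hd hO hsub hg hM hN (σ := 1 / 2) (by rw [abs_of_pos] <;> norm_num) _ hmem
    have h2 := half_sq hmp hd hO hsub hg hM hN (σ := -(1 / 2))
      (by rw [abs_neg, abs_of_pos] <;> norm_num) _ hmem
    have e1 : conj (t • Complex.I : ℂ) = t • ((-1 : ℝ) • Complex.I) := by
      apply Complex.ext <;> simp
    have e2 : (t • ((1 : ℝ) • Complex.I) : ℂ) = t • Complex.I := by rw [one_smul]
    rw [e1] at h1 h2
    have e3 : bar (M / d ^ 2) (N / 2) d (t • Complex.I) =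
        M / d ^ 2 * (t * (2 * d - t)) + N / 2 * (t * (d - t)) := by
      unfold bar
      simp
    rw [e3] at h1 h2
    simp only [zero_add, zero_smul, sub_self, mul_zero, sub_zero, e2, smul_eq_mul]
    set D := g (t • Complex.I) - g (t • ((-1 : ℝ) • Complex.I)) with hD
    rw [abs_mul, abs_of_pos (inv_pos.2 ht0), inv_mul_le_iff₀ ht0]
    have h3 : |1 / 2 * D| ≤ M / d ^ 2 * (t * (2 * d - t)) + N / 2 * (t * (d - t)) := by
      rw [abs_le]
      constructor <;> linarith
    refine h3.trans ?_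
    have h4 : M / d ^ 2 * (t * (2 * d - t)) ≤ M / d ^ 2 * (t * (2 * d)) := by
      apply mul_le_mul_of_nonneg_left _ (by positivity)
      nlinarith
    have h5 : N / 2 * (t * (d - t)) ≤ N / 2 * (t * d) := by
      apply mul_le_mul_of_nonneg_left _ (by linarith)
      nlinarith
    have h6 : M / d ^ 2 * (t * (2 * d)) + N / 2 * (t * d) = t * (2 / d * M + d / 2 * N) := by
      field_simp
    linarith
  exact le_of_tendsto hT.abs hbound

theorem stG0 (h : StMax) : StG0 := by
  intro d M N w O hd hO hsub hw hM hN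
  have hI : (-Complex.I) ≠ 0 := neg_ne_zero.2 Complex.I_ne_zero
  have e0 : (-Complex.I) * Complex.I = 1 := by simp
  have e0' : (-Complex.I) * 1 = -Complex.I := by simp
  have hre : ∀ y : ℂ, (0 + (-Complex.I) * y).re = y.im := by
    intro y
    simp
  have him : ∀ y : ℂ, (0 + (-Complex.I) * y).im = -y.re := by
    intro y
    simp
  have hmap : ∀ y ∈ Sq d, |(0 + (-Complex.I) * y).re| ≤ d ∧ |(0 + (-Complex.I) * y).im| ≤ d := by
    intro y hy
    rw [hre, him, abs_neg]
    exact ⟨hy.2, hy.1⟩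
  have h2 : dy (fun y => w (0 + (-Complex.I) * y)) 0 = dx w 0 := by
    have := dir_affine w 0 (-Complex.I) 0 Complex.I hI
    rw [e0] at this
    simpa [dy, dx] using this
  have h3 : ∀ y, lap (fun y => w (0 + (-Complex.I) * y)) y = lap w (0 + (-Complex.I) * y) := by
    intro y
    have e1 : dx (fun y => w (0 + (-Complex.I) * y)) = fun y => -dy w (0 + (-Complex.I) * y) := by
      funext x
      have := dir_affine w 0 (-Complex.I) x 1 hI
      rw [e0', map_neg] at this
      exact this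
    have e2 : dy (fun y => w (0 + (-Complex.I) * y)) = fun y => dx w (0 + (-Complex.I) * y) := by
      funext x
      have := dir_affine w 0 (-Complex.I) x Complex.I hI
      rw [e0] at this
      exact this
    have e3 := dir_affine (dy w) 0 (-Complex.I) y 1 hI
    rw [e0', map_neg] at e3
    have e4 := dir_affine (dx w) 0 (-Complex.I) y Complex.I hI
    rw [e0] at e4
    have e5 : dx (fun y => -dy w (0 + (-Complex.I) * y)) y = dy (dy w) (0 + (-Complex.I) * y) := by
      have : dx (fun y => -dy w (0 + (-Complex.I) * y)) y =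
          - fderiv ℝ (fun y => dy w (0 + (-Complex.I) * y)) y 1 := by
        unfold dx
        rw [fderiv_fun_neg]
        rfl
      rw [this, e3, neg_neg]
      rfl
    have e6 : dy (fun y => dx w (0 + (-Complex.I) * y)) y = dx (dx w) (0 + (-Complex.I) * y) := e4
    rw [lap, lap, e1, e2, e5, e6, add_comm]
  have hcont : Continuous (fun y : ℂ => 0 + (-Complex.I) * y) := by fun_prop
  have h4 := dy_zero_sq h (g := fun y => w (0 + (-Complex.I) * y)) (d := d) (M := M) (N := N)
    (O := (fun y : ℂ => 0 + (-Complex.I) * y) ⁻¹' O) hd (hO.preimage hcont)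
    (fun y hy => hsub (hmap y hy))
    (by
      have h1 : ContDiff ℝ 2 (fun y : ℂ => 0 + (-Complex.I) * y) := by fun_prop
      exact hw.comp h1.contDiffOn (fun y hy => hy))
    (fun y hy => hM _ (hmap y hy).1 (hmap y hy).2)
    (fun y hy => by rw [h3]; exact hN _ (hmap y hy).1 (hmap y hy).2)
  rw [h2] at h4
  refine h4.trans (le_of_eq ?_)
  field_simp

end Pool.Agent.Helper61.CLB
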