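import Pool.Agent.Helper61.CLB.Defs

/-!
# Block B, E03: the gradient estimate, vector valued

PROOF.  `K = 10`.  Let `ℓ : E →L[ℝ] ℝ`, `‖ℓ‖ ≤ 1`.  `StG0` for `w ↦ ℓ (v (z₀ + w))` with `d = R/2` (the square `|re|, |im| ≤ R/2` lies in `ball 0 R`): `|ℓ (dx v z₀)| ≤ 4 M/R + N R/4`; Hahn-Banach
(`exists_dual_vector''` or `NormedSpace.norm_le_dual_bound`) gives `‖dx v z₀‖ ≤ 4M/R + N R/4`.  The same for `w ↦ ℓ (v (z₀ + I w))` (the Laplacian is invariant under `w ↦ I w`): `‖dy v z₀‖`.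
`‖fderiv ℝ v z₀‖ ≤ ‖dx v z₀‖ + ‖dy v z₀‖` (`h = h.re • 1 + h.im • I`).
-/

set_option autoImplicit false

namespace Pool.Agent.Helper61.CLB

open MeasureTheory Filter Topology Metric
open scoped ContDiff Real ENNReal
open Pool.Agent.Helper53.CL

universe u

private theorem two_apply {E : Type} [NormedAddCommGroup E] [NormedSpace ℝ E] {f : ℂ → E} {p : ℂ}
    (hf : ContDiffAt ℝ 2 f p) (a : ℂ) :
    HasFDerivAt (fun z => fderiv ℝ f z a) ((fderiv ℝ (fderiv ℝ f) p).flip a) p := by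
  have h1 : ContDiffAt ℝ 1 (fderiv ℝ f) p := hf.fderiv_right (m := 1) (by norm_num)
  have h2 : HasFDerivAt (fderiv ℝ f) (fderiv ℝ (fderiv ℝ f) p) p :=
    (h1.differentiableAt (by norm_num)).hasFDerivAt
  have h3 := h2.clm_apply (hasFDerivAt_const a p)
  have h4 : (fderiv ℝ f p).comp (0 : ℂ →L[ℝ] ℂ) + (fderiv ℝ (fderiv ℝ f) p).flip a =
      (fderiv ℝ (fderiv ℝ f) p).flip a := by
    rw [ContinuousLinearMap.comp_zero, zero_add]
  rw [h4] at h3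
  exact h3

private theorem aff (z₀ c y : ℂ) :
    HasFDerivAt (fun y : ℂ => z₀ + c * y) (ContinuousLinearMap.mul ℝ ℂ c) y :=
  ((ContinuousLinearMap.mul ℝ ℂ c).hasFDerivAt).const_add z₀

private theorem lap_eq {E : Type} [NormedAddCommGroup E] [NormedSpace ℝ E] {f : ℂ → E} {p : ℂ}
    (hf : ContDiffAt ℝ 2 f p) :
    lap f p = fderiv ℝ (fderiv ℝ f) p 1 1 + fderiv ℝ (fderiv ℝ f) p Complex.I Complex.I := by
  unfold lap dx dy
  rw [(two_apply hf 1).fderiv, (two_apply hf Complex.I).fderiv]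
  simp

private theorem mem_b {z₀ c y : ℂ} {R : ℝ} (hc : ‖c‖ = 1) (hy : y ∈ ball (0 : ℂ) R) :
    z₀ + c * y ∈ ball z₀ R := by
  rw [mem_ball, dist_eq_norm] at *
  simpa [hc] using hy

private theorem d1 {E : Type} [NormedAddCommGroup E] [NormedSpace ℝ E] {v : ℂ → E} {z₀ c : ℂ} {R : ℝ}
    (hv : ContDiffOn ℝ 2 v (ball z₀ R)) (hc : ‖c‖ = 1) (ℓ : E →L[ℝ] ℝ) {y : ℂ}
    (hy : y ∈ ball (0 : ℂ) R) (a : ℂ) :
    fderiv ℝ (fun y => ℓ (v (z₀ + c * y))) y a = ℓ (fderiv ℝ v (z₀ + c * y) (c * a)) := by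
  have h1 : ContDiffAt ℝ 2 v (z₀ + c * y) := hv.contDiffAt (isOpen_ball.mem_nhds (mem_b hc hy))
  have h2 : HasFDerivAt v (fderiv ℝ v (z₀ + c * y)) (z₀ + c * y) :=
    (h1.differentiableAt (by norm_num)).hasFDerivAt
  have h3 := (ℓ.hasFDerivAt (x := v (z₀ + c * y))).comp y (h2.comp y (aff z₀ c y))
  have h4 : HasFDerivAt (fun y => ℓ (v (z₀ + c * y)))
      (ℓ.comp ((fderiv ℝ v (z₀ + c * y)).comp (ContinuousLinearMap.mul ℝ ℂ c))) y := h3
  rw [h4.fderiv]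
  simp

private theorem d2 {E : Type} [NormedAddCommGroup E] [NormedSpace ℝ E] {v : ℂ → E} {z₀ c : ℂ} {R : ℝ}
    (hv : ContDiffOn ℝ 2 v (ball z₀ R)) (hc : ‖c‖ = 1) (ℓ : E →L[ℝ] ℝ) {y : ℂ}
    (hy : y ∈ ball (0 : ℂ) R) (a b : ℂ) :
    fderiv ℝ (fun y => fderiv ℝ (fun y => ℓ (v (z₀ + c * y))) y a) y b =
      ℓ (fderiv ℝ (fderiv ℝ v) (z₀ + c * y) (c * b) (c * a)) := by
  have h1 : ContDiffAt ℝ 2 v (z₀ + c * y) := hv.contDiffAt (isOpen_ball.mem_nhds (mem_b hc hy))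
  have he : (fun y => fderiv ℝ (fun y => ℓ (v (z₀ + c * y))) y a) =ᶠ[𝓝 y]
      fun y => ℓ (fderiv ℝ v (z₀ + c * y) (c * a)) := by
    filter_upwards [isOpen_ball.mem_nhds hy] with w hw
    exact d1 hv hc ℓ hw a
  rw [he.fderiv_eq]
  have h2 := two_apply h1 (c * a)
  have h3 := (ℓ.hasFDerivAt (x := fderiv ℝ v (z₀ + c * y) (c * a))).comp y
    (h2.comp y (aff z₀ c y))
  have h4 : HasFDerivAt (fun y => ℓ (fderiv ℝ v (z₀ + c * y) (c * a)))
      (ℓ.comp (((fderiv ℝ (fderiv ℝ v) (z₀ + c * y)).flip (c * a)).comp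
        (ContinuousLinearMap.mul ℝ ℂ c))) y := h3
  rw [h4.fderiv]
  simp

private theorem dir (h : StG0) {E : Type} [NormedAddCommGroup E] [NormedSpace ℝ E] {z₀ c : ℂ}
    {R M N : ℝ} {v : ℂ → E} (hR : 0 < R) (hv : ContDiffOn ℝ 2 v (ball z₀ R))
    (hM : ∀ z ∈ ball z₀ R, ‖v z‖ ≤ M) (hN : ∀ z ∈ ball z₀ R, ‖lap v z‖ ≤ N)
    (hc : ‖c‖ = 1) (hc2 : c = 1 ∨ c = Complex.I) :
    ‖fderiv ℝ v z₀ c‖ ≤ 4 * M / R + N * R / 4 := by
  have hz : z₀ ∈ ball z₀ R := mem_ball_self hR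
  have hM0 : 0 ≤ M := (norm_nonneg _).trans (hM z₀ hz)
  have hN0 : 0 ≤ N := (norm_nonneg _).trans (hN z₀ hz)
  refine NormedSpace.norm_le_dual_bound ℝ _ (by positivity) fun ℓ => ?_
  rcases eq_or_ne ℓ 0 with rfl | hℓ
  · simp
  have hℓ' : 0 < ‖ℓ‖ := norm_pos_iff.2 hℓ
  have hsq : {z : ℂ | |z.re| ≤ R / 2 ∧ |z.im| ≤ R / 2} ⊆ ball (0 : ℂ) R := by
    rintro z ⟨h1, h2⟩
    rw [mem_ball_zero_iff]
    have h3 : ‖z‖ ^ 2 < R ^ 2 := by
      rw [← Complex.normSq_eq_norm_sq, Complex.normSq_apply]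
      have h4 := abs_le.1 h1
      have h5 := abs_le.1 h2
      nlinarith
    exact lt_of_pow_lt_pow_left₀ 2 hR.le h3
  have hO : ContDiffOn ℝ 2 (fun y => ℓ (v (z₀ + c * y))) (ball (0 : ℂ) R) := by
    refine ℓ.contDiff.comp_contDiffOn (hv.comp ?_ fun y hy => mem_b hc hy)
    exact (contDiff_const.add (contDiff_const.mul contDiff_id)).contDiffOn
  have hlap : ∀ y ∈ ball (0 : ℂ) R,
      lap (fun y => ℓ (v (z₀ + c * y))) y = ℓ (lap v (z₀ + c * y)) := by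
    intro y hy
    have h1 : ContDiffAt ℝ 2 v (z₀ + c * y) := hv.contDiffAt (isOpen_ball.mem_nhds (mem_b hc hy))
    rw [lap_eq h1]
    unfold lap dx dy
    rw [d2 hv hc ℓ hy, d2 hv hc ℓ hy]
    rcases hc2 with rfl | rfl
    · simp
    · have h2 : Complex.I * Complex.I = -1 := Complex.I_mul_I
      rw [h2, mul_one]
      simp only [map_neg, neg_apply, neg_neg, map_add]
      ring
  have h1 := h (R / 2) (‖ℓ‖ * M) (‖ℓ‖ * N) (fun y => ℓ (v (z₀ + c * y))) (ball 0 R) (by positivity)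
    isOpen_ball hsq hO
    (fun z h1 h2 => by
      have h3 := ℓ.le_opNorm (v (z₀ + c * z))
      rw [Real.norm_eq_abs] at h3
      exact h3.trans (mul_le_mul_of_nonneg_left (hM _ (mem_b hc (hsq ⟨h1, h2⟩))) hℓ'.le))
    (fun z h1 h2 => by
      rw [hlap z (hsq ⟨h1, h2⟩)]
      have h3 := ℓ.le_opNorm (lap v (z₀ + c * z))
      rw [Real.norm_eq_abs] at h3
      exact h3.trans (mul_le_mul_of_nonneg_left (hN _ (mem_b hc (hsq ⟨h1, h2⟩))) hℓ'.le))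
  unfold dx at h1
  rw [d1 hv hc ℓ (mem_ball_self hR)] at h1
  rw [mul_zero, add_zero, mul_one] at h1
  rw [Real.norm_eq_abs]
  refine h1.trans (le_of_eq ?_)
  field_simp
  ring

theorem stG (h : StG0) : StG := by
  refine ⟨10, fun E _ _ z₀ R M N v hR hv hM hN => ?_⟩
  have hz : z₀ ∈ ball z₀ R := mem_ball_self hR
  have hM0 : 0 ≤ M := (norm_nonneg _).trans (hM z₀ hz)
  have hN0 : 0 ≤ N := (norm_nonneg _).trans (hN z₀ hz)
  have h1 := dir h hR hv hM hN (c := 1) (by simp) (Or.inl rfl)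
  have h2 := dir h hR hv hM hN (c := Complex.I) (by simp) (Or.inr rfl)
  have h3 : ‖fderiv ℝ v z₀‖ ≤ 2 * (4 * M / R + N * R / 4) := by
    refine ContinuousLinearMap.opNorm_le_bound _ (by positivity) fun w => ?_
    have h4 : fderiv ℝ v z₀ w = w.re • fderiv ℝ v z₀ 1 + w.im • fderiv ℝ v z₀ Complex.I := by
      rw [← map_smul, ← map_smul, ← map_add]
      congr 1
      apply Complex.ext <;> simp
    rw [h4]
    have h5 := Complex.abs_re_le_norm w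
    have h6 := Complex.abs_im_le_norm w
    have h7 : 0 ≤ 4 * M / R + N * R / 4 := by positivity
    calc ‖w.re • fderiv ℝ v z₀ 1 + w.im • fderiv ℝ v z₀ Complex.I‖
        ≤ |w.re| * ‖fderiv ℝ v z₀ 1‖ + |w.im| * ‖fderiv ℝ v z₀ Complex.I‖ := by
          refine (norm_add_le _ _).trans (le_of_eq ?_)
          rw [norm_smul, norm_smul, Real.norm_eq_abs, Real.norm_eq_abs]
      _ ≤ ‖w‖ * (4 * M / R + N * R / 4) + ‖w‖ * (4 * M / R + N * R / 4) := by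
          gcongr
      _ = 2 * (4 * M / R + N * R / 4) * ‖w‖ := by ring
  refine h3.trans ?_
  have h8 : 0 ≤ M / R := by positivity
  have h9 : 0 ≤ R * N := by positivity
  have h10 : 2 * (4 * M / R + N * R / 4) = 8 * (M / R) + (R * N) / 2 := by ring
  rw [h10]
  linarith

end Pool.Agent.Helper61.CLB
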