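import Pool.Agent.Helper61.CLB.Defs

/-!
# Block B, E04: the Laplacian commutes with the derivative

PROOF.  On the open set `D` all functions are smooth: `dx v z = fderiv ℝ v z 1`, so `dx`, `dy` of smooth functions are smooth on `D` (`ContDiffOn.fderiv_of_isOpen`, evaluation at a vector).  For `f` smooth on `D` and `z ∈ D`:
`dx (fderiv ℝ f) z = fderiv ℝ (dx f) z` as elements of `ℂ →L[ℝ] E`: evaluated at `m` the left side is `(fderiv ℝ (fderiv ℝ f) z 1) m`, the right side `(fderiv ℝ (fderiv ℝ f) z m) 1`; symmetry of the second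
derivative (`ContDiffAt.isSymmSndFDerivAt`).  Apply this twice for `dx` and twice for `dy` (equalities hold on the open set `D`, so they can be differentiated: `Filter.EventuallyEq.fderiv_eq`).
-/

set_option autoImplicit false

namespace Pool.Agent.Helper61.CLB

open MeasureTheory Filter Topology Metric
open scoped ContDiff Real ENNReal
open Pool.Agent.Helper53.CL

universe u

section aux

variable {E : Type*} [NormedAddCommGroup E] [NormedSpace ℝ E]

private lemma smooth_fderiv {D : Set ℂ} (hD : IsOpen D) {f : ℂ → E} (hf : ContDiffOn ℝ ∞ f D) :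
    ContDiffOn ℝ ∞ (fderiv ℝ f) D :=
  hf.fderiv_of_isOpen hD (by simp)

private lemma smooth_dir {D : Set ℂ} (hD : IsOpen D) {f : ℂ → E} (hf : ContDiffOn ℝ ∞ f D) (m : ℂ) :
    ContDiffOn ℝ ∞ (fun z => fderiv ℝ f z m) D :=
  (smooth_fderiv hD hf).clm_apply contDiffOn_const

private lemma comm_dir {D : Set ℂ} (hD : IsOpen D) {f : ℂ → E} (hf : ContDiffOn ℝ ∞ f D) (m : ℂ)
    {z : ℂ} (hz : z ∈ D) :
    fderiv ℝ (fderiv ℝ f) z m = fderiv ℝ (fun z => fderiv ℝ f z m) z := by
  have h1 : ContDiffAt ℝ ∞ f z := hf.contDiffAt (hD.mem_nhds hz)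
  have hsym : IsSymmSndFDerivAt ℝ f z := h1.isSymmSndFDerivAt (by simpa using ENat.LEInfty.out)
  have hd : DifferentiableAt ℝ (fderiv ℝ f) z :=
    ((smooth_fderiv hD hf).contDiffAt (hD.mem_nhds hz)).differentiableAt (by simp)
  ext w
  have h2 : HasFDerivAt (fun z => fderiv ℝ f z m)
      ((ContinuousLinearMap.apply ℝ E m).comp (fderiv ℝ (fderiv ℝ f) z)) z :=
    (ContinuousLinearMap.apply ℝ E m).hasFDerivAt.comp z hd.hasFDerivAt
  rw [h2.fderiv]
  simp only [ContinuousLinearMap.comp_apply, ContinuousLinearMap.apply_apply]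
  exact hsym m w

private lemma comm_dir2 {D : Set ℂ} (hD : IsOpen D) {f : ℂ → E} (hf : ContDiffOn ℝ ∞ f D) (m : ℂ)
    {z : ℂ} (hz : z ∈ D) :
    fderiv ℝ (fun z => fderiv ℝ (fderiv ℝ f) z m) z m =
      fderiv ℝ (fun z => fderiv ℝ (fun z => fderiv ℝ f z m) z m) z := by
  rw [← comm_dir hD (smooth_dir hD hf m) m hz]
  have h : (fun z => fderiv ℝ (fderiv ℝ f) z m) =ᶠ[𝓝 z] fderiv ℝ (fun z => fderiv ℝ f z m) := by
    filter_upwards [hD.mem_nhds hz] with y hy
    exact comm_dir hD hf m hy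
  rw [h.fderiv_eq]

end aux

theorem stComm : StComm := by
  intro E _ _ D v hD hv
  have hx : ContDiffOn ℝ ∞ (dx (dx v)) D := smooth_dir hD (smooth_dir hD hv 1) 1
  have hy : ContDiffOn ℝ ∞ (dy (dy v)) D := smooth_dir hD (smooth_dir hD hv Complex.I) Complex.I
  refine ⟨hx.add hy, smooth_fderiv hD hv, fun z hz => ?_⟩
  have h1 : fderiv ℝ (lap v) z = fderiv ℝ (dx (dx v)) z + fderiv ℝ (dy (dy v)) z := by
    have e : lap v = dx (dx v) + dy (dy v) := rfl
    rw [e]
    exact fderiv_add ((hx.contDiffAt (hD.mem_nhds hz)).differentiableAt (by simp))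
      ((hy.contDiffAt (hD.mem_nhds hz)).differentiableAt (by simp))
  rw [h1]
  exact congrArg₂ (· + ·) (comm_dir2 hD hv 1 hz) (comm_dir2 hD hv Complex.I hz)

end Pool.Agent.Helper61.CLB
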