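import Pool.Agent.Helper61.CLB.Defs

/-!
# Block B, E05: interior estimates of all orders

PROOF.  Induction on `k`.  If `r ≤ 0` the claim is void.  `k = 0`: `j = 0`: `‖v z‖ ≤ m`; `j = 1`: `StG` on `ball z (r' - r) ⊆ ball z₀ r'` (`‖iteratedFDeriv ℝ 1 v z‖ = ‖fderiv ℝ v z‖`,
`norm_iteratedFDeriv_one` or `norm_iteratedFDeriv_fderiv`).  Step `k → k + 1`: let `r'' = (r + r')/2`.  By the case `k = 0`, `‖fderiv ℝ v z‖ ≤ K₀ m` on `ball z₀ r''`; by `StComm`
`‖iteratedFDeriv ℝ j (lap (fderiv ℝ v)) z‖ = ‖iteratedFDeriv ℝ j (fderiv ℝ (lap v)) z‖ = ‖iteratedFDeriv ℝ (j+1) (lap v) z‖ ≤ m` for `j ≤ k` (`norm_iteratedFDeriv_fderiv`; equality of functions on an open set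
gives equality of `iteratedFDeriv`: `Filter.EventuallyEq.iteratedFDeriv`).  The induction hypothesis for `fderiv ℝ v : ℂ → (ℂ →L[ℝ] E)` on `r < r''` (quantified over all `E`, all `m`) bounds
`iteratedFDeriv ℝ j (fderiv ℝ v)`, `j ≤ k + 1`, i.e. `iteratedFDeriv ℝ (j+1) v`.
-/

set_option autoImplicit false

namespace Pool.Agent.Helper61.CLB

open MeasureTheory Filter Topology Metric
open scoped ContDiff Real ENNReal
open Pool.Agent.Helper53.CL

universe u

private theorem int_zero (h1 : StG) (r r' : ℝ) (hr : r < r') : ∃ K : ℝ, ∀ (E : Type)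
    [NormedAddCommGroup E] [NormedSpace ℝ E] (z₀ : ℂ) (m : ℝ) (v : ℂ → E),
    ContDiffOn ℝ ∞ v (ball z₀ r') → (∀ z ∈ ball z₀ r', ‖v z‖ ≤ m) →
    (∀ z ∈ ball z₀ r', ‖lap v z‖ ≤ m) → ∀ z ∈ ball z₀ r, ‖v z‖ ≤ m ∧ ‖fderiv ℝ v z‖ ≤ K * m := by
  obtain ⟨K, hK⟩ := h1
  refine ⟨K * (1 / (r' - r) + (r' - r)), ?_⟩
  intro E _ _ z₀ m v hv hm hl z hz
  have hR : 0 < r' - r := by linarith
  have hsub : ball z (r' - r) ⊆ ball z₀ r' := by
    refine ball_subset_ball' ?_
    have := mem_ball.1 hz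
    linarith
  refine ⟨hm z (ball_subset_ball hr.le hz), ?_⟩
  have h20 : (2 : WithTop ℕ∞) ≤ ((⊤ : ℕ∞) : WithTop ℕ∞) :=
    show ((2 : ℕ∞) : WithTop ℕ∞) ≤ ((⊤ : ℕ∞) : WithTop ℕ∞) from WithTop.coe_le_coe.2 le_top
  have h2 := hK E z (r' - r) m m v hR ((hv.of_le h20).mono hsub)
    (fun y hy => hm y (hsub hy)) (fun y hy => hl y (hsub hy))
  refine h2.trans (le_of_eq ?_)
  ring

theorem stInt (h1 : StG) (h2 : StComm) : StInt := by
  intro k
  induction k with
  | zero =>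
    intro r r' hr
    obtain ⟨K, hK⟩ := int_zero h1 r r' hr
    refine ⟨max 1 K, ?_⟩
    intro E _ _ z₀ m v hv hm hl j hj z hz
    have hl0 : ∀ z ∈ ball z₀ r', ‖lap v z‖ ≤ m := by
      intro y hy
      have h3 := hl 0 le_rfl y hy
      rwa [norm_iteratedFDeriv_zero] at h3
    obtain ⟨h3, h4⟩ := hK E z₀ m v hv hm hl0 z hz
    have hm0 : 0 ≤ m := (norm_nonneg _).trans h3
    interval_cases j
    · rw [norm_iteratedFDeriv_zero]
      refine h3.trans ?_
      exact le_mul_of_one_le_left hm0 (le_max_left _ _)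
    · rw [← norm_iteratedFDeriv_fderiv, norm_iteratedFDeriv_zero]
      exact h4.trans (mul_le_mul_of_nonneg_right (le_max_right _ _) hm0)
  | succ k ih =>
    intro r r' hr
    obtain ⟨K0, hK0⟩ := int_zero h1 ((r + r') / 2) r' (by linarith)
    obtain ⟨K1, hK1⟩ := ih r ((r + r') / 2) (by linarith)
    refine ⟨max 1 (K1 * max K0 1), ?_⟩
    intro E _ _ z₀ m v hv hm hl j hj z hz
    have hsub : ball z₀ ((r + r') / 2) ⊆ ball z₀ r' := ball_subset_ball (by linarith)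
    have hzr' : z ∈ ball z₀ r' := ball_subset_ball (by linarith) hz
    have hm0 : 0 ≤ m := (norm_nonneg _).trans (hm z hzr')
    have hl0 : ∀ z ∈ ball z₀ r', ‖lap v z‖ ≤ m := by
      intro y hy
      have h3 := hl 0 (Nat.zero_le _) y hy
      rwa [norm_iteratedFDeriv_zero] at h3
    obtain ⟨-, hc2, hc3⟩ := h2 E (ball z₀ r') v isOpen_ball hv
    have h5 := hK1 (ℂ →L[ℝ] E) z₀ (max K0 1 * m) (fderiv ℝ v) (hc2.mono hsub) (by
        intro y hy
        refine (hK0 E z₀ m v hv hm hl0 y hy).2.trans ?_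
        exact mul_le_mul_of_nonneg_right (le_max_left _ _) hm0) (by
        intro i hi y hy
        have h6 : lap (fderiv ℝ v) =ᶠ[𝓝 y] fderiv ℝ (lap v) := by
          filter_upwards [isOpen_ball.mem_nhds (hsub hy)] with x hx
          exact hc3 x hx
        rw [(h6.iteratedFDeriv ℝ i).eq_of_nhds, norm_iteratedFDeriv_fderiv]
        refine (hl (i + 1) (by omega) y (hsub hy)).trans ?_
        exact le_mul_of_one_le_left hm0 (le_max_right _ _))
    rcases Nat.eq_zero_or_pos j with hj0 | hj0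
    · rw [hj0, norm_iteratedFDeriv_zero]
      exact (hm z hzr').trans (le_mul_of_one_le_left hm0 (le_max_left _ _))
    · obtain ⟨i, rfl⟩ := Nat.exists_eq_succ_of_ne_zero hj0.ne'
      have h7 := h5 i (by omega) z hz
      rw [norm_iteratedFDeriv_fderiv] at h7
      refine h7.trans ?_
      rw [← mul_assoc]
      exact mul_le_mul_of_nonneg_right (le_max_right _ _) hm0

end Pool.Agent.Helper61.CLB
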