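import Pool.Agent.Helper61.CLB.Defs

/-!
# Block B, E06: derivatives of a sin u

PROOF.  `norm_iteratedFDeriv_mul_le` (or the `Within` version on the open set `D`; `iteratedFDerivWithin_of_isOpen`) reduces to `sin ∘ u`.  `norm_iteratedFDeriv_comp_le` (`norm_iteratedFDerivWithin_comp_le`): if
`‖iteratedFDeriv ℝ i sin y‖ ≤ 1` (all derivatives of `sin` are `± sin, ± cos`) and `‖iteratedFDeriv ℝ i u z‖ ≤ B^i` for `1 ≤ i ≤ n`, then `‖iteratedFDeriv ℝ n (sin ∘ u) z‖ ≤ n! B^n`.  `stSin`: `B = max K 1`.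
`stSinLin`: for `n ≥ 1` take `B = m^(1/n)` (`m ≥ 0` if `D` is nonempty; `m ≤ m^(i/n)` for `i ≤ n` as `0 ≤ m ≤ 1`), so the bound is `n! m`; for `n = 0`, `|sin u| ≤ |u| ≤ m`.  (If `m = 0` and `n ≥ 1`, `B = 0`, fine.)
-/

set_option autoImplicit false

namespace Pool.Agent.Helper61.CLB

open MeasureTheory Filter Topology Metric
open scoped ContDiff Real ENNReal
open Pool.Agent.Helper53.CL

universe u

private theorem sincos_bd (n : ℕ) : (∀ y : ℝ, |iteratedDeriv n Real.sin y| ≤ 1) ∧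
    ∀ y : ℝ, |iteratedDeriv n Real.cos y| ≤ 1 := by
  induction n with
  | zero => exact ⟨fun y => by simpa using Real.abs_sin_le_one y,
      fun y => by simpa using Real.abs_cos_le_one y⟩
  | succ n ih =>
    refine ⟨fun y => ?_, fun y => ?_⟩
    · rw [Real.iteratedDeriv_add_one_sin]
      exact ih.2 y
    · rw [Real.iteratedDeriv_add_one_cos, Pi.neg_apply, abs_neg]
      exact ih.1 y

private theorem sin_bd (n : ℕ) (y : ℝ) : ‖iteratedFDeriv ℝ n Real.sin y‖ ≤ 1 := by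
  rw [norm_iteratedFDeriv_eq_norm_iteratedDeriv, Real.norm_eq_abs]
  exact (sincos_bd n).1 y

private theorem comp_bd {D : Set ℂ} {u : ℂ → ℝ} (hD : IsOpen D) (hu : ContDiffOn ℝ ∞ u D) {z : ℂ}
    (hz : z ∈ D) {B : ℝ} (n : ℕ) (hB : ∀ i, 1 ≤ i → i ≤ n → ‖iteratedFDeriv ℝ i u z‖ ≤ B ^ i) :
    ‖iteratedFDeriv ℝ n (fun z => Real.sin (u z)) z‖ ≤ n.factorial * B ^ n := by
  rw [← iteratedFDerivWithin_of_isOpen n hD hz]
  have h := norm_iteratedFDerivWithin_comp_le (𝕜 := ℝ) (g := Real.sin) (f := u) (n := n) (s := D)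
    (t := Set.univ) (x := z) (N := ∞) (Real.contDiff_sin.contDiffOn) hu (by exact_mod_cast le_top)
    uniqueDiffOn_univ hD.uniqueDiffOn (Set.mapsTo_univ _ _) hz (C := 1) (D := B)
    (fun i _ => by rw [iteratedFDerivWithin_univ]; exact sin_bd i _)
    (fun i h1 h2 => by rw [iteratedFDerivWithin_of_isOpen i hD hz]; exact hB i h1 h2)
  simpa [Function.comp_def] using h

private theorem prod_bd {D : Set ℂ} {a u : ℂ → ℝ} (hD : IsOpen D) (ha : ContDiffOn ℝ ∞ a D)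
    (hu : ContDiffOn ℝ ∞ u D) {z : ℂ} (hz : z ∈ D) {M L : ℝ} (n k : ℕ) (hnk : n ≤ k) (hL : 0 ≤ L)
    (h1 : ∀ i ≤ n, ‖iteratedFDeriv ℝ i a z‖ ≤ M)
    (h2 : ∀ i ≤ n, ‖iteratedFDeriv ℝ i (fun z => Real.sin (u z)) z‖ ≤ L) :
    ‖iteratedFDeriv ℝ n (fun z => a z * Real.sin (u z)) z‖ ≤ 2 ^ k * |M| * L := by
  have hsu : ContDiffOn ℝ ∞ (fun z => Real.sin (u z)) D := Real.contDiff_sin.comp_contDiffOn hu
  rw [← iteratedFDerivWithin_of_isOpen n hD hz]
  refine (norm_iteratedFDerivWithin_mul_le (N := ∞) ha hsu hD.uniqueDiffOn hz (n := n)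
    (by exact_mod_cast le_top)).trans ?_
  have h3 : ∀ i ∈ Finset.range (n + 1), (n.choose i : ℝ) * ‖iteratedFDerivWithin ℝ i a D z‖ *
      ‖iteratedFDerivWithin ℝ (n - i) (fun z => Real.sin (u z)) D z‖ ≤
      (n.choose i : ℝ) * (|M| * L) := by
    intro i hi
    have hi' : i ≤ n := Nat.lt_succ_iff.1 (Finset.mem_range.1 hi)
    rw [iteratedFDerivWithin_of_isOpen i hD hz, iteratedFDerivWithin_of_isOpen (n - i) hD hz, mul_assoc]
    have e1 := (h1 i hi').trans (le_abs_self M)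
    have e2 := h2 (n - i) (Nat.sub_le _ _)
    have e3 : (0 : ℝ) ≤ (n.choose i : ℝ) := Nat.cast_nonneg _
    exact mul_le_mul_of_nonneg_left (mul_le_mul e1 e2 (norm_nonneg _) (abs_nonneg _)) e3
  refine (Finset.sum_le_sum h3).trans ?_
  rw [← Finset.sum_mul]
  have h4 : (∑ i ∈ Finset.range (n + 1), (n.choose i : ℝ)) = 2 ^ n := by
    rw [← Nat.cast_sum, Nat.sum_range_choose]
    norm_num
  rw [h4, mul_assoc]
  have h5 : (2 : ℝ) ^ n ≤ 2 ^ k := pow_le_pow_right₀ (by norm_num) hnk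
  exact mul_le_mul_of_nonneg_right h5 (by positivity)

theorem stSin : StSin := by
  intro k M K
  refine ⟨2 ^ k * |M| * (k.factorial * (max K 1) ^ k), ?_⟩
  intro D a u hD ha hu h1 h2 j hj z hz
  have hB : 1 ≤ max K 1 := le_max_right _ _
  refine prod_bd hD ha hu hz j k hj (by positivity) (fun i hi => h1 i (hi.trans hj) z hz) ?_
  intro i hi
  have hik : i ≤ k := hi.trans hj
  refine (comp_bd hD hu hz (B := max K 1) i ?_).trans ?_
  · intro l hl1 hl2
    refine (h2 l (hl2.trans hik) z hz hl1).trans ((le_max_left K 1).trans ?_)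
    exact le_self_pow₀ hB (by omega)
  · have e1 : (i.factorial : ℝ) ≤ k.factorial := by exact_mod_cast Nat.factorial_le hik
    have e2 : (max K 1) ^ i ≤ (max K 1) ^ k := pow_le_pow_right₀ hB hik
    exact mul_le_mul e1 e2 (by positivity) (by positivity)

theorem stSinLin : StSinLin := by
  intro k M
  refine ⟨2 ^ k * |M| * k.factorial, ?_⟩
  intro m D a u hD hm ha hu h1 h2 j hj z hz
  have hm0 : 0 ≤ m := (norm_nonneg _).trans (h2 0 (Nat.zero_le _) z hz)
  rw [mul_assoc]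
  refine prod_bd hD ha hu hz j k hj (by positivity) (fun i hi => h1 i (hi.trans hj) z hz) ?_
  intro i hi
  have hik : i ≤ k := hi.trans hj
  have e1 : (i.factorial : ℝ) ≤ k.factorial := by exact_mod_cast Nat.factorial_le hik
  rcases Nat.eq_zero_or_pos i with rfl | hi0
  · rw [norm_iteratedFDeriv_zero, Real.norm_eq_abs]
    have h3 := h2 0 (Nat.zero_le _) z hz
    rw [norm_iteratedFDeriv_zero, Real.norm_eq_abs] at h3
    have h4 : |Real.sin (u z)| ≤ |u z| := Real.abs_sin_le_abs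
    have h5 : (1 : ℝ) ≤ k.factorial := by exact_mod_cast Nat.succ_le_of_lt (Nat.factorial_pos k)
    calc |Real.sin (u z)| ≤ m := h4.trans h3
      _ = 1 * m := (one_mul m).symm
      _ ≤ k.factorial * m := mul_le_mul_of_nonneg_right h5 hm0
  · have hB0 : 0 ≤ m ^ ((i : ℝ)⁻¹) := Real.rpow_nonneg hm0 _
    have hB1 : m ^ ((i : ℝ)⁻¹) ≤ 1 := Real.rpow_le_one hm0 hm (by positivity)
    have hBi : (m ^ ((i : ℝ)⁻¹)) ^ i = m := Real.rpow_inv_natCast_pow hm0 hi0.ne'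
    refine (comp_bd hD hu hz (B := m ^ ((i : ℝ)⁻¹)) i ?_).trans ?_
    · intro l hl1 hl2
      refine (h2 l (hl2.trans hik) z hz).trans ?_
      calc m = (m ^ ((i : ℝ)⁻¹)) ^ i := hBi.symm
        _ ≤ (m ^ ((i : ℝ)⁻¹)) ^ l := pow_le_pow_of_le_one hB0 hB1 hl2
    · rw [hBi]
      exact mul_le_mul_of_nonneg_right e1 hm0

end Pool.Agent.Helper61.CLB
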