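import Pool.Agent.Helper61.CLB.Defs
import Pool.Agent.Helper53.CL.Iface

/-!
# Block B, E07: bounds of the derivatives of solutions on smaller discs; Bnd1

PROOF.  Induction on `k` (for all `r < 2`).  `k = 0`: `0 ≤ u ≤ 2π`.  Step: let `r < r' < 2`; bounds for `j ≤ k` on `ball 0 r'` by induction, so `StSin` on `D = ball 0 r'` bounds
`iteratedFDeriv ℝ j (lap u)`, `j ≤ k` (`lap u = a sin u` on the open set, `LSol.eq` with `ε = 1`); `StInt` with `z₀ = 0`, `m` = the maximum of the bounds.  `bnd1`: `StBall` with `r = 1`.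
-/

set_option autoImplicit false

namespace Pool.Agent.Helper61.CLB

open MeasureTheory Filter Topology Metric
open scoped ContDiff Real ENNReal
open Pool.Agent.Helper53.CL

universe u

theorem stBall (h1 : StInt) (h2 : StSin) : StBall := by
  intro M k
  induction k with
  | zero =>
    intro r hr
    refine ⟨2 * π, ?_⟩
    intro a u ha hM hL j hj z hz
    have hj0 : j = 0 := by omega
    subst hj0
    have hz2 : z ∈ ball (0 : ℂ) 2 := ball_subset_ball hr.le hz
    rw [norm_iteratedFDeriv_zero, Real.norm_of_nonneg (hL.nonneg z hz2)]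
    exact hL.le z hz2
  | succ k ih =>
    intro r hr
    obtain ⟨r', hr1, hr2⟩ : ∃ r' : ℝ, r < r' ∧ r' < 2 := exists_between hr
    obtain ⟨K1, hK1⟩ := ih r' hr2
    obtain ⟨K2, hK2⟩ := h2 k (∑ j ∈ Finset.range (k + 1), |M j|) K1
    obtain ⟨K3, hK3⟩ := h1 k r r' hr1
    refine ⟨K3 * max (2 * π) K2, ?_⟩
    intro a u ha hM hL
    have hsub : ball (0 : ℂ) r' ⊆ ball 0 2 := ball_subset_ball hr2.le
    have hu := hK1 a u ha hM hL
    have hsin := hK2 (ball 0 r') a u isOpen_ball (ha.mono hsub) (hL.smooth.mono hsub)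
      (fun j hj z hz => by
        refine (hM j z (hsub hz)).trans ((le_abs_self _).trans ?_)
        exact Finset.single_le_sum (f := fun j => |M j|) (fun _ _ => abs_nonneg _)
          (Finset.mem_range.2 (by omega)))
      (fun j hj z hz _ => hu j hj z hz)
    refine hK3 ℝ 0 (max (2 * π) K2) u (hL.smooth.mono hsub) ?_ ?_
    · intro z hz
      rw [Real.norm_of_nonneg (hL.nonneg z (hsub hz))]
      exact (hL.le z (hsub hz)).trans (le_max_left _ _)
    · intro j hj z hz
      have he : lap u =ᶠ[𝓝 z] fun z => a z * Real.sin (u z) := by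
        filter_upwards [isOpen_ball.mem_nhds (hsub hz)] with y hy
        have := hL.eq y hy
        simpa using this
      rw [(he.iteratedFDeriv ℝ j).eq_of_nhds]
      exact (hsin j hj z hz).trans (le_max_right _ _)

theorem bnd1 (h : StBall) : Iface.Bnd1 := by
  intro M k
  obtain ⟨K, hK⟩ := h M k 1 (by norm_num)
  exact ⟨K, fun a u ha hM hL => hK a u ha hM hL k le_rfl 0 (mem_ball_self one_pos)⟩

end Pool.Agent.Helper61.CLB
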