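import Pool.Agent.Helper61.CLB.Defs

/-!
# Block B, E08: linear bounds near a well

PROOF.  By induction on `k`: for every `r < 1` there are `K, δ > 0` such that for `m ≤ δ` all `‖iteratedFDeriv ℝ j v z‖ ≤ K m` for `j ≤ k`, `z ∈ ball 0 r`.  `k = 0`: the hypothesis.  Step: take `r < r' < 1` and `K, δ` for
`k, r'`; for `m ≤ min δ (1/K)` (`K ≥ 1`) `StSinLin` on `D = ball 0 r'` with `K m ≤ 1` gives `‖iteratedFDeriv ℝ j (lap v)‖ ≤ K' K m` for `j ≤ k` (bounds of `a`: `M' = max_{j ≤ k} M j`), and `StInt` with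
`m'' = max (1, K', ...) K m` bounds the derivatives of order `≤ k + 1` on `ball 0 r`.  At the end take `r = 1/2`, `z = 0`.
-/

set_option autoImplicit false

namespace Pool.Agent.Helper61.CLB

open MeasureTheory Filter Topology Metric
open scoped ContDiff Real ENNReal
open Pool.Agent.Helper53.CL

universe u

private theorem h7_ind (h1 : StInt) (h2 : StSinLin) (M : ℕ → ℝ) (k : ℕ) : ∀ r < (1 : ℝ), ∃ K δ : ℝ, 1 ≤ K ∧ 0 < δ ∧
    ∀ (m : ℝ) (a v : ℂ → ℝ), m ≤ δ →
    ContDiffOn ℝ ∞ a (ball 0 1) → (∀ j, ∀ z ∈ ball (0 : ℂ) 1, ‖iteratedFDeriv ℝ j a z‖ ≤ M j) →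
    ContDiffOn ℝ ∞ v (ball 0 1) → (∀ z ∈ ball (0 : ℂ) 1, lap v z = a z * Real.sin (v z)) →
    (∀ z ∈ ball (0 : ℂ) 1, |v z| ≤ m) → ∀ j ≤ k, ∀ z ∈ ball (0 : ℂ) r, ‖iteratedFDeriv ℝ j v z‖ ≤ K * m := by
  induction k with
  | zero =>
    intro r hr
    refine ⟨1, 1, le_rfl, one_pos, ?_⟩
    intro m a v _ _ _ _ _ hv j hj z hz
    obtain rfl : j = 0 := by omega
    rw [norm_iteratedFDeriv_zero, one_mul]
    exact hv z (ball_subset_ball hr.le hz)
  | succ k ih =>
    intro r hr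
    obtain ⟨r', hr1, hr2⟩ := exists_between hr
    obtain ⟨K, δ, hK, hδ, H⟩ := ih r' hr2
    obtain ⟨K', hK'⟩ := h2 k (∑ j ∈ Finset.range (k + 1), |M j|)
    obtain ⟨K'', hK''⟩ := h1 k r r' hr1
    have hK0 : 0 < K := lt_of_lt_of_le one_pos hK
    refine ⟨max 1 (|K''| * (max 1 |K'| * K)), min δ (1 / K), le_max_left _ _, by positivity, ?_⟩
    intro m a v hm ha haM hv hlap hvm
    have hm0 : 0 ≤ m := (abs_nonneg _).trans (hvm 0 (mem_ball_self one_pos))
    have hsub : ball (0 : ℂ) r' ⊆ ball 0 1 := ball_subset_ball hr2.le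
    have hKm : K * m ≤ 1 := by
      have : m ≤ 1 / K := hm.trans (min_le_right _ _)
      rw [le_div_iff₀ hK0] at this
      linarith
    have hH := H m a v (hm.trans (min_le_left _ _)) ha haM hv hlap hvm
    have hM : ∀ j ≤ k, ∀ z ∈ ball (0 : ℂ) r', ‖iteratedFDeriv ℝ j a z‖ ≤ ∑ j ∈ Finset.range (k + 1), |M j| := by
      intro j hj z hz
      refine (haM j z (hsub hz)).trans ((le_abs_self _).trans ?_)
      exact Finset.single_le_sum (f := fun j => |M j|) (fun i _ => abs_nonneg _)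
        (Finset.mem_range.2 (by omega))
    have hS := hK' (K * m) (ball 0 r') a v isOpen_ball hKm (ha.mono hsub) (hv.mono hsub) hM hH
    have hmax1 : 1 ≤ max 1 |K'| := le_max_left _ _
    have hmaxK : K' ≤ max 1 |K'| := (le_abs_self _).trans (le_max_right _ _)
    have hKm0 : 0 ≤ K * m := by positivity
    have hV := hK'' ℝ 0 (max 1 |K'| * (K * m)) v (hv.mono hsub) ?_ ?_
    · intro j hj z hz
      refine (hV j hj z hz).trans ?_
      calc K'' * (max 1 |K'| * (K * m)) ≤ |K''| * (max 1 |K'| * (K * m)) :=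
            mul_le_mul_of_nonneg_right (le_abs_self _) (by positivity)
        _ = (|K''| * (max 1 |K'| * K)) * m := by ring
        _ ≤ _ := mul_le_mul_of_nonneg_right (le_max_right _ _) hm0
    · intro z hz
      rw [Real.norm_eq_abs]
      calc |v z| ≤ m := hvm z (hsub hz)
        _ = 1 * (1 * m) := by ring
        _ ≤ max 1 |K'| * (K * m) :=
            mul_le_mul hmax1 (mul_le_mul_of_nonneg_right hK hm0) (by positivity) (by positivity)
    · intro j hj z hz
      have hev : lap v =ᶠ[𝓝 z] fun z => a z * Real.sin (v z) := by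
        filter_upwards [isOpen_ball.mem_nhds (hsub hz)] with y hy
        exact hlap y hy
      rw [(hev.iteratedFDeriv ℝ j).eq_of_nhds]
      exact (hS j hj z hz).trans (mul_le_mul_of_nonneg_right hmaxK hKm0)

theorem stLin (h1 : StInt) (h2 : StSinLin) : StLin := by
  intro M k
  obtain ⟨K, δ, _, hδ, H⟩ := h7_ind h1 h2 M k (1 / 2) (by norm_num)
  refine ⟨K, δ, hδ, ?_⟩
  intro m a v hm ha haM hv hlap hvm
  exact H m a v hm ha haM hv hlap hvm k le_rfl 0 (mem_ball_self (by norm_num))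

end Pool.Agent.Helper61.CLB
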