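import Pool.Agent.Helper61.CLB.Defs

/-!
# Block B, E09: local boundedness

PROOF.  Let `μ = max_{|z| ≤ 1} (1 - |z|) |v z|`, attained at `z₀` (compactness; `v` is continuous on `closedBall 0 1 ⊆ ball 0 2`).  If `μ = 0` then `v = 0` on `ball 0 1`.  Otherwise `d = 1 - |z₀| ∈ (0, 1]` and on
`ball z₀ (d/2)`: `1 - |z| ≥ d/2`, so `|v z| ≤ μ/(d/2) = 2 |v z₀|`.  For `y ∈ ball z₀ (d/4)` `StG` (with `E = ℝ`) on `ball y (d/4)` gives `‖fderiv ℝ v y‖ ≤ K (8 |v z₀|/d + (d/4) 2 M |v z₀|) ≤ L |v z₀|/d` with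
`L = K (8 + |M|)` (`K ≥ 0` w.l.o.g., `L ≥ 1`).  Put `c = min (1/4) (1/(2L))`: on `ball z₀ (c d)` `|v z| ≥ |v z₀|/2` (mean value inequality on the ball), so
`∫_{ball 0 1} v^2 ≥ π (c d)^2 |v z₀|^2/4 = (π c^2/4) μ^2` (`ball z₀ (c d) ⊆ ball 0 1`).  For `|z| < 1/2`: `|v z| ≤ 2 μ`, so `v z ^ 2 ≤ 4 μ^2 ≤ (16/(π c^2)) ∫ v^2`.
-/

set_option autoImplicit false

namespace Pool.Agent.Helper61.CLB

open MeasureTheory Filter Topology Metric
open scoped ContDiff Real ENNReal
open Pool.Agent.Helper53.CL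

universe u

theorem stLoc (h : StG) : StLoc := by
  obtain ⟨K, hK⟩ := h
  intro M
  set L : ℝ := |K| * (8 + |M|) + 1 with hL
  have hL1 : 1 ≤ L := by rw [hL]; have : 0 ≤ |K| * (8 + |M|) := by positivity
                         linarith
  set c : ℝ := min (1 / 4) (1 / (2 * L)) with hc
  have hc0 : 0 < c := lt_min (by norm_num) (by positivity)
  have hc4 : c ≤ 1 / 4 := min_le_left _ _
  have hcL : L * c ≤ 1 / 2 := by
    have h1 : c ≤ 1 / (2 * L) := min_le_right _ _
    have h2 : L * c ≤ L * (1 / (2 * L)) := by gcongr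
    have h3 : L * (1 / (2 * L)) = 1 / 2 := by field_simp
    linarith
  refine ⟨16 / (π * c ^ 2), fun v hv hlap z hz => ?_⟩
  have hcont : ContinuousOn v (ball 0 2) := hv.continuousOn
  have h12 : closedBall (0 : ℂ) 1 ⊆ ball 0 2 := closedBall_subset_ball (by norm_num)
  have h12' : ball (0 : ℂ) 1 ⊆ ball 0 2 := ball_subset_ball (by norm_num)
  have hφ : ContinuousOn (fun z : ℂ => (1 - ‖z‖) * |v z|) (closedBall 0 1) :=
    (continuousOn_const.sub continuous_norm.continuousOn).mul (hcont.mono h12).abs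
  obtain ⟨z₀, hz₀, hmax⟩ := (isCompact_closedBall (0 : ℂ) 1).exists_isMaxOn
    ⟨0, mem_closedBall_self (by norm_num)⟩ hφ
  set μ : ℝ := (1 - ‖z₀‖) * |v z₀| with hμ
  have hmax' : ∀ y ∈ closedBall (0 : ℂ) 1, (1 - ‖y‖) * |v y| ≤ μ := fun y hy => hmax hy
  have hz₀' : ‖z₀‖ ≤ 1 := by simpa using hz₀
  have hμ0 : 0 ≤ μ := mul_nonneg (by linarith) (abs_nonneg _)
  -- integrability
  have hint : IntegrableOn (fun y => v y ^ 2) (ball (0 : ℂ) 1) :=
    (((hcont.mono h12).pow 2).integrableOn_compact (isCompact_closedBall 0 1)).mono_set ball_subset_closedBall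
  have hint0 : 0 ≤ ∫ y in ball (0 : ℂ) 1, v y ^ 2 := integral_nonneg fun _ => sq_nonneg _
  -- the key bound
  have key : π * c ^ 2 / 4 * μ ^ 2 ≤ ∫ y in ball (0 : ℂ) 1, v y ^ 2 := by
    rcases hμ0.eq_or_lt with h0 | h0
    · rw [← h0]; simpa using hint0
    set d : ℝ := 1 - ‖z₀‖ with hd
    have hd0 : 0 < d := by
      rcases lt_or_eq_of_le (show 0 ≤ d by rw [hd]; linarith) with h1 | h1
      · exact h1
      · rw [hμ, ← h1, zero_mul] at h0; exact absurd h0 (lt_irrefl _)
    have hd1 : d ≤ 1 := by rw [hd]; linarith [norm_nonneg z₀]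
    have hv0 : 0 < |v z₀| := by
      rcases (abs_nonneg (v z₀)).eq_or_lt with h1 | h1
      · rw [hμ, ← h1, mul_zero] at h0; exact absurd h0 (lt_irrefl _)
      · exact h1
    have hb1 : ∀ y ∈ ball z₀ (d / 2), y ∈ ball (0 : ℂ) 1 ∧ |v y| ≤ 2 * |v z₀| := by
      intro y hy
      rw [mem_ball, dist_eq_norm] at hy
      have h1 : ‖y‖ ≤ ‖z₀‖ + ‖y - z₀‖ := by
        have := norm_add_le z₀ (y - z₀)
        simpa using this
      have h2 : d / 2 < 1 - ‖y‖ := by rw [hd] at hy ⊢; linarith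
      have h3 : y ∈ closedBall (0 : ℂ) 1 := by
        rw [mem_closedBall, dist_zero_right]; linarith
      refine ⟨by rw [mem_ball, dist_zero_right]; linarith, ?_⟩
      have h4 := hmax' y h3
      have h5 : d / 2 * |v y| ≤ (1 - ‖y‖) * |v y| := mul_le_mul_of_nonneg_right h2.le (abs_nonneg _)
      have h6 : d / 2 * |v y| ≤ d * |v z₀| := h5.trans h4
      have h7 : d * |v y| ≤ d * (2 * |v z₀|) := by linarith
      exact le_of_mul_le_mul_left h7 hd0
    have hgrad : ∀ y ∈ ball z₀ (d / 4), ‖fderiv ℝ v y‖ ≤ L * |v z₀| / d := by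
      intro y hy
      have hsub : ball y (d / 4) ⊆ ball z₀ (d / 2) := by
        refine ball_subset_ball' ?_
        have := mem_ball.1 hy
        linarith
      have h1 := hK ℝ y (d / 4) (2 * |v z₀|) (|M| * (2 * |v z₀|)) v (by positivity)
        (hv.mono fun w hw => h12' (hb1 w (hsub hw)).1)
        (fun w hw => by rw [Real.norm_eq_abs]; exact (hb1 w (hsub hw)).2)
        (fun w hw => by
          rw [Real.norm_eq_abs]
          refine (hlap w (hb1 w (hsub hw)).1).trans ?_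
          exact mul_le_mul (le_abs_self M) (hb1 w (hsub hw)).2 (abs_nonneg _) (abs_nonneg _))
      refine h1.trans ?_
      have h2 : 0 ≤ 2 * |v z₀| / (d / 4) + d / 4 * (|M| * (2 * |v z₀|)) := by positivity
      refine (mul_le_mul_of_nonneg_right (le_abs_self K) h2).trans ?_
      have h3 : 2 * |v z₀| / (d / 4) + d / 4 * (|M| * (2 * |v z₀|)) ≤ (8 + |M|) * |v z₀| / d := by
        rw [le_div_iff₀ hd0]
        have h4 : (2 * |v z₀| / (d / 4) + d / 4 * (|M| * (2 * |v z₀|))) * d =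
            8 * |v z₀| + d ^ 2 / 2 * (|M| * |v z₀|) := by field_simp; ring
        rw [h4]
        have h5 : d ^ 2 / 2 ≤ 1 := by nlinarith
        have h6 : d ^ 2 / 2 * (|M| * |v z₀|) ≤ 1 * (|M| * |v z₀|) :=
          mul_le_mul_of_nonneg_right h5 (by positivity)
        linarith
      calc |K| * (2 * |v z₀| / (d / 4) + d / 4 * (|M| * (2 * |v z₀|)))
          ≤ |K| * ((8 + |M|) * |v z₀| / d) := by gcongr
        _ = (|K| * (8 + |M|)) * (|v z₀| / d) := by ring
        _ ≤ L * (|v z₀| / d) := by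
          refine mul_le_mul_of_nonneg_right ?_ (by positivity)
          rw [hL]; linarith
        _ = L * |v z₀| / d := by ring
    have hcd : c * d ≤ d / 4 := by nlinarith
    have hlow : ∀ y ∈ ball z₀ (c * d), |v z₀| / 2 ≤ |v y| := by
      intro y hy
      have hy4 : y ∈ ball z₀ (d / 4) := ball_subset_ball hcd hy
      have hz4 : z₀ ∈ ball z₀ (d / 4) := mem_ball_self (by positivity)
      have hmv := (convex_ball z₀ (d / 4)).norm_image_sub_le_of_norm_fderiv_le (𝕜 := ℝ) (f := v)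
        (fun w hw => ?_) hgrad hz4 hy4
      · rw [Real.norm_eq_abs] at hmv
        have h1 : ‖y - z₀‖ ≤ c * d := by
          have := mem_ball.1 hy
          rw [dist_eq_norm] at this
          exact this.le
        have h2 : L * |v z₀| / d * ‖y - z₀‖ ≤ |v z₀| / 2 := by
          calc L * |v z₀| / d * ‖y - z₀‖ ≤ L * |v z₀| / d * (c * d) := by gcongr
            _ = (L * c) * |v z₀| := by field_simp
            _ ≤ 1 / 2 * |v z₀| := by gcongr
            _ = |v z₀| / 2 := by ring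
        have h3 := abs_sub_abs_le_abs_sub (v z₀) (v y)
        have h4 : |v z₀ - v y| = |v y - v z₀| := abs_sub_comm _ _
        linarith
      · have hw2 : w ∈ ball (0 : ℂ) 2 := h12' (hb1 w (ball_subset_ball (by linarith) hw)).1
        exact (hv.contDiffAt (isOpen_ball.mem_nhds hw2)).differentiableAt (by norm_num)
    have hsub : ball z₀ (c * d) ⊆ ball 0 1 := fun y hy =>
      (hb1 y (ball_subset_ball (by linarith) hy)).1
    have hvol : (volume.real (ball z₀ (c * d))) = π * (c * d) ^ 2 := by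
      rw [Measure.real, Complex.volume_ball]
      rw [ENNReal.toReal_mul, ENNReal.toReal_pow, ENNReal.toReal_ofReal (by positivity)]
      simp [NNReal.coe_real_pi, mul_comm]
    calc π * c ^ 2 / 4 * μ ^ 2 = (π * (c * d) ^ 2) * (|v z₀| / 2) ^ 2 := by rw [hμ]; ring
      _ = ∫ _ in ball z₀ (c * d), (|v z₀| / 2) ^ 2 := by
          rw [setIntegral_const, hvol, smul_eq_mul]
      _ ≤ ∫ y in ball z₀ (c * d), v y ^ 2 := by
          refine setIntegral_mono_on ?_ (hint.mono_set hsub) measurableSet_ball fun y hy => ?_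
          · exact integrableOn_const (by simp [Complex.volume_ball]; exact ENNReal.mul_ne_top (by simp) (by simp))
          · rw [← sq_abs (v y)]
            exact pow_le_pow_left₀ (by positivity) (hlow y hy) 2
      _ ≤ ∫ y in ball (0 : ℂ) 1, v y ^ 2 :=
          setIntegral_mono_set hint (Eventually.of_forall fun _ => sq_nonneg _)
            (HasSubset.Subset.eventuallyLE hsub)
  have hz1 : ‖z‖ < 1 / 2 := by simpa using hz
  have h1 := hmax' z (by rw [mem_closedBall, dist_zero_right]; linarith)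
  have h2 : |v z| ≤ 2 * μ := by
    have h3 : 1 / 2 * |v z| ≤ (1 - ‖z‖) * |v z| := mul_le_mul_of_nonneg_right (by linarith) (abs_nonneg _)
    linarith
  have h3 : v z ^ 2 ≤ 4 * μ ^ 2 := by
    rw [← sq_abs (v z)]
    calc |v z| ^ 2 ≤ (2 * μ) ^ 2 := pow_le_pow_left₀ (abs_nonneg _) h2 2
      _ = 4 * μ ^ 2 := by ring
  have hπ := Real.pi_pos
  calc v z ^ 2 ≤ 4 * μ ^ 2 := h3
    _ = 16 / (π * c ^ 2) * (π * c ^ 2 / 4 * μ ^ 2) := by field_simp; ring
    _ ≤ 16 / (π * c ^ 2) * ∫ y in ball (0 : ℂ) 1, v y ^ 2 := by gcongr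

end Pool.Agent.Helper61.CLB
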