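import Pool.Agent.Helper61.CLB.Defs
import Pool.Agent.Helper53.CL.Iface

/-!
# Block B, E10: Bnd2: derivatives bounded by the energy

PROOF.  Let `K₁ ≥ 1` bound `‖iteratedFDeriv ℝ j u z‖` for `j ≤ max k 1` on `ball 0 (3/2)` (`StBall`), `I` the integral over `ball 0 1` (the integrand is continuous on `closedBall 0 1 ⊆ ball 0 2`, so integrable, and `≥ 0`;
all we use of it is `∫_{ball 0 1} (1 - cos u) ≤ I`).
(1) For `z ∈ ball 0 (3/4)` and `θ = 1 - cos (u z) ≤ 2` let `ρ = θ/(8 K₁) ≤ 1/4`: on `ball z ρ ⊆ ball 0 1` `|cos (u y) - cos (u z)| ≤ K₁ ρ ≤ θ/2`, so `1 - cos u ≥ θ/2` there and `I ≥ π ρ^2 θ/2 = π θ^3/(128 K₁^2)`.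
(2) Let `δ, K₃` be given by `StLin` (for `M, k`), `K₂` by `StLoc` (for `M 0`), `θ₀ ∈ (0, 1/2]` with `(π^2/2) θ₀ ≤ δ^2`, `δ₁ = π θ₀^3/(128 K₁^2)`.  If `I < δ₁` then `1 - cos u < θ₀ ≤ 1/2` on `ball 0 (3/4)`, so `u` avoids `π`
there and, the ball being connected, `u < π` on `ball 0 (3/4)` or `u > π` on `ball 0 (3/4)`.  Put `v = u` resp. `v = 2π - u` (on all of `ℂ`): on `ball 0 (3/4)`: `0 ≤ v < π`, `lap v = a sin v`, `1 - cos v = 1 - cos u`,
`v^2 ≤ (π^2/2) (1 - cos v)` (Jordan: `sin (v/2) ≥ v/π`).  So `|v| ≤ δ` on `ball 0 (3/4)` and `∫_{ball 0 (1/2)} v^2 ≤ (π^2/2) I`; `|lap v| ≤ M 0 |v|` on `ball 0 (1/2)`.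
`StLoc` for `W z = v (z/2)`, then `StLin` for `V z = v (z/4)`, `ã z = a (z/4)/16` on `ball 0 1`.
(3) If `I ≥ δ₁`: `‖iteratedFDeriv ℝ k u 0‖^2 ≤ K₁^2 ≤ (K₁^2/δ₁) I`.
-/

set_option autoImplicit false

namespace Pool.Agent.Helper61.CLB

open MeasureTheory Filter Topology Metric
open scoped ContDiff Real ENNReal
open Pool.Agent.Helper53.CL

universe u

/-! ### scaling -/

theorem fderiv_scale {F : Type*} [NormedAddCommGroup F] [NormedSpace ℝ F] (f : ℂ → F) (c : ℝ) :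
    fderiv ℝ (fun z => f (c • z)) = fun z => c • fderiv ℝ f (c • z) := by
  funext z
  exact fderiv_comp_smul c

theorem fderiv_csmul {F : Type*} [NormedAddCommGroup F] [NormedSpace ℝ F] (f : ℂ → F) (c : ℝ) (z : ℂ) :
    fderiv ℝ (fun z => c • f z) z = c • fderiv ℝ f z := by
  have h := congrFun (fderiv_const_smul_field (𝕜 := ℝ) (f := f) c) z
  exact h

theorem iteratedFDeriv_scale {F : Type*} [NormedAddCommGroup F] [NormedSpace ℝ F] (f : ℂ → F) (c : ℝ) (n : ℕ) :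
    iteratedFDeriv ℝ n (fun z => f (c • z)) = fun z => c ^ n • iteratedFDeriv ℝ n f (c • z) := by
  induction n with
  | zero =>
    funext z
    ext m
    simp
  | succ n ih =>
    funext z
    rw [iteratedFDeriv_succ_eq_comp_left, ih, iteratedFDeriv_succ_eq_comp_left]
    simp only [Function.comp]
    have h1 : fderiv ℝ (fun z => c ^ n • iteratedFDeriv ℝ n f (c • z)) z =
        c ^ n • (c • fderiv ℝ (iteratedFDeriv ℝ n f) (c • z)) := by
      have h2 := fderiv_csmul (fun z => iteratedFDeriv ℝ n f (c • z)) (c ^ n) z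
      have h3 := congrFun (fderiv_scale (iteratedFDeriv ℝ n f) c) z
      rw [h2, h3]
    rw [h1, smul_smul, ← pow_succ, map_smul]

theorem dx_scale {F : Type*} [NormedAddCommGroup F] [NormedSpace ℝ F] (f : ℂ → F) (c : ℝ) :
    dx (fun z => f (c • z)) = fun z => c • dx f (c • z) := by
  funext z
  unfold dx
  rw [fderiv_scale]
  rfl

theorem dy_scale {F : Type*} [NormedAddCommGroup F] [NormedSpace ℝ F] (f : ℂ → F) (c : ℝ) :
    dy (fun z => f (c • z)) = fun z => c • dy f (c • z) := by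
  funext z
  unfold dy
  rw [fderiv_scale]
  rfl

theorem lap_scale (f : ℂ → ℝ) (c : ℝ) (z : ℂ) : lap (fun z => f (c • z)) z = c ^ 2 * lap f (c • z) := by
  unfold lap
  rw [dx_scale, dy_scale]
  have h1 : dx (fun z => c • dx f (c • z)) z = c • (c • dx (dx f) (c • z)) := by
    have h2 := congrFun (dx_scale (dx f) c) z
    rw [← h2]
    unfold dx
    rw [fderiv_csmul]
    rfl
  have h3 : dy (fun z => c • dy f (c • z)) z = c • (c • dy (dy f) (c • z)) := by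
    have h2 := congrFun (dy_scale (dy f) c) z
    rw [← h2]
    unfold dy
    rw [fderiv_csmul]
    rfl
  rw [h1, h3]
  simp only [smul_eq_mul]
  ring

/-! ### elementary facts -/

theorem sq_le_cos {v : ℝ} (h0 : 0 ≤ v) (h1 : v ≤ π) : v ^ 2 ≤ π ^ 2 / 2 * (1 - Real.cos v) := by
  have h2 : Real.cos v = 1 - 2 * Real.sin (v / 2) ^ 2 := by
    have h3 : Real.cos v = Real.cos (2 * (v / 2)) := by ring_nf
    rw [h3, Real.cos_two_mul]
    have := Real.sin_sq_add_cos_sq (v / 2)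
    linarith
  have h4 : 2 / π * (v / 2) ≤ Real.sin (v / 2) := Real.mul_le_sin (by linarith) (by linarith)
  have hpi := Real.pi_pos
  have h5 : v ≤ π * Real.sin (v / 2) := by
    have h6 : 2 / π * (v / 2) = v / π := by ring
    rw [h6, div_le_iff₀ hpi] at h4
    linarith
  have h7 : v ^ 2 ≤ (π * Real.sin (v / 2)) ^ 2 := pow_le_pow_left₀ h0 h5 2
  rw [h2]
  nlinarith [h7]

theorem ball_sub {z : ℂ} (hz : z ∈ ball (0 : ℂ) (3 / 4)) {ρ : ℝ} (hρ : ρ ≤ 1 / 4) : ball z ρ ⊆ ball (0 : ℂ) 1 := by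
  intro y hy
  rw [mem_ball_zero_iff] at hz ⊢
  rw [mem_ball, dist_eq_norm] at hy
  have h1 : ‖y‖ ≤ ‖y - z‖ + ‖z‖ := by
    have := norm_add_le (y - z) z
    simpa using this
  linarith

/-- Lower bound of the potential energy. -/
theorem low {u : ℂ → ℝ} (hu : ContDiffOn ℝ ∞ u (ball 0 2)) {K₁ : ℝ} (hK : 1 ≤ K₁)
    (hd : ∀ z ∈ ball (0 : ℂ) 1, ‖fderiv ℝ u z‖ ≤ K₁) {z : ℂ} (hz : z ∈ ball (0 : ℂ) (3 / 4)) :
    π * (1 - Real.cos (u z)) ^ 3 / (128 * K₁ ^ 2) ≤ ∫ y in ball (0 : ℂ) 1, (1 - Real.cos (u y)) := by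
  have hcont : ContinuousOn (fun y => 1 - Real.cos (u y)) (closedBall (0 : ℂ) 1) := by
    have h1 : ContinuousOn u (closedBall (0 : ℂ) 1) :=
      hu.continuousOn.mono (closedBall_subset_ball (by norm_num))
    exact continuousOn_const.sub (Real.continuous_cos.comp_continuousOn h1)
  have hint : IntegrableOn (fun y => 1 - Real.cos (u y)) (ball (0 : ℂ) 1) :=
    (hcont.integrableOn_compact (isCompact_closedBall _ _)).mono_set ball_subset_closedBall
  set θ := 1 - Real.cos (u z) with hθ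
  have hθ0 : 0 ≤ θ := by have := Real.cos_le_one (u z); linarith
  have hθ2 : θ ≤ 2 := by have := Real.neg_one_le_cos (u z); linarith
  have hK0 : 0 < K₁ := by linarith
  set ρ := θ / (8 * K₁) with hρ
  have hρ0 : 0 ≤ ρ := by positivity
  have hρ1 : ρ ≤ 1 / 4 := by
    rw [hρ, div_le_iff₀ (by positivity)]
    nlinarith
  have hsub : ball z ρ ⊆ ball (0 : ℂ) 1 := ball_sub hz hρ1
  have hlow : ∀ y ∈ ball z ρ, θ / 2 ≤ 1 - Real.cos (u y) := by
    intro y hy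
    have h1 : ‖u y - u z‖ ≤ K₁ * ‖y - z‖ := by
      have hzb : z ∈ ball z ρ := by
        rw [mem_ball, dist_self]
        exact lt_of_le_of_lt dist_nonneg (mem_ball.1 hy)
      refine Convex.norm_image_sub_le_of_norm_fderiv_le (𝕜 := ℝ) (s := ball z ρ) ?_ ?_ (convex_ball _ _) hzb hy
      · intro x hx
        have h2 : x ∈ ball (0 : ℂ) 2 := ball_subset_ball (by norm_num) (hsub hx)
        exact ((hu.contDiffAt (isOpen_ball.mem_nhds h2)).differentiableAt (by simp))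
      · intro x hx
        exact hd x (hsub hx)
    have h2 : |Real.cos (u y) - Real.cos (u z)| ≤ |u y - u z| := Real.abs_cos_sub_cos_le _ _
    rw [mem_ball, dist_eq_norm] at hy
    have h3 : K₁ * ‖y - z‖ ≤ K₁ * ρ := by
      apply mul_le_mul_of_nonneg_left hy.le hK0.le
    have h4 : K₁ * ρ = θ / 8 := by rw [hρ]; field_simp
    have h5 := abs_le.1 h2
    rw [Real.norm_eq_abs] at h1
    have h6 : Real.cos (u y) ≤ Real.cos (u z) + θ / 8 := by linarith [h5.2]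
    have h7 : Real.cos (u z) = 1 - θ := by rw [hθ]; ring
    linarith
  have h1 : ∫ y in ball z ρ, (θ / 2) ≤ ∫ y in ball z ρ, (1 - Real.cos (u y)) := by
    refine setIntegral_mono_on ?_ (hint.mono_set hsub) measurableSet_ball hlow
    exact integrableOn_const (measure_ball_lt_top.ne)
  have h2 : ∫ y in ball z ρ, (1 - Real.cos (u y)) ≤ ∫ y in ball (0 : ℂ) 1, (1 - Real.cos (u y)) := by
    refine setIntegral_mono_set hint ?_ hsub.eventuallyLE
    refine Eventually.of_forall (fun y => ?_)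
    have := Real.cos_le_one (u y)
    simp only [Pi.zero_apply]
    linarith
  have h3 : ∫ y in ball z ρ, (θ / 2) = π * ρ ^ 2 * (θ / 2) := by
    rw [setIntegral_const, smul_eq_mul, Measure.real, Complex.volume_ball]
    congr 1
    rw [ENNReal.toReal_mul, ENNReal.toReal_pow, ENNReal.toReal_ofReal hρ0]
    simp only [ENNReal.coe_toReal, NNReal.coe_real_pi]
    ring
  have h4 : π * ρ ^ 2 * (θ / 2) = π * θ ^ 3 / (128 * K₁ ^ 2) := by
    rw [hρ]
    field_simp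
    ring
  linarith

/-- A function on a connected set which avoids the value `π`. -/
theorem dich {u : ℂ → ℝ} (hu : ContinuousOn u (ball (0 : ℂ) (3 / 4)))
    (h : ∀ z ∈ ball (0 : ℂ) (3 / 4), u z ≠ π) :
    (∀ z ∈ ball (0 : ℂ) (3 / 4), u z < π) ∨ (∀ z ∈ ball (0 : ℂ) (3 / 4), π < u z) := by
  by_contra hc
  push Not at hc
  obtain ⟨⟨x, hx, hx1⟩, ⟨y, hy, hy1⟩⟩ := hc
  have h1 : IsPreconnected (ball (0 : ℂ) (3 / 4)) := (convex_ball _ _).isPreconnected
  have h2 := h1.intermediate_value hy hx hu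
  obtain ⟨z, hz, hz1⟩ := h2 ⟨hy1, hx1⟩
  exact h z hz hz1

/-- The estimate near a well. -/
theorem small {M : ℕ → ℝ} {k : ℕ} {K₂ K₃ δ : ℝ} (hK2 : 0 ≤ K₂)
    (hloc : ∀ v : ℂ → ℝ, ContDiffOn ℝ 2 v (ball 0 2) →
      (∀ z ∈ ball (0 : ℂ) 1, |lap v z| ≤ M 0 * |v z|) →
      ∀ z ∈ ball (0 : ℂ) (1 / 2), v z ^ 2 ≤ K₂ * ∫ y in ball (0 : ℂ) 1, v y ^ 2)
    (hlin : ∀ (m : ℝ) (a v : ℂ → ℝ), m ≤ δ →
      ContDiffOn ℝ ∞ a (ball 0 1) → (∀ j, ∀ z ∈ ball (0 : ℂ) 1, ‖iteratedFDeriv ℝ j a z‖ ≤ M j) →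
      ContDiffOn ℝ ∞ v (ball 0 1) → (∀ z ∈ ball (0 : ℂ) 1, lap v z = a z * Real.sin (v z)) →
      (∀ z ∈ ball (0 : ℂ) 1, |v z| ≤ m) → ‖iteratedFDeriv ℝ k v 0‖ ≤ K₃ * m)
    {a v : ℂ → ℝ} (ha : ContDiffOn ℝ ∞ a (ball 0 2))
    (haM : ∀ m, ∀ z ∈ ball (0 : ℂ) 2, ‖iteratedFDeriv ℝ m a z‖ ≤ M m)
    (hv : ContDiffOn ℝ ∞ v (ball 0 2)) (heq : ∀ z ∈ ball (0 : ℂ) (3 / 4), lap v z = a z * Real.sin (v z))
    (hvd : ∀ z ∈ ball (0 : ℂ) (3 / 4), |v z| ≤ δ) (hδ : 0 < δ)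
    {I : ℝ} (hI : ∫ y in ball (0 : ℂ) (1 / 2), v y ^ 2 ≤ π ^ 2 / 2 * I) :
    ‖iteratedFDeriv ℝ k v 0‖ ^ 2 ≤ (4 ^ k * K₃) ^ 2 * (2 * π ^ 2 * K₂) * I := by
  have hmem : ∀ {c r s : ℝ}, 0 < c → c * r ≤ s → ∀ {z : ℂ}, z ∈ ball (0 : ℂ) r → c • z ∈ ball (0 : ℂ) s := by
    intro c r s hc hcs z hz
    rw [mem_ball_zero_iff] at hz ⊢
    rw [norm_smul, Real.norm_eq_abs, abs_of_pos hc]
    have := mul_lt_mul_of_pos_left hz hc
    linarith
  -- the function W
  have hW1 : ContDiffOn ℝ 2 (fun z => v ((1 / 2 : ℝ) • z)) (ball 0 2) := by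
    have h1 : ContDiffOn ℝ ∞ (fun z => v ((1 / 2 : ℝ) • z)) (ball 0 2) := by
      refine hv.comp (s := ball (0 : ℂ) 2) (f := fun z : ℂ => (1 / 2 : ℝ) • z)
        (contDiff_const_smul _).contDiffOn ?_
      intro z hz
      exact hmem (by norm_num) (by norm_num) hz
    exact h1.of_le (by norm_cast)
  have hM0 : ∀ z ∈ ball (0 : ℂ) 2, |a z| ≤ M 0 := by
    intro z hz
    have := haM 0 z hz
    simpa using this
  have hM0' : 0 ≤ M 0 := le_trans (abs_nonneg _) (hM0 0 (by simp))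
  have hW2 : ∀ z ∈ ball (0 : ℂ) 1, |lap (fun z => v ((1 / 2 : ℝ) • z)) z| ≤ M 0 * |v ((1 / 2 : ℝ) • z)| := by
    intro z hz
    have hz1 : (1 / 2 : ℝ) • z ∈ ball (0 : ℂ) (3 / 4) := hmem (by norm_num) (by norm_num) hz
    have hz2 : (1 / 2 : ℝ) • z ∈ ball (0 : ℂ) 2 := hmem (by norm_num) (by norm_num) hz
    rw [lap_scale, heq _ hz1, abs_mul, abs_mul]
    have h1 := hM0 _ hz2
    have h2 : |Real.sin (v ((1 / 2 : ℝ) • z))| ≤ |v ((1 / 2 : ℝ) • z)| := Real.abs_sin_le_abs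
    have h3 : |a ((1 / 2 : ℝ) • z)| * |Real.sin (v ((1 / 2 : ℝ) • z))| ≤ M 0 * |v ((1 / 2 : ℝ) • z)| :=
      mul_le_mul h1 h2 (abs_nonneg _) hM0'
    have h4 : |(1 / 2 : ℝ) ^ 2| ≤ 1 := by norm_num [abs_of_pos]
    calc |(1 / 2 : ℝ) ^ 2| * (|a ((1 / 2 : ℝ) • z)| * |Real.sin (v ((1 / 2 : ℝ) • z))|)
        ≤ 1 * (|a ((1 / 2 : ℝ) • z)| * |Real.sin (v ((1 / 2 : ℝ) • z))|) :=
          mul_le_mul_of_nonneg_right h4 (by positivity)
      _ ≤ M 0 * |v ((1 / 2 : ℝ) • z)| := by linarith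
  have hW3 := hloc _ hW1 hW2
  have hint : ∫ y in ball (0 : ℂ) 1, v ((1 / 2 : ℝ) • y) ^ 2 = 4 * ∫ y in ball (0 : ℂ) (1 / 2), v y ^ 2 := by
    have h1 := Measure.setIntegral_comp_smul_of_pos (volume : Measure ℂ) (fun y => v y ^ 2) (ball (0 : ℂ) 1)
      (R := (1 / 2 : ℝ)) (by norm_num)
    rw [h1, _root_.smul_ball (by norm_num : (1 / 2 : ℝ) ≠ 0), Complex.finrank_real_complex]
    simp only [smul_zero, smul_eq_mul]
    norm_num
  have hsm : ∀ z ∈ ball (0 : ℂ) (1 / 4), v z ^ 2 ≤ 2 * π ^ 2 * K₂ * I := by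
    intro z hz
    have h1 := hW3 ((2 : ℝ) • z) (hmem (by norm_num) (by norm_num) hz)
    rw [hint] at h1
    have h2 : (1 / 2 : ℝ) • ((2 : ℝ) • z) = z := by
      rw [smul_smul]; norm_num
    rw [h2] at h1
    have h3 : K₂ * (4 * ∫ y in ball (0 : ℂ) (1 / 2), v y ^ 2) ≤ K₂ * (4 * (π ^ 2 / 2 * I)) :=
      mul_le_mul_of_nonneg_left (by linarith) hK2
    linarith
  set X := 2 * π ^ 2 * K₂ * I with hX
  have hX0 : 0 ≤ X := le_trans (sq_nonneg _) (hsm 0 (by simp))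
  set m := min (√X) δ with hm
  have hm0 : 0 ≤ m := le_min (Real.sqrt_nonneg _) hδ.le
  have hV := hlin m (fun z => (1 / 16 : ℝ) * a ((1 / 4 : ℝ) • z)) (fun z => v ((1 / 4 : ℝ) • z)) (min_le_right _ _)
    ?_ ?_ ?_ ?_ ?_
  · rw [iteratedFDeriv_scale] at hV
    simp only [smul_zero] at hV
    rw [norm_smul, Real.norm_eq_abs, abs_of_pos (by positivity)] at hV
    have h1 : ‖iteratedFDeriv ℝ k v 0‖ ≤ 4 ^ k * K₃ * m := by
      have h2 : ‖iteratedFDeriv ℝ k v 0‖ = 4 ^ k * ((1 / 4 : ℝ) ^ k * ‖iteratedFDeriv ℝ k v 0‖) := by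
        rw [← mul_assoc, ← mul_pow]
        norm_num
      rw [h2, mul_assoc]
      exact mul_le_mul_of_nonneg_left hV (by positivity)
    have h3 : ‖iteratedFDeriv ℝ k v 0‖ ^ 2 ≤ (4 ^ k * K₃ * m) ^ 2 := pow_le_pow_left₀ (norm_nonneg _) h1 2
    have h4 : m ^ 2 ≤ X := by
      have h5 : m ^ 2 ≤ (√X) ^ 2 := pow_le_pow_left₀ hm0 (min_le_left _ _) 2
      rwa [Real.sq_sqrt hX0] at h5
    calc ‖iteratedFDeriv ℝ k v 0‖ ^ 2 ≤ (4 ^ k * K₃ * m) ^ 2 := h3
      _ = (4 ^ k * K₃) ^ 2 * m ^ 2 := by ring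
      _ ≤ (4 ^ k * K₃) ^ 2 * X := mul_le_mul_of_nonneg_left h4 (by positivity)
      _ = (4 ^ k * K₃) ^ 2 * (2 * π ^ 2 * K₂) * I := by rw [hX]; ring
  · refine contDiffOn_const.mul ?_
    refine ha.comp (s := ball (0 : ℂ) 1) (f := fun z : ℂ => (1 / 4 : ℝ) • z)
      (contDiff_const_smul _).contDiffOn ?_
    intro z hz
    exact hmem (by norm_num) (by norm_num) hz
  · intro j z hz
    have hz2 : (1 / 4 : ℝ) • z ∈ ball (0 : ℂ) 2 := hmem (by norm_num) (by norm_num) hz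
    have hMj : 0 ≤ M j := le_trans (norm_nonneg _) (haM j 0 (by simp))
    have h1 : iteratedFDeriv ℝ j (fun z : ℂ => (1 / 16 : ℝ) * a ((1 / 4 : ℝ) • z)) =
        fun z => (1 / 4 : ℝ) ^ j • iteratedFDeriv ℝ j (fun w => (1 / 16 : ℝ) • a w) ((1 / 4 : ℝ) • z) :=
      iteratedFDeriv_scale (fun w => (1 / 16 : ℝ) • a w) (1 / 4) j
    rw [h1]
    have h2 : iteratedFDeriv ℝ j (fun w => (1 / 16 : ℝ) • a w) ((1 / 4 : ℝ) • z) =
        (1 / 16 : ℝ) • iteratedFDeriv ℝ j a ((1 / 4 : ℝ) • z) := by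
      have h3 : ContDiffAt ℝ j a ((1 / 4 : ℝ) • z) :=
        ((ha.contDiffAt (isOpen_ball.mem_nhds hz2)).of_le (by exact_mod_cast le_top))
      exact iteratedFDeriv_const_smul_apply' h3
    simp only [h2]
    rw [norm_smul, norm_smul, Real.norm_eq_abs, Real.norm_eq_abs, abs_of_pos (by positivity),
      abs_of_pos (by positivity)]
    have h4 : (1 / 4 : ℝ) ^ j ≤ 1 := pow_le_one₀ (by norm_num) (by norm_num)
    have h5 := haM j _ hz2
    calc (1 / 4 : ℝ) ^ j * (1 / 16 * ‖iteratedFDeriv ℝ j a ((1 / 4 : ℝ) • z)‖)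
        ≤ 1 * (1 * M j) := by
          apply mul_le_mul h4 _ (by positivity) (by norm_num)
          exact mul_le_mul (by norm_num) h5 (norm_nonneg _) (by norm_num)
      _ = M j := by ring
  · refine hv.comp (s := ball (0 : ℂ) 1) (f := fun z : ℂ => (1 / 4 : ℝ) • z)
      (contDiff_const_smul _).contDiffOn ?_
    intro z hz
    exact hmem (by norm_num) (by norm_num) hz
  · intro z hz
    have hz1 : (1 / 4 : ℝ) • z ∈ ball (0 : ℂ) (3 / 4) := hmem (by norm_num) (by norm_num) hz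
    rw [lap_scale, heq _ hz1]
    ring
  · intro z hz
    have hz1 : (1 / 4 : ℝ) • z ∈ ball (0 : ℂ) (3 / 4) := hmem (by norm_num) (by norm_num) hz
    have hz2 : (1 / 4 : ℝ) • z ∈ ball (0 : ℂ) (1 / 4) := hmem (by norm_num) (by norm_num) hz
    refine le_min ?_ (hvd _ hz1)
    rw [← Real.sqrt_sq_eq_abs]
    exact Real.sqrt_le_sqrt (hsm _ hz2)

theorem norm_iteratedFDeriv_sub (c : ℝ) (u : ℂ → ℝ) {k : ℕ} (hk : 1 ≤ k) (z : ℂ) :
    ‖iteratedFDeriv ℝ k (fun z => c - u z) z‖ = ‖iteratedFDeriv ℝ k u z‖ := by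
  obtain ⟨n, rfl⟩ : ∃ n, k = n + 1 := ⟨k - 1, by omega⟩
  rw [← norm_iteratedFDeriv_fderiv, ← norm_iteratedFDeriv_fderiv]
  have h1 : fderiv ℝ (fun z => c - u z) = -fderiv ℝ u := by
    funext z
    rw [fderiv_const_sub]
    rfl
  rw [h1, iteratedFDeriv_neg]
  simp

theorem lap_sub (c : ℝ) (u : ℂ → ℝ) (z : ℂ) : lap (fun z => c - u z) z = -lap u z := by
  have h1 : dx (fun z => c - u z) = fun z => -dx u z := by
    funext z
    unfold dx
    rw [fderiv_const_sub]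
    rfl
  have h2 : dy (fun z => c - u z) = fun z => -dy u z := by
    funext z
    unfold dy
    rw [fderiv_const_sub]
    rfl
  have h3 : ∀ (f : ℂ → ℝ) (z : ℂ), dx (fun z => -f z) z = -dx f z := by
    intro f z
    unfold dx
    rw [fderiv_fun_neg]
    rfl
  have h4 : ∀ (f : ℂ → ℝ) (z : ℂ), dy (fun z => -f z) z = -dy f z := by
    intro f z
    unfold dy
    rw [fderiv_fun_neg]
    rfl
  unfold lap
  rw [h1, h2, h3, h4]
  ring

theorem integrableOn_energy {u : ℂ → ℝ} (hu : ContDiffOn ℝ ∞ u (ball 0 2)) :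
    IntegrableOn (fun z => ‖gr u z‖ ^ 2) (ball (0 : ℂ) 1) ∧
      IntegrableOn (fun z => 1 - Real.cos (u z)) (ball (0 : ℂ) 1) := by
  have hsub : closedBall (0 : ℂ) 1 ⊆ ball 0 2 := closedBall_subset_ball (by norm_num)
  have hc : ContinuousOn u (closedBall (0 : ℂ) 1) := hu.continuousOn.mono hsub
  have hf : ContinuousOn (fderiv ℝ u) (closedBall (0 : ℂ) 1) :=
    (hu.continuousOn_fderiv_of_isOpen isOpen_ball (by simp)).mono hsub
  constructor
  · refine (ContinuousOn.integrableOn_compact (K := closedBall (0 : ℂ) 1) (isCompact_closedBall (0 : ℂ) 1) ?_).mono_set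
      ball_subset_closedBall
    have h1 : ContinuousOn (dx u) (closedBall (0 : ℂ) 1) := hf.clm_apply continuousOn_const
    have h2 : ContinuousOn (dy u) (closedBall (0 : ℂ) 1) := hf.clm_apply continuousOn_const
    have h3 : (fun z => ‖gr u z‖ ^ 2) = fun z => dx u z ^ 2 + dy u z ^ 2 := by
      funext z
      rw [← Complex.normSq_eq_norm_sq, Complex.normSq_apply]
      simp only [gr]
      ring
    rw [h3]
    exact (h1.pow 2).add (h2.pow 2)
  · refine (ContinuousOn.integrableOn_compact (K := closedBall (0 : ℂ) 1) (isCompact_closedBall (0 : ℂ) 1) ?_).mono_set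
      ball_subset_closedBall
    exact continuousOn_const.sub (Real.continuous_cos.comp_continuousOn hc)

theorem stBnd2 (h1 : StBall) (h2 : StLin) (h3 : StLoc) : StBnd2 := by
  intro M k hk
  obtain ⟨K, hK⟩ := h1 M k 1 (by norm_num)
  obtain ⟨K₃, δ, hδ, hlin⟩ := h2 M k
  obtain ⟨K₂', hloc'⟩ := h3 (M 0)
  set K₁ := max K 1 with hK1
  have hK11 : 1 ≤ K₁ := le_max_right _ _
  have hK10 : 0 < K₁ := by linarith
  set K₂ := max K₂' 0 with hK2
  have hK20 : 0 ≤ K₂ := le_max_right _ _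
  have hloc : ∀ v : ℂ → ℝ, ContDiffOn ℝ 2 v (ball 0 2) →
      (∀ z ∈ ball (0 : ℂ) 1, |lap v z| ≤ M 0 * |v z|) →
      ∀ z ∈ ball (0 : ℂ) (1 / 2), v z ^ 2 ≤ K₂ * ∫ y in ball (0 : ℂ) 1, v y ^ 2 := by
    intro v hv hv1 z hz
    refine (hloc' v hv hv1 z hz).trans ?_
    refine mul_le_mul_of_nonneg_right (le_max_left _ _) ?_
    exact setIntegral_nonneg measurableSet_ball (fun y _ => sq_nonneg _)
  have hpi := Real.pi_pos
  set θ₀ := min (1 / 2) (2 * δ ^ 2 / π ^ 2) with hθ₀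
  have hθ00 : 0 < θ₀ := by
    apply lt_min (by norm_num)
    positivity
  have hθ1 : θ₀ ≤ 1 / 2 := min_le_left _ _
  have hθ2 : π ^ 2 / 2 * θ₀ ≤ δ ^ 2 := by
    have : θ₀ ≤ 2 * δ ^ 2 / π ^ 2 := min_le_right _ _
    calc π ^ 2 / 2 * θ₀ ≤ π ^ 2 / 2 * (2 * δ ^ 2 / π ^ 2) := mul_le_mul_of_nonneg_left this (by positivity)
      _ = δ ^ 2 := by field_simp
  set δ₁ := π * θ₀ ^ 3 / (128 * K₁ ^ 2) with hδ₁
  have hδ10 : 0 < δ₁ := by positivity
  refine ⟨max (K₁ ^ 2 / δ₁) ((4 ^ k * K₃) ^ 2 * (2 * π ^ 2 * K₂)), ?_, ?_⟩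
  · exact le_max_of_le_left (by positivity)
  intro a u ha haM hu
  set I := ∫ z in ball (0 : ℂ) 1, (‖gr u z‖ ^ 2 + (1 - Real.cos (u z))) with hI
  have hint := integrableOn_energy hu.smooth
  have hI1 : ∫ z in ball (0 : ℂ) 1, (1 - Real.cos (u z)) ≤ I := by
    rw [hI]
    refine setIntegral_mono_on hint.2 (hint.1.add hint.2) measurableSet_ball ?_
    intro z _
    have : 0 ≤ ‖gr u z‖ ^ 2 := sq_nonneg _
    linarith
  have hcos : ∀ z, 0 ≤ 1 - Real.cos (u z) := by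
    intro z
    have := Real.cos_le_one (u z)
    linarith
  have hI0 : 0 ≤ I := le_trans (setIntegral_nonneg measurableSet_ball (fun z _ => hcos z)) hI1
  have hbd : ∀ j ≤ k, ∀ z ∈ ball (0 : ℂ) 1, ‖iteratedFDeriv ℝ j u z‖ ≤ K₁ := by
    intro j hj z hz
    exact (hK a u ha haM hu j hj z hz).trans (le_max_left _ _)
  rcases le_or_gt δ₁ I with hcase | hcase
  · have h4 : ‖iteratedFDeriv ℝ k u 0‖ ≤ K₁ := hbd k le_rfl 0 (by simp)
    have h5 : ‖iteratedFDeriv ℝ k u 0‖ ^ 2 ≤ K₁ ^ 2 := pow_le_pow_left₀ (norm_nonneg _) h4 2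
    have h6 : K₁ ^ 2 ≤ K₁ ^ 2 / δ₁ * I := by
      rw [div_mul_eq_mul_div, le_div_iff₀ hδ10]
      exact mul_le_mul_of_nonneg_left hcase (by positivity)
    have h7 : K₁ ^ 2 / δ₁ * I ≤ max (K₁ ^ 2 / δ₁) ((4 ^ k * K₃) ^ 2 * (2 * π ^ 2 * K₂)) * I :=
      mul_le_mul_of_nonneg_right (le_max_left _ _) hI0
    linarith
  · have hd : ∀ z ∈ ball (0 : ℂ) 1, ‖fderiv ℝ u z‖ ≤ K₁ := by
      intro z hz
      have := hbd 1 hk z hz
      rwa [norm_iteratedFDeriv_one] at this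
    have hθ : ∀ z ∈ ball (0 : ℂ) (3 / 4), 1 - Real.cos (u z) < θ₀ := by
      intro z hz
      have h4 := low hu.smooth hK11 hd hz
      have h5 : π * (1 - Real.cos (u z)) ^ 3 / (128 * K₁ ^ 2) < π * θ₀ ^ 3 / (128 * K₁ ^ 2) := by
        rw [← hδ₁]; linarith
      rw [div_lt_div_iff_of_pos_right (by positivity), mul_lt_mul_iff_right₀ hpi] at h5
      exact lt_of_pow_lt_pow_left₀ 3 hθ00.le h5
    have hne : ∀ z ∈ ball (0 : ℂ) (3 / 4), u z ≠ π := by
      intro z hz hc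
      have := hθ z hz
      rw [hc, Real.cos_pi] at this
      linarith
    have hsub : ball (0 : ℂ) (3 / 4) ⊆ ball 0 2 := ball_subset_ball (by norm_num)
    have hkey : ∀ v : ℂ → ℝ, ContDiffOn ℝ ∞ v (ball 0 2) →
        (∀ z ∈ ball (0 : ℂ) (3 / 4), lap v z = a z * Real.sin (v z)) →
        (∀ z ∈ ball (0 : ℂ) (3 / 4), 0 ≤ v z ∧ v z ≤ π) → (∀ z, Real.cos (v z) = Real.cos (u z)) →
        ‖iteratedFDeriv ℝ k v 0‖ ^ 2 ≤ (4 ^ k * K₃) ^ 2 * (2 * π ^ 2 * K₂) * I := by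
      intro v hv hv1 hv2 hv3
      refine small hK20 hloc hlin ha haM hv hv1 ?_ hδ ?_
      · intro z hz
        have h4 := sq_le_cos (hv2 z hz).1 (hv2 z hz).2
        rw [hv3] at h4
        have h5 : v z ^ 2 ≤ δ ^ 2 := by
          have := mul_le_mul_of_nonneg_left (hθ z hz).le (by positivity : 0 ≤ π ^ 2 / 2)
          linarith
        exact abs_le_of_sq_le_sq h5 hδ.le
      · have hs2 : ball (0 : ℂ) (1 / 2) ⊆ ball 0 1 := ball_subset_ball (by norm_num)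
        have hs3 : ball (0 : ℂ) (1 / 2) ⊆ ball 0 (3 / 4) := ball_subset_ball (by norm_num)
        have hc : ContinuousOn (fun z => v z ^ 2) (closedBall (0 : ℂ) 1) :=
          (hv.continuousOn.mono (closedBall_subset_ball (by norm_num))).pow 2
        have hvi : IntegrableOn (fun z => v z ^ 2) (ball (0 : ℂ) (1 / 2)) :=
          (hc.integrableOn_compact (isCompact_closedBall _ _)).mono_set (hs2.trans ball_subset_closedBall)
        calc ∫ y in ball (0 : ℂ) (1 / 2), v y ^ 2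
            ≤ ∫ y in ball (0 : ℂ) (1 / 2), π ^ 2 / 2 * (1 - Real.cos (u y)) := by
              refine setIntegral_mono_on hvi ((hint.2.mono_set hs2).const_mul _) measurableSet_ball ?_
              intro z hz
              have h4 := sq_le_cos (hv2 z (hs3 hz)).1 (hv2 z (hs3 hz)).2
              rwa [hv3] at h4
          _ = π ^ 2 / 2 * ∫ y in ball (0 : ℂ) (1 / 2), (1 - Real.cos (u y)) := integral_const_mul _ _
          _ ≤ π ^ 2 / 2 * I := by
              refine mul_le_mul_of_nonneg_left ?_ (by positivity)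
              refine le_trans ?_ hI1
              exact setIntegral_mono_set hint.2 (Eventually.of_forall hcos) hs2.eventuallyLE
    have hfin : ‖iteratedFDeriv ℝ k u 0‖ ^ 2 ≤ (4 ^ k * K₃) ^ 2 * (2 * π ^ 2 * K₂) * I := by
      rcases dich (hu.smooth.continuousOn.mono hsub) hne with hlt | hgt
      · refine hkey u hu.smooth ?_ ?_ (fun _ => rfl)
        · intro z hz
          have := hu.eq z (hsub hz)
          simpa using this
        · intro z hz
          exact ⟨hu.nonneg z (hsub hz), (hlt z hz).le⟩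
      · have h4 := hkey (fun z => 2 * π - u z) (contDiffOn_const.sub hu.smooth) ?_ ?_ ?_
        · rwa [norm_iteratedFDeriv_sub _ _ hk] at h4
        · intro z hz
          have h5 := hu.eq z (hsub hz)
          rw [lap_sub]
          have h6 : lap u z = a z * Real.sin (u z) := by simpa using h5
          rw [h6]
          have h7 : Real.sin (2 * π - u z) = -Real.sin (u z) := by
            rw [Real.sin_two_pi_sub]
          rw [h7]
          ring
        · intro z hz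
          constructor
          · have := hu.le z (hsub hz)
            linarith
          · have := hgt z hz
            linarith
        · intro z
          exact Real.cos_two_pi_sub _
    have h7 : (4 ^ k * K₃) ^ 2 * (2 * π ^ 2 * K₂) * I ≤
        max (K₁ ^ 2 / δ₁) ((4 ^ k * K₃) ^ 2 * (2 * π ^ 2 * K₂)) * I :=
      mul_le_mul_of_nonneg_right (le_max_right _ _) hI0
    linarith

/-- Immediate from `StBnd2` (which does not need `0 < a`). -/
theorem bnd2 (h : StBnd2) : Iface.Bnd2 := by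
  intro M k hk
  obtain ⟨K, -, hK⟩ := h M k hk
  exact ⟨K, fun a u ha hM _ hu => hK a u ha hM hu⟩

end Pool.Agent.Helper61.CLB
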