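import Pool.Agent.Helper61.CLB.Defs

/-!
# Block B, E11: limits of smooth functions

PROOF.  Induction on `k` (for all `E`).  `k = 0`: a locally uniform limit of continuous functions is continuous: `UniformCauchySeqOn` of `iteratedFDeriv ℝ 0 (f n)` means that `f n` is uniformly Cauchy on `D`
(`iteratedFDeriv_zero_eq_comp`), with the pointwise limit `g` this gives `TendstoUniformlyOn` (`UniformCauchySeqOn.tendstoUniformlyOn_of_tendsto`), then `TendstoUniformlyOn.continuousOn`.  Step: `fderiv ℝ (f n)` is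
uniformly Cauchy on `D` (the norm of `iteratedFDeriv ℝ (j+1) f` equals the norm of `iteratedFDeriv ℝ j (fderiv ℝ f)`, also for differences), values in the complete space `ℂ →L[ℝ] E`; let `G` be its pointwise limit on `D`.
`hasFDerivAt_of_tendstoUniformlyOn` gives `HasFDerivAt g (G z) z` for `z ∈ D`, the induction hypothesis for `fderiv ℝ (f n)`, `G` gives `ContDiffOn ℝ k G D`; `contDiffOn_succ_iff_fderiv_of_isOpen`.
-/

set_option autoImplicit false

namespace Pool.Agent.Helper61.CLB

open MeasureTheory Filter Topology Metric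
open scoped ContDiff Real ENNReal
open Pool.Agent.Helper53.CL

universe u

private theorem e11_dist {E : Type} [NormedAddCommGroup E] [NormedSpace ℝ E] (j : ℕ) (f g : ℂ → E)
    (x : ℂ) : dist (iteratedFDeriv ℝ j (fderiv ℝ f) x) (iteratedFDeriv ℝ j (fderiv ℝ g) x) =
      dist (iteratedFDeriv ℝ (j + 1) f x) (iteratedFDeriv ℝ (j + 1) g x) := by
  rw [iteratedFDeriv_succ_eq_comp_right, iteratedFDeriv_succ_eq_comp_right]
  simp only [Function.comp_apply]
  rw [LinearIsometryEquiv.dist_map]

private theorem e11_dist0 {E : Type} [NormedAddCommGroup E] [NormedSpace ℝ E] (f g : ℂ → E)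
    (x : ℂ) : dist (iteratedFDeriv ℝ 0 f x) (iteratedFDeriv ℝ 0 g x) = dist (f x) (g x) := by
  rw [iteratedFDeriv_zero_eq_comp, iteratedFDeriv_zero_eq_comp]
  simp only [Function.comp_apply]
  rw [LinearIsometryEquiv.dist_map]

private theorem e11_zero {E : Type} [NormedAddCommGroup E] [NormedSpace ℝ E] {D : Set ℂ}
    {f : ℕ → ℂ → E} (h : UniformCauchySeqOn (fun n => iteratedFDeriv ℝ 0 (f n)) atTop D) :
    UniformCauchySeqOn f atTop D := by
  rw [Metric.uniformCauchySeqOn_iff] at h ⊢
  intro ε hε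
  obtain ⟨N, hN⟩ := h ε hε
  refine ⟨N, fun m hm n hn x hx => ?_⟩
  have := hN m hm n hn x hx
  rwa [e11_dist0] at this

private theorem e11_succ {E : Type} [NormedAddCommGroup E] [NormedSpace ℝ E] {D : Set ℂ} {j : ℕ}
    {f : ℕ → ℂ → E} (h : UniformCauchySeqOn (fun n => iteratedFDeriv ℝ (j + 1) (f n)) atTop D) :
    UniformCauchySeqOn (fun n => iteratedFDeriv ℝ j (fderiv ℝ (f n))) atTop D := by
  rw [Metric.uniformCauchySeqOn_iff] at h ⊢
  intro ε hε
  obtain ⟨N, hN⟩ := h ε hε
  refine ⟨N, fun m hm n hn x hx => ?_⟩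
  have := hN m hm n hn x hx
  rwa [← e11_dist] at this

theorem stLim : StLim := by
  intro k
  induction k with
  | zero =>
    intro E _ _ _ D f g hD hf hg hc
    have h1 := (e11_zero (hc 0 le_rfl)).tendstoUniformlyOn_of_tendsto hg
    have h2 : ContinuousOn g D :=
      h1.continuousOn (Frequently.of_forall fun n => (hf n).continuousOn)
    have h3 : ContDiffOn ℝ 0 g D := contDiffOn_zero.2 h2
    simpa using h3
  | succ k ih =>
    intro E _ _ _ D f g hD hf hg hc
    have hc1 : ∀ j ≤ k, UniformCauchySeqOn (fun n => iteratedFDeriv ℝ j (fderiv ℝ (f n))) atTop D :=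
      fun j hj => e11_succ (hc (j + 1) (by omega))
    have h0 : UniformCauchySeqOn (fun n => fderiv ℝ (f n)) atTop D := e11_zero (hc1 0 (Nat.zero_le k))
    have hlim : ∀ z ∈ D, ∃ L, Tendsto (fun n => fderiv ℝ (f n) z) atTop (𝓝 L) := fun z hz =>
      cauchySeq_tendsto_of_complete (h0.cauchySeq hz)
    choose! G hG using hlim
    have h1 := h0.tendstoUniformlyOn_of_tendsto hG
    have hder : ∀ z ∈ D, HasFDerivAt g (G z) z := by
      intro z hz
      refine hasFDerivAt_of_tendstoUniformlyOn hD h1 ?_ hg hz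
      intro n x hx
      have h2 : ContDiffAt ℝ ∞ (f n) x := (hf n).contDiffAt (hD.mem_nhds hx)
      exact (h2.differentiableAt (by simp)).hasFDerivAt
    have hfs : ∀ n, ContDiffOn ℝ ∞ (fderiv ℝ (f n)) D := fun n =>
      (hf n).fderiv_of_isOpen hD (by simp)
    have h3 := ih (ℂ →L[ℝ] E) D (fun n => fderiv ℝ (f n)) G hD hfs hG hc1
    have h4 : ContDiffOn ℝ k (fderiv ℝ g) D := h3.congr fun z hz => (hder z hz).fderiv
    have h5 : ContDiffOn ℝ ((k : WithTop ℕ∞) + 1) g D := by
      rw [contDiffOn_succ_iff_fderiv_of_isOpen hD]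
      refine ⟨fun z hz => (hder z hz).differentiableAt.differentiableWithinAt, ?_, h4⟩
      intro h
      simp at h
    exact_mod_cast h5

end Pool.Agent.Helper61.CLB
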