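import Pool.Agent.Helper61.CLB.Defs

/-!
# Block B, E12: mollification of weak solutions

PROOF.  `mol n f` is the convolution of the smooth compactly supported function `η_n = (bmp _ _).normed volume` with `f` (`MeasureTheory.convolution` with `lsmul` or `mul`): smooth by
`HasCompactSupport.contDiff_convolution_left`.  For `z` with `‖z‖ + 1/(n+1) < r`: `mol n f z = ∫ f y * η_n (z - y) dy`, and differentiating under the integral (or: the derivative of a convolution falls on the smooth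
factor, `HasCompactSupport.hasFDerivAt_convolution_left`, twice) `lap (mol n f) z = ∫ f y * (lap η_n) (z - y) dy = ∫ f y * lap (fun y => η_n (z - y)) y dy` (the Laplacian is invariant under `y ↦ z - y`).  The
test function `η y = η_n (z - y)` is smooth with support in `closedBall z (1/(n+1)) ⊆ ball 0 r`, so the last integral is `∫ h y * η_n (z - y) dy = mol n h z`.
-/

set_option autoImplicit false

namespace Pool.Agent.Helper61.CLB

open MeasureTheory Filter Topology Metric
open scoped ContDiff Real ENNReal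
open Pool.Agent.Helper53.CL

universe u

/-- the convolution -/
private noncomputable def cvl (f ρ : ℂ → ℝ) (z : ℂ) : ℝ := ∫ t, f t * ρ (z - t)

private theorem cvl_eq (f ρ : ℂ → ℝ) : cvl f ρ = MeasureTheory.convolution f ρ (ContinuousLinearMap.mul ℝ ℝ) volume := by
  funext z
  rw [convolution_def]
  rfl

private theorem mol_eq (n : ℕ) (f : ℂ → ℝ) :
    mol n f = cvl f ((bmp (1 / (n + 1)) Nat.one_div_pos_of_nat).normed volume) := by
  funext z
  unfold mol cvl
  have h := integral_sub_left_eq_self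
    (fun t => f t * (bmp (1 / (n + 1)) Nat.one_div_pos_of_nat).normed volume (z - t)) (volume : Measure ℂ) z
  rw [← h]
  refine integral_congr_ae (Eventually.of_forall fun y => ?_)
  simp only
  rw [sub_sub_cancel, mul_comm]

private theorem cvl_smooth {f ρ : ℂ → ℝ} (hf : Integrable f) (hρ : ContDiff ℝ ∞ ρ) (hc : HasCompactSupport ρ) :
    ContDiff ℝ ∞ (cvl f ρ) := by
  rw [cvl_eq]
  exact hc.contDiff_convolution_right _ hf.locallyIntegrable hρ

private theorem cvl_fderiv {f ρ : ℂ → ℝ} (hf : Integrable f) (hρ : ContDiff ℝ ∞ ρ) (hc : HasCompactSupport ρ)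
    (z v : ℂ) : fderiv ℝ (cvl f ρ) z v = cvl f (fun a => fderiv ℝ ρ a v) z := by
  rw [cvl_eq, cvl_eq, (hc.hasFDerivAt_convolution_right (ContinuousLinearMap.mul ℝ ℝ) hf.locallyIntegrable
    (hρ.of_le (by exact_mod_cast le_top)) z).fderiv]
  exact convolution_precompR_apply (ContinuousLinearMap.mul ℝ ℝ) hf.locallyIntegrable (hc.fderiv ℝ)
    (hρ.continuous_fderiv (by norm_num)) z v

private theorem der_smooth {ρ : ℂ → ℝ} (hρ : ContDiff ℝ ∞ ρ) (v : ℂ) : ContDiff ℝ ∞ (fun a => fderiv ℝ ρ a v) :=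
  (hρ.fderiv_right (m := ∞) (by norm_num)).clm_apply contDiff_const

private theorem der_supp {ρ : ℂ → ℝ} (hc : HasCompactSupport ρ) (v : ℂ) :
    HasCompactSupport (fun a => fderiv ℝ ρ a v) :=
  (hc.fderiv (𝕜 := ℝ)).comp_left (g := fun L : ℂ →L[ℝ] ℝ => L v) (by simp)

private theorem cvl_lap {f ρ : ℂ → ℝ} (hf : Integrable f) (hρ : ContDiff ℝ ∞ ρ) (hc : HasCompactSupport ρ)
    (z : ℂ) : lap (cvl f ρ) z = ∫ t, f t * lap ρ (z - t) := by
  have h2 : ∀ v : ℂ, fderiv ℝ (fun y => fderiv ℝ (cvl f ρ) y v) z v =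
      ∫ t, f t * fderiv ℝ (fun y => fderiv ℝ ρ y v) (z - t) v := by
    intro v
    have e1 : (fun y => fderiv ℝ (cvl f ρ) y v) = cvl f (fun a => fderiv ℝ ρ a v) :=
      funext fun y => cvl_fderiv hf hρ hc y v
    rw [e1, cvl_fderiv hf (der_smooth hρ v) (der_supp hc v)]
    rfl
  have hint : ∀ v : ℂ, Integrable fun t => f t * fderiv ℝ (fun y => fderiv ℝ ρ y v) (z - t) v := by
    intro v
    have hs := der_smooth (der_smooth hρ v) v
    have hk := der_supp (der_supp hc v) v
    have hcont : Continuous fun t : ℂ => fderiv ℝ (fun y => fderiv ℝ ρ y v) (z - t) v :=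
      hs.continuous.comp (continuous_const.sub continuous_id)
    obtain ⟨C, hC⟩ := hk.exists_bound_of_continuous hs.continuous
    exact hf.mul_bdd (c := C) hcont.aestronglyMeasurable (Eventually.of_forall fun t => hC (z - t))
  have hL : lap (cvl f ρ) z = fderiv ℝ (fun y => fderiv ℝ (cvl f ρ) y 1) z 1 +
      fderiv ℝ (fun y => fderiv ℝ (cvl f ρ) y Complex.I) z Complex.I := rfl
  rw [hL, h2 1, h2 Complex.I, ← integral_add (hint 1) (hint Complex.I)]
  refine integral_congr_ae (Eventually.of_forall fun t => ?_)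
  show f t * fderiv ℝ (fun y => fderiv ℝ ρ y 1) (z - t) 1 +
    f t * fderiv ℝ (fun y => fderiv ℝ ρ y Complex.I) (z - t) Complex.I = f t * lap ρ (z - t)
  rw [← mul_add]
  rfl

private theorem der_refl {ρ : ℂ → ℝ} (hρ : ContDiff ℝ ∞ ρ) (z t v : ℂ) :
    fderiv ℝ (fun y => ρ (z - y)) t v = -fderiv ℝ ρ (z - t) v := by
  have h1 : HasFDerivAt ρ (fderiv ℝ ρ (z - t)) (z - t) :=
    ((hρ.differentiable (by norm_num)) (z - t)).hasFDerivAt
  have h2 : HasFDerivAt (fun y : ℂ => z - y) (-ContinuousLinearMap.id ℝ ℂ) t :=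
    (hasFDerivAt_id t).const_sub z
  have h3 := h1.comp t h2
  have h4 : fderiv ℝ (fun y => ρ (z - y)) t = (fderiv ℝ ρ (z - t)).comp (-ContinuousLinearMap.id ℝ ℂ) := h3.fderiv
  rw [h4]
  simp

private theorem lap_refl {ρ : ℂ → ℝ} (hρ : ContDiff ℝ ∞ ρ) (z t : ℂ) :
    lap (fun y => ρ (z - y)) t = lap ρ (z - t) := by
  have h2 : ∀ v : ℂ, fderiv ℝ (fun y => fderiv ℝ (fun y => ρ (z - y)) y v) t v =
      fderiv ℝ (fun y => fderiv ℝ ρ y v) (z - t) v := by
    intro v
    have e1 : (fun y => fderiv ℝ (fun y => ρ (z - y)) y v) = fun y => -(fun a => fderiv ℝ ρ a v) (z - y) :=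
      funext fun y => der_refl hρ z y v
    rw [e1]
    have e2 : fderiv ℝ (fun y => -(fun a => fderiv ℝ ρ a v) (z - y)) t =
        -fderiv ℝ (fun y => (fun a => fderiv ℝ ρ a v) (z - y)) t := fderiv_fun_neg
    rw [e2, ContinuousLinearMap.neg_apply, der_refl (der_smooth hρ v) z t v, neg_neg]
  have hL : lap (fun y => ρ (z - y)) t = fderiv ℝ (fun y => fderiv ℝ (fun y => ρ (z - y)) y 1) t 1 +
      fderiv ℝ (fun y => fderiv ℝ (fun y => ρ (z - y)) y Complex.I) t Complex.I := rfl
  rw [hL, h2 1, h2 Complex.I]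
  rfl

theorem stMol : StMol := by
  intro r f h hf hh hw n
  set ρ : ℂ → ℝ := (bmp (1 / (n + 1)) Nat.one_div_pos_of_nat).normed volume with hρdef
  have hρ : ContDiff ℝ ∞ ρ := (bmp (1 / (n + 1)) Nat.one_div_pos_of_nat).contDiff_normed
  have hc : HasCompactSupport ρ := (bmp (1 / (n + 1)) Nat.one_div_pos_of_nat).hasCompactSupport_normed
  rw [mol_eq, mol_eq]
  refine ⟨cvl_smooth hf hρ hc, cvl_smooth hh hρ hc, ?_⟩
  intro z hz
  rw [cvl_lap hf hρ hc]
  have hη : ContDiff ℝ ∞ (fun y => ρ (z - y)) := hρ.comp (contDiff_const.sub contDiff_id)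
  have hsupp : Function.support (fun y => ρ (z - y)) ⊆ closedBall z (1 / ((n : ℝ) + 1)) := by
    intro y hy
    have h1 : z - y ∈ Function.support ρ := hy
    rw [hρdef, ContDiffBump.support_normed_eq] at h1
    have h2 : dist (z - y) 0 < 1 / ((n : ℝ) + 1) := h1
    rw [dist_zero_right] at h2
    rw [mem_closedBall, dist_comm, dist_eq_norm]
    exact h2.le
  have hts : tsupport (fun y => ρ (z - y)) ⊆ closedBall z (1 / ((n : ℝ) + 1)) :=
    closure_minimal hsupp isClosed_closedBall
  have hcη : HasCompactSupport (fun y => ρ (z - y)) :=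
    (isCompact_closedBall z (1 / ((n : ℝ) + 1))).of_isClosed_subset (isClosed_tsupport _) hts
  have hin : tsupport (fun y => ρ (z - y)) ⊆ ball 0 r := by
    refine hts.trans ?_
    intro y hy
    rw [mem_ball, dist_zero_right] at hz ⊢
    rw [mem_closedBall, dist_eq_norm] at hy
    calc ‖y‖ = ‖(y - z) + z‖ := by rw [sub_add_cancel]
      _ ≤ ‖y - z‖ + ‖z‖ := norm_add_le _ _
      _ < r := by linarith
  have hfin := hw (fun y => ρ (z - y)) hη hcη hin
  have e1 : ∫ t, f t * lap ρ (z - t) = ∫ t, f t * lap (fun y => ρ (z - y)) t :=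
    integral_congr_ae (Eventually.of_forall fun t => by
      show f t * lap ρ (z - t) = f t * lap (fun y => ρ (z - y)) t
      rw [lap_refl hρ])
  rw [e1, hfin]
  rfl

end Pool.Agent.Helper61.CLB
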