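import Pool.Agent.Helper61.CLB.Defs

/-!
# Block B, E12b: bounds and almost everywhere convergence of mollifications

PROOF.  `stMolBd`: `η_n ≥ 0`, `∫ η_n = 1`, `η_n y = 0` for `‖y‖ ≥ 1/(n+1)` (`ContDiffBump.nonneg_normed`, `integral_normed`, `support_normed_eq`); `|∫ η_n y f (z - y)| ≤ ∫ η_n y m = m`
(the integrand is integrable: bounded times integrable; `norm_integral_le_of_norm_le`).  `stMolAe`: `ContDiffBump.ae_convolution_tendsto_right_of_locallyIntegrable` with `rOut = 1/(n+1) → 0`, `rOut ≤ 2 rIn`.
-/

set_option autoImplicit false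

namespace Pool.Agent.Helper61.CLB

open MeasureTheory Filter Topology Metric
open scoped ContDiff Real ENNReal
open Pool.Agent.Helper53.CL

universe u

theorem stMolBd : StMolBd := by
  intro n f z m _ hb
  have hm : 0 ≤ m := le_trans (abs_nonneg _) (hb z (mem_ball_self Nat.one_div_pos_of_nat))
  set φ : ContDiffBump (0 : ℂ) := bmp (1 / (n + 1)) Nat.one_div_pos_of_nat with hφ
  have h1 : ‖∫ y, φ.normed volume y * f (z - y)‖ ≤ ∫ y, φ.normed volume y * m := by
    refine norm_integral_le_of_norm_le (φ.integrable_normed.mul_const m) ?_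
    refine Filter.Eventually.of_forall (fun y => ?_)
    rw [Real.norm_eq_abs, abs_mul, abs_of_nonneg (φ.nonneg_normed y)]
    by_cases hy : y ∈ ball (0 : ℂ) (1 / ((n : ℝ) + 1))
    · refine mul_le_mul_of_nonneg_left (hb _ ?_) (φ.nonneg_normed y)
      rw [mem_ball, dist_eq_norm]
      have : z - y - z = -y := by ring
      rw [this, norm_neg]
      rwa [mem_ball, dist_zero_right] at hy
    · have h0 : φ.normed volume y = 0 := by
        by_contra hne
        have : y ∈ Function.support (φ.normed (volume : Measure ℂ)) := hne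
        rw [φ.support_normed_eq] at this
        exact hy this
      rw [h0, zero_mul, zero_mul]
  rw [integral_mul_const, φ.integral_normed, one_mul] at h1
  exact h1

theorem stMolAe : StMolAe := by
  intro f hf
  have h := ContDiffBump.ae_convolution_tendsto_right_of_locallyIntegrable (μ := (volume : Measure ℂ))
    (φ := fun n : ℕ => bmp (1 / ((n : ℝ) + 1)) Nat.one_div_pos_of_nat) (l := atTop) (K := 2)
    (g := f) tendsto_one_div_add_atTop_nhds_zero_nat (Filter.Eventually.of_forall (fun n => by
      show (1 / ((n : ℝ) + 1)) ≤ 2 * ((1 / ((n : ℝ) + 1)) / 2)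
      linarith)) hf.locallyIntegrable
  filter_upwards [h] with z hz
  exact hz

end Pool.Agent.Helper61.CLB
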