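import Pool.Agent.Helper61.CLB.Defs

/-!
# Block B, E14: bounded weak solutions are continuous

PROOF.  If `r ≤ 0` take `g = 0`.  Let `s = (r' - r)/2 > 0` and `n` with `1/(n+1) < s`.  On `ball 0 (r + s) ⊆ ball 0 (r' - 1/(n+1))`: `lap (mol n f) = mol n h` (`StMol`), `|mol n f| ≤ m`, `|mol n h| ≤ m` (`StMolBd`).
For `z ∈ ball 0 r`, `StG` (with `E = ℝ`) on `ball z s`: `‖fderiv ℝ (mol n f) z‖ ≤ L := K (m/s + s m)`.  The ball is convex: `|mol n f z - mol n f w| ≤ L ‖z - w‖` for `z, w ∈ ball 0 r` and all large `n`.  By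
`StMolAe` `mol n f → f` on a set `Z` of full measure, so `f` is Lipschitz with constant `L` on `Z ∩ ball 0 r`; `LipschitzOnWith.extend_real` gives the continuous function `g`.
-/

set_option autoImplicit false

namespace Pool.Agent.Helper61.CLB

open MeasureTheory Filter Topology Metric
open scoped ContDiff Real ENNReal
open Pool.Agent.Helper53.CL

universe u

theorem stReg0 (h1 : StG) (h2 : StMol) (h3 : StMolBd) (h4 : StMolAe) : StReg0 := by
  intro r r' m f h hrr hf hh hfm hhm hw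
  obtain ⟨K, hK⟩ := h1
  set s : ℝ := (r' - r) / 2 with hs
  have hs0 : 0 < s := by
    rw [hs]
    linarith
  set L : ℝ := K * (m / s + s * m) with hL
  -- eventually `1/(n+1) < s`
  have hev : ∀ᶠ n : ℕ in atTop, 1 / ((n : ℝ) + 1) < s :=
    tendsto_one_div_add_atTop_nhds_zero_nat.eventually (gt_mem_nhds hs0)
  have hder : ∀ᶠ n : ℕ in atTop, ∀ z ∈ ball (0 : ℂ) r, ‖fderiv ℝ (mol n f) z‖ ≤ L := by
    filter_upwards [hev] with n hn z hz
    obtain ⟨c1, -, c3⟩ := h2 r' f h hf hh hw n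
    have hsub : ∀ y ∈ ball z s, y ∈ ball (0 : ℂ) (r' - 1 / ((n : ℝ) + 1)) := by
      intro y hy
      rw [mem_ball_zero_iff] at hz ⊢
      rw [mem_ball, dist_eq_norm] at hy
      calc ‖y‖ = ‖(y - z) + z‖ := by rw [sub_add_cancel]
        _ ≤ ‖y - z‖ + ‖z‖ := norm_add_le _ _
        _ < r' - 1 / ((n : ℝ) + 1) := by linarith
    refine hK ℝ z s m m (mol n f) hs0 ((c1.of_le (WithTop.coe_le_coe.2 (le_top : (2 : ℕ∞) ≤ ⊤))).contDiffOn) ?_ ?_
    · intro y _
      exact h3 n f y m hf (fun x _ => hfm x)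
    · intro y hy
      rw [c3 y (hsub y hy)]
      exact h3 n h y m hh (fun x _ => hhm x)
  have hlip : ∀ᶠ n : ℕ in atTop, ∀ z ∈ ball (0 : ℂ) r, ∀ w ∈ ball (0 : ℂ) r,
      |mol n f w - mol n f z| ≤ L * ‖w - z‖ := by
    filter_upwards [hder] with n hn z hz w hw'
    obtain ⟨c1, -, -⟩ := h2 r' f h hf hh hw n
    have := (convex_ball (0 : ℂ) r).norm_image_sub_le_of_norm_fderiv_le (𝕜 := ℝ) (f := mol n f) (C := L)
      (fun x _ => (c1.differentiable (by simp)) x) hn hz hw'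
    simpa [Real.norm_eq_abs] using this
  have hae := h4 f hf
  set Z : Set ℂ := {z | Tendsto (fun n => mol n f z) atTop (𝓝 (f z))} with hZ
  have hfl : LipschitzOnWith (Real.toNNReal L) f (Z ∩ ball 0 r) := by
    apply LipschitzOnWith.of_dist_le_mul
    intro w hw' z hz
    have hT : Tendsto (fun n => |mol n f w - mol n f z|) atTop (𝓝 |f w - f z|) := (hw'.1.sub hz.1).abs
    have h5 : |f w - f z| ≤ L * ‖w - z‖ := by
      apply le_of_tendsto hT
      filter_upwards [hlip] with n hn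
      exact hn z hz.2 w hw'.2
    rw [Real.dist_eq, dist_eq_norm]
    refine h5.trans ?_
    exact mul_le_mul_of_nonneg_right (Real.le_coe_toNNReal L) (norm_nonneg _)
  obtain ⟨g, hg1, hg2⟩ := hfl.extend_real
  refine ⟨g, hg1.continuous, ?_⟩
  filter_upwards [hae] with z hz hzr
  exact hg2 ⟨hz, hzr⟩

end Pool.Agent.Helper61.CLB
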