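import Pool.Agent.Helper61.CLB.Defs

/-!
# Block B, E15: one more derivative

PROOF.  If `r ≤ 0` the claim is void.  Let `r < r₁ < r₂ < r'`; `f₀, h₀` = the indicators of `ball 0 r₂` times `f, h`: integrable (bounded on the compact `closedBall 0 r₂`), `WLap r₂ f₀ h₀`.  Let `F n = mol n f₀`, smooth;
`lap (F n) = mol n h₀` on `ball 0 r₁` for `n ≥ n₀` (`StMol`).  By `StMolDer`: `F n → f` uniformly on `ball 0 r₁` (`k = 0`; `f` is continuous there) and `iteratedFDeriv ℝ j (mol n h₀)` converges uniformly on `ball 0 r₁` for `j ≤ k`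
(use it with `r₁ < r₂`).  For `n, p ≥ n₀` `StInt` for `v = F n - F p` with `m` = the maximum of `sup |F n - F p|` and `sup ‖iteratedFDeriv ℝ j (lap (F n - F p))‖`, `j ≤ k`, on `ball 0 r₁` (finite, tends to `0`) gives that
`iteratedFDeriv ℝ j (F n)` is uniformly Cauchy on `ball 0 r` for `j ≤ k + 1`.  `StLim` (for the sequence `n ↦ F (n + n₀)`, limit `f`) gives `ContDiffOn ℝ (k+1) f (ball 0 r)`.
-/

set_option autoImplicit false

namespace Pool.Agent.Helper61.CLB

open MeasureTheory Filter Topology Metric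
open scoped ContDiff Real ENNReal
open Pool.Agent.Helper53.CL

universe u

private lemma lap_sub' {f g : ℂ → ℝ} (hf : ContDiff ℝ ∞ f) (hg : ContDiff ℝ ∞ g) (z : ℂ) :
    lap (fun w => f w - g w) z = lap f z - lap g z := by
  have h1 : ∀ f : ℂ → ℝ, ContDiff ℝ ∞ f → ContDiff ℝ ∞ (dx f) ∧ ContDiff ℝ ∞ (dy f) := by
    intro f hf
    have h2 : ContDiff ℝ ∞ (fderiv ℝ f) := hf.fderiv_right (by simp)
    exact ⟨h2.clm_apply contDiff_const, h2.clm_apply contDiff_const⟩
  have hd : ∀ f : ℂ → ℝ, ContDiff ℝ ∞ f → ∀ z, DifferentiableAt ℝ f z := fun f hf z =>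
    hf.contDiffAt.differentiableAt (by simp)
  have h3 : ∀ f g : ℂ → ℝ, ContDiff ℝ ∞ f → ContDiff ℝ ∞ g →
      dx (fun w => f w - g w) = fun w => dx f w - dx g w := by
    intro f g hf hg
    funext w
    unfold dx
    rw [fderiv_fun_sub (hd f hf w) (hd g hg w)]
    rfl
  have h4 : ∀ f g : ℂ → ℝ, ContDiff ℝ ∞ f → ContDiff ℝ ∞ g →
      dy (fun w => f w - g w) = fun w => dy f w - dy g w := by
    intro f g hf hg
    funext w
    unfold dy
    rw [fderiv_fun_sub (hd f hf w) (hd g hg w)]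
    rfl
  unfold lap
  rw [h3 f g hf hg, h4 f g hf hg, h3 _ _ (h1 f hf).1 (h1 g hg).1, h4 _ _ (h1 f hf).2 (h1 g hg).2]
  ring

private lemma lap_zero_of {η : ℂ → ℝ} {z : ℂ} (h : z ∉ tsupport η) : lap η z = 0 := by
  have hev : ∀ᶠ w in 𝓝 z, w ∉ tsupport η := (isClosed_tsupport η).isOpen_compl.mem_nhds h
  have h0 : ∀ w, w ∉ tsupport η → fderiv ℝ η w = 0 := by
    intro w hw
    have hev' : η =ᶠ[𝓝 w] fun _ => 0 := by
      filter_upwards [(isClosed_tsupport η).isOpen_compl.mem_nhds hw] with y hy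
      exact image_eq_zero_of_notMem_tsupport hy
    rw [hev'.fderiv_eq]
    simp
  have h1 : dx η =ᶠ[𝓝 z] fun _ => 0 := by
    filter_upwards [hev] with w hw
    unfold dx
    rw [h0 w hw]
    rfl
  have h2 : dy η =ᶠ[𝓝 z] fun _ => 0 := by
    filter_upwards [hev] with w hw
    unfold dy
    rw [h0 w hw]
    rfl
  have e1 : dx (dx η) z = 0 := by
    rw [dx, h1.fderiv_eq]
    simp
  have e2 : dy (dy η) z = 0 := by
    rw [dy, h2.fderiv_eq]
    simp
  unfold lap
  rw [e1, e2, add_zero]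

private lemma ind_int {r r' : ℝ} (hr : r < r') {f : ℂ → ℝ} (hf : ContinuousOn f (ball 0 r')) :
    Integrable ((ball (0 : ℂ) r).indicator f) := by
  rw [integrable_indicator_iff measurableSet_ball]
  exact ((hf.mono (closedBall_subset_ball hr)).integrableOn_compact
    (isCompact_closedBall _ _)).mono_set ball_subset_closedBall

private lemma wlap_ind {r r' : ℝ} (hr : r < r') {f h : ℂ → ℝ} (hw : WLap r' f h) :
    WLap r ((ball (0 : ℂ) r).indicator f) ((ball (0 : ℂ) r).indicator h) := by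
  intro η h1 h2 h3
  have h4 := hw η h1 h2 (h3.trans (ball_subset_ball hr.le))
  have e1 : ∀ z, (ball (0 : ℂ) r).indicator f z * lap η z = f z * lap η z := by
    intro z
    by_cases hz : z ∈ ball (0 : ℂ) r
    · rw [Set.indicator_of_mem hz]
    · rw [lap_zero_of (fun h => hz (h3 h)), mul_zero, mul_zero]
  have e2 : ∀ z, (ball (0 : ℂ) r).indicator h z * η z = h z * η z := by
    intro z
    by_cases hz : z ∈ ball (0 : ℂ) r
    · rw [Set.indicator_of_mem hz]
    · rw [image_eq_zero_of_notMem_tsupport (fun h => hz (h3 h)), mul_zero, mul_zero]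
  simp_rw [e1, e2]
  exact h4

theorem stReg1 (h1 : StInt) (h2 : StLim) (h3 : StMol) (h4 : StMolDer) : StReg1 := by
  intro k r r' f h hr hf hh hw
  obtain ⟨r₁, hr1, hr1'⟩ := exists_between hr
  obtain ⟨r₂, hr2, hr2'⟩ := exists_between hr1'
  set f₀ := (ball (0 : ℂ) r₂).indicator f with hf0
  set h₀ := (ball (0 : ℂ) r₂).indicator h with hh0
  have if0 : Integrable f₀ := ind_int hr2' hf
  have ih0 : Integrable h₀ := ind_int hr2' hh.continuousOn
  have hw0 : WLap r₂ f₀ h₀ := wlap_ind hr2' hw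
  have hmol := h3 r₂ f₀ h₀ if0 ih0 hw0
  have hsub : ball (0 : ℂ) r₂ ⊆ ball 0 r' := ball_subset_ball hr2'.le
  have hf0c : ContDiffOn ℝ (0 : ℕ) f₀ (ball 0 r₂) := by
    rw [Nat.cast_zero, contDiffOn_zero]
    exact (hf.mono hsub).congr fun z hz => Set.indicator_of_mem hz f
  have hh0c : ContDiffOn ℝ k h₀ (ball 0 r₂) :=
    (hh.mono hsub).congr fun z hz => Set.indicator_of_mem hz h
  have hU0 := h4 0 r₁ r₂ f₀ hr2 if0 hf0c 0 le_rfl
  have hU := h4 k r₁ r₂ h₀ hr2 ih0 hh0c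
  obtain ⟨n₀, hn₀⟩ := exists_nat_one_div_lt (sub_pos.2 hr2)
  have hlap : ∀ n, n₀ ≤ n → ∀ z ∈ ball (0 : ℂ) r₁, lap (mol n f₀) z = mol n h₀ z := by
    intro n hn z hz
    refine (hmol n).2.2 z (ball_subset_ball ?_ hz)
    have : 1 / ((n : ℝ) + 1) ≤ 1 / ((n₀ : ℝ) + 1) := by
      apply one_div_le_one_div_of_le (by positivity)
      have : (n₀ : ℝ) ≤ n := by exact_mod_cast hn
      linarith
    linarith
  obtain ⟨K, hK⟩ := h1 k r r₁ hr1
  have hlim : ∀ z ∈ ball (0 : ℂ) r₁, Tendsto (fun n => mol n f₀ z) atTop (𝓝 (f₀ z)) := by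
    intro z hz
    have h5 := hU0.tendsto_at hz
    have h6 : ∀ g : ℂ → ℝ, iteratedFDeriv ℝ 0 g z (fun _ => 0) = g z := fun g =>
      iteratedFDeriv_zero_apply _
    have h7 := ((ContinuousMultilinearMap.apply ℝ (fun _ : Fin 0 => ℂ) ℝ
      (fun _ => 0)).continuous.tendsto _).comp h5
    refine (h7.congr ?_).trans_eq ?_
    · intro n
      show iteratedFDeriv ℝ 0 (mol n f₀) z (fun _ => 0) = mol n f₀ z
      exact h6 (mol n f₀)
    · have h8 : (ContinuousMultilinearMap.apply ℝ (fun _ : Fin 0 => ℂ) ℝ (fun _ => 0))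
          (iteratedFDeriv ℝ 0 f₀ z) = f₀ z := by
        show iteratedFDeriv ℝ 0 f₀ z (fun _ => 0) = f₀ z
        exact h6 f₀
      exact congrArg 𝓝 h8
  refine h2 (k + 1) ℝ (ball 0 r) (fun n => mol (n + n₀) f₀) f isOpen_ball
    (fun n => (hmol _).1.contDiffOn) ?_ ?_
  · intro z hz
    have hz1 : z ∈ ball (0 : ℂ) r₁ := ball_subset_ball hr1.le hz
    have h5 := (hlim z hz1).comp (tendsto_add_atTop_nat n₀)
    have h6 : f₀ z = f z := Set.indicator_of_mem (ball_subset_ball hr2.le hz1) f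
    rw [h6] at h5
    exact h5
  · intro j hj
    rw [Metric.uniformCauchySeqOn_iff]
    intro ε hε
    set m := ε / (|K| + 1) with hm
    have hm0 : 0 < m := by positivity
    have hC0 : ∃ N, ∀ n ≥ N, ∀ p ≥ N, ∀ z ∈ ball (0 : ℂ) r₁, |mol n f₀ z - mol p f₀ z| ≤ m := by
      obtain ⟨N, hN⟩ := Metric.uniformCauchySeqOn_iff.1 hU0.uniformCauchySeqOn m hm0
      refine ⟨N, fun n hn p hp z hz => ?_⟩
      have h5 := (hN n hn p hp z hz).le
      rw [dist_eq_norm] at h5
      have h6 := (ContinuousMultilinearMap.le_opNorm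
        (iteratedFDeriv ℝ 0 (mol n f₀) z - iteratedFDeriv ℝ 0 (mol p f₀) z) (fun _ => 0))
      rw [ContinuousMultilinearMap.sub_apply, iteratedFDeriv_zero_apply,
        iteratedFDeriv_zero_apply] at h6
      simp only [Finset.univ_eq_empty, Finset.prod_empty, mul_one] at h6
      exact h6.trans h5
    have hCj : ∀ i ≤ k, ∃ N, ∀ n ≥ N, ∀ p ≥ N, ∀ z ∈ ball (0 : ℂ) r₁,
        ‖iteratedFDeriv ℝ i (mol n h₀) z - iteratedFDeriv ℝ i (mol p h₀) z‖ ≤ m := by
      intro i hi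
      obtain ⟨N, hN⟩ := Metric.uniformCauchySeqOn_iff.1 (hU i hi).uniformCauchySeqOn m hm0
      refine ⟨N, fun n hn p hp z hz => ?_⟩
      have h5 := (hN n hn p hp z hz).le
      rwa [dist_eq_norm] at h5
    obtain ⟨N0, hN0⟩ := hC0
    have hCall : ∃ N, ∀ i ≤ k, ∀ n ≥ N, ∀ p ≥ N, ∀ z ∈ ball (0 : ℂ) r₁,
        ‖iteratedFDeriv ℝ i (mol n h₀) z - iteratedFDeriv ℝ i (mol p h₀) z‖ ≤ m := by
      choose! Nf hNf using hCj
      refine ⟨(Finset.range (k + 1)).sup Nf, fun i hi n hn p hp z hz => ?_⟩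
      have h5 : Nf i ≤ (Finset.range (k + 1)).sup Nf :=
        Finset.le_sup (Finset.mem_range.2 (by omega))
      exact hNf i hi n (h5.trans hn) p (h5.trans hp) z hz
    obtain ⟨N1, hN1⟩ := hCall
    refine ⟨max N0 N1, fun n hn p hp z hz => ?_⟩
    have hn0 : N0 ≤ n + n₀ := ((le_max_left _ _).trans hn).trans (Nat.le_add_right _ _)
    have hn1 : N1 ≤ n + n₀ := ((le_max_right _ _).trans hn).trans (Nat.le_add_right _ _)
    have hp0 : N0 ≤ p + n₀ := ((le_max_left _ _).trans hp).trans (Nat.le_add_right _ _)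
    have hp1 : N1 ≤ p + n₀ := ((le_max_right _ _).trans hp).trans (Nat.le_add_right _ _)
    have hFn := (hmol (n + n₀)).1
    have hFp := (hmol (p + n₀)).1
    have hHn := (hmol (n + n₀)).2.1
    have hHp := (hmol (p + n₀)).2.1
    have key := hK ℝ 0 m (fun w => mol (n + n₀) f₀ w - mol (p + n₀) f₀ w)
      (hFn.sub hFp).contDiffOn (fun w hw => hN0 _ hn0 _ hp0 w hw) ?_ j hj z hz
    · have e1 : iteratedFDeriv ℝ j (fun w => mol (n + n₀) f₀ w - mol (p + n₀) f₀ w) z =
          iteratedFDeriv ℝ j (mol (n + n₀) f₀) z - iteratedFDeriv ℝ j (mol (p + n₀) f₀) z :=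
        iteratedFDeriv_sub_apply (hFn.contDiffAt.of_le (by exact_mod_cast le_top))
          (hFp.contDiffAt.of_le (by exact_mod_cast le_top))
      rw [e1] at key
      rw [dist_eq_norm]
      refine lt_of_le_of_lt key ?_
      rw [hm, mul_div_assoc', div_lt_iff₀ (by positivity)]
      have := le_abs_self K
      nlinarith
    · intro i hi w hw
      have e1 : lap (fun w => mol (n + n₀) f₀ w - mol (p + n₀) f₀ w) =ᶠ[𝓝 w]
          fun w => mol (n + n₀) h₀ w - mol (p + n₀) h₀ w := by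
        filter_upwards [isOpen_ball.mem_nhds hw] with y hy
        rw [lap_sub' hFn hFp, hlap _ (Nat.le_add_left _ _) y hy, hlap _ (Nat.le_add_left _ _) y hy]
      have e2 : iteratedFDeriv ℝ i (lap (fun w => mol (n + n₀) f₀ w - mol (p + n₀) f₀ w)) w =
          iteratedFDeriv ℝ i (fun w => mol (n + n₀) h₀ w - mol (p + n₀) h₀ w) w :=
        (e1.iteratedFDeriv ℝ i).eq_of_nhds
      have e3 : iteratedFDeriv ℝ i (fun w => mol (n + n₀) h₀ w - mol (p + n₀) h₀ w) w =
          iteratedFDeriv ℝ i (mol (n + n₀) h₀) w - iteratedFDeriv ℝ i (mol (p + n₀) h₀) w :=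
        iteratedFDeriv_sub_apply (hHn.contDiffAt.of_le (by exact_mod_cast le_top))
          (hHp.contDiffAt.of_le (by exact_mod_cast le_top))
      rw [e2, e3]
      exact hN1 i hi _ hn1 _ hp1 w hw

end Pool.Agent.Helper61.CLB
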