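import Pool.Agent.Helper61.CLB.Defs
import Pool.Agent.Helper57.SOB.IBP

/-!
# Block B, E16: regularity for the semilinear equation

PROOF.  For `n ∈ ℕ` let `r_n = 3 - 1/(n+1)`, `r_n' = 3 - 1/(n+2)`; `f_n, h_n` the indicators of `ball 0 r_n'` times `f` and `h = -(a sin f)`: bounded (`a` is bounded on the compact `closedBall 0 r_n'`), measurable, integrable;
`WLap r_n' f_n h_n`.  `StReg0` gives a continuous `g_n` with `f = g_n` a.e. on `ball 0 r_n`.  On `ball 0 r_n` `g_n = g_(n+1)` (continuous and equal a.e.: `Continuous.ae_eq_iff_eq` on the open set, or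
`MeasureTheory.Measure.eqOn_open_of_ae_eq`).  Define `g z = g_n z` for `‖z‖ < r_n` (any such `n`): continuous on `ball 0 3`, `f = g` a.e. on `ball 0 3`, `|g| ≤ π` on `ball 0 3`.  Then `WLap 3 g (-(a sin g))` (integrals of a.e. equal
functions).  By induction on `k`: `g` is of class `C^k` on `ball 0 r` for all `r < 3`: `StReg1` with `r < r' < 3`, right hand side `-(a sin g)` of class `C^k`.  So `g` is smooth on `ball 0 3` (`contDiffOn_infty`-type
lemma; `ContDiffOn` is local).  Equation: for a test function `η` in `ball 0 3`, `∫ g lap η = ∫ lap g η` (integrate by parts twice: `integral_fderiv_zero`-type lemma in `Pool/Agent/Helper61/KS/IBP.lean`, or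
`integral_mul_fderiv_eq_neg_fderiv_mul_of_integrable`), so `∫ (lap g + a sin g) η = 0` for all `η`; `IsOpen.ae_eq_zero_of_integral_contDiff_smul_eq_zero` and continuity give `lap g = -(a sin g)` on `ball 0 3`.
-/

set_option autoImplicit false

namespace Pool.Agent.Helper61.CLB

open MeasureTheory Filter Topology Metric
open scoped ContDiff Real ENNReal
open Pool.Agent.Helper53.CL

universe u

/-! ### Test functions -/

private theorem eq_zero_off {η : ℂ → ℝ} {z : ℂ} (hz : z ∉ tsupport η) : η z = 0 :=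
  image_eq_zero_of_notMem_tsupport hz

private theorem tsupport_fd {η : ℂ → ℝ} (e : ℂ) : tsupport (fun z => fderiv ℝ η z e) ⊆ tsupport η :=
  tsupport_fderiv_apply_subset ℝ e

private theorem tsupport_dxx {η : ℂ → ℝ} : tsupport (dx (dx η)) ⊆ tsupport η :=
  (tsupport_fd (η := dx η) 1).trans (tsupport_fd (η := η) 1)

private theorem tsupport_dyy {η : ℂ → ℝ} : tsupport (dy (dy η)) ⊆ tsupport η :=
  (tsupport_fd (η := dy η) Complex.I).trans (tsupport_fd (η := η) Complex.I)

private theorem lap_zero_off {η : ℂ → ℝ} {z : ℂ} (hz : z ∉ tsupport η) : lap η z = 0 := by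
  have h1 : dx (dx η) z = 0 := eq_zero_off fun h => hz (tsupport_dxx h)
  have h2 : dy (dy η) z = 0 := eq_zero_off fun h => hz (tsupport_dyy h)
  rw [lap, h1, h2, add_zero]

private theorem contDiff_fd {η : ℂ → ℝ} (h : ContDiff ℝ ∞ η) (e : ℂ) :
    ContDiff ℝ ∞ (fun z => fderiv ℝ η z e) :=
  (h.fderiv_right (m := ∞) (by simp)).clm_apply contDiff_const

private theorem contDiffOn_fd {D : Set ℂ} (hD : IsOpen D) {g : ℂ → ℝ} (h : ContDiffOn ℝ ∞ g D) (e : ℂ) :
    ContDiffOn ℝ ∞ (fun z => fderiv ℝ g z e) D :=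
  (h.fderiv_of_isOpen hD (m := ∞) (by simp)).clm_apply contDiffOn_const

private theorem integrable_mul_test {D : Set ℂ} (hD : IsOpen D) {g : ℂ → ℝ} (hg : ContinuousOn g D)
    {ψ : ℂ → ℝ} (hψ : Continuous ψ) (hc : HasCompactSupport ψ) (hs : tsupport ψ ⊆ D) :
    Integrable (fun z => g z * ψ z) := by
  have h1 : tsupport (fun z => g z * ψ z) ⊆ D := (tsupport_mul_subset_right).trans hs
  have h2 : Continuous (fun z => g z * ψ z) :=
    (hg.mul hψ.continuousOn).continuous_of_tsupport_subset hD h1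
  exact h2.integrable_of_hasCompactSupport hc.mul_left

/-- Two integrations by parts. -/
private theorem green {D : Set ℂ} (hD : IsOpen D) {g : ℂ → ℝ} (hg : ContDiffOn ℝ ∞ g D) {η : ℂ → ℝ}
    (h1 : ContDiff ℝ ∞ η) (h2 : HasCompactSupport η) (h3 : tsupport η ⊆ D) :
    ∫ z, g z * lap η z = ∫ z, lap g z * η z := by
  have hg1 : ContDiffOn ℝ 1 g D := hg.of_le (by exact_mod_cast le_top)
  have hdx : ContDiffOn ℝ ∞ (dx g) D := contDiffOn_fd hD hg 1
  have hdy : ContDiffOn ℝ ∞ (dy g) D := contDiffOn_fd hD hg Complex.I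
  have hdx1 : ContDiffOn ℝ 1 (dx g) D := hdx.of_le (by exact_mod_cast le_top)
  have hdy1 : ContDiffOn ℝ 1 (dy g) D := hdy.of_le (by exact_mod_cast le_top)
  have hdxx : ContinuousOn (dx (dx g)) D := (contDiffOn_fd hD hdx 1).continuousOn
  have hdyy : ContinuousOn (dy (dy g)) D := (contDiffOn_fd hD hdy Complex.I).continuousOn
  have ex : ContDiff ℝ ∞ (dx η) := contDiff_fd h1 1
  have ey : ContDiff ℝ ∞ (dy η) := contDiff_fd h1 Complex.I
  have exx : Continuous (dx (dx η)) := (contDiff_fd ex 1).continuous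
  have eyy : Continuous (dy (dy η)) := (contDiff_fd ey Complex.I).continuous
  have cx : HasCompactSupport (dx η) := h2.fderiv_apply ℝ 1
  have cy : HasCompactSupport (dy η) := h2.fderiv_apply ℝ Complex.I
  have cxx : HasCompactSupport (dx (dx η)) := cx.fderiv_apply ℝ 1
  have cyy : HasCompactSupport (dy (dy η)) := cy.fderiv_apply ℝ Complex.I
  have sx : tsupport (dx η) ⊆ D := (tsupport_fd (η := η) 1).trans h3
  have sy : tsupport (dy η) ⊆ D := (tsupport_fd (η := η) Complex.I).trans h3
  have a1 := (SOB.ibp hD hg1 ex cx sx).1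
  have a2 := (SOB.ibp hD hdx1 h1 h2 h3).1
  have b1 := (SOB.ibp hD hg1 ey cy sy).2
  have b2 := (SOB.ibp hD hdy1 h1 h2 h3).2
  have e1 : ∫ z, g z * lap η z = (∫ z, g z * dx (dx η) z) + ∫ z, g z * dy (dy η) z := by
    rw [← integral_add (integrable_mul_test hD hg.continuousOn exx cxx (tsupport_dxx.trans h3))
      (integrable_mul_test hD hg.continuousOn eyy cyy (tsupport_dyy.trans h3))]
    congr 1
    funext z
    simp only [lap]
    ring
  have e2 : ∫ z, lap g z * η z = (∫ z, dx (dx g) z * η z) + ∫ z, dy (dy g) z * η z := by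
    rw [← integral_add (integrable_mul_test hD hdxx h1.continuous h2 h3)
      (integrable_mul_test hD hdyy h1.continuous h2 h3)]
    congr 1
    funext z
    simp only [lap]
    ring
  rw [e1, e2, a1, a2, b1, b2, neg_neg, neg_neg]

/-- The weak equation only depends on the functions almost everywhere in the ball. -/
private theorem wlap_congr {r : ℝ} {f h f' h' : ℂ → ℝ} (hf : ∀ᵐ z, z ∈ ball (0 : ℂ) r → f z = f' z)
    (hh : ∀ᵐ z, z ∈ ball (0 : ℂ) r → h z = h' z) (hw : WLap r f h) : WLap r f' h' := by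
  intro η h1 h2 h3
  have e1 : ∫ z, f z * lap η z = ∫ z, f' z * lap η z := by
    refine integral_congr_ae ?_
    filter_upwards [hf] with z hz
    by_cases hb : z ∈ ball (0 : ℂ) r
    · rw [hz hb]
    · rw [lap_zero_off fun h => hb (h3 h), mul_zero, mul_zero]
  have e2 : ∫ z, h z * η z = ∫ z, h' z * η z := by
    refine integral_congr_ae ?_
    filter_upwards [hh] with z hz
    by_cases hb : z ∈ ball (0 : ℂ) r
    · rw [hz hb]
    · rw [eq_zero_off fun h => hb (h3 h), mul_zero, mul_zero]
  rw [← e1, ← e2]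
  exact hw η h1 h2 h3

private theorem WLap.mono' {r r' : ℝ} {f h : ℂ → ℝ} (hw : WLap r' f h) (hr : r ≤ r') : WLap r f h :=
  fun η h1 h2 h3 => hw η h1 h2 (h3.trans (ball_subset_ball hr))

/-- Step A: the continuous version on a smaller disc. -/
private theorem step_a (h1 : StReg0) {a f : ℂ → ℝ} (ha : ContDiffOn ℝ ∞ a (ball 0 3))
    (hf : AEStronglyMeasurable f (volume.restrict (ball 0 3))) (hb : ∀ z, |f z| ≤ π)
    (hw : WLap 3 f (fun z => -(a z * Real.sin (f z)))) {r : ℝ} (hr : r < 3) :
    ∃ g : ℂ → ℝ, Continuous g ∧ ∀ᵐ z, z ∈ ball (0 : ℂ) r → f z = g z := by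
  set r' : ℝ := (r + 3) / 2 with hr'
  have hr1 : r < r' := by rw [hr']; linarith
  have hr2 : r' < 3 := by rw [hr']; linarith
  have hsub : ball (0 : ℂ) r' ⊆ ball 0 3 := ball_subset_ball hr2.le
  have hsub' : closedBall (0 : ℂ) r' ⊆ ball 0 3 := closedBall_subset_ball hr2
  obtain ⟨A, hA⟩ := (isCompact_closedBall (0 : ℂ) r').exists_bound_of_continuousOn
    (ha.continuousOn.mono hsub')
  set h : ℂ → ℝ := fun z => -(a z * Real.sin (f z)) with hh
  have hhb : ∀ z ∈ ball (0 : ℂ) r', |h z| ≤ max π A := by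
    intro z hz
    have h3 := hA z (ball_subset_closedBall hz)
    rw [hh]
    simp only [abs_neg, abs_mul]
    have h4 := Real.abs_sin_le_one (f z)
    have h5 : |a z| ≤ A := by simpa [Real.norm_eq_abs] using h3
    calc |a z| * |Real.sin (f z)| ≤ |a z| * 1 := by gcongr
      _ = |a z| := mul_one _
      _ ≤ A := h5
      _ ≤ max π A := le_max_right _ _
  have hfm : AEStronglyMeasurable f (volume.restrict (ball 0 r')) := hf.mono_set hsub
  have ham : AEStronglyMeasurable a (volume.restrict (ball 0 r')) :=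
    (ha.continuousOn.mono hsub).aestronglyMeasurable measurableSet_ball
  have hhm : AEStronglyMeasurable h (volume.restrict (ball 0 r')) :=
    (ham.mul (Real.continuous_sin.comp_aestronglyMeasurable hfm)).neg
  have hfin : IsFiniteMeasure (volume.restrict (ball (0 : ℂ) r')) :=
    ⟨by rw [Measure.restrict_apply_univ]; exact measure_ball_lt_top⟩
  have hfi : IntegrableOn f (ball 0 r') :=
    Integrable.of_bound hfm π (Eventually.of_forall fun z => hb z)
  have hhi : IntegrableOn h (ball 0 r') := by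
    refine Integrable.of_bound hhm (max π A) ?_
    filter_upwards [ae_restrict_mem measurableSet_ball] with z hz
    exact hhb z hz
  have hpos : 0 ≤ max π A := le_max_of_le_left Real.pi_pos.le
  obtain ⟨g, g1, g2⟩ := h1 r r' (max π A) ((ball (0 : ℂ) r').indicator f) ((ball (0 : ℂ) r').indicator h)
    hr1 ((integrable_indicator_iff measurableSet_ball).2 hfi)
    ((integrable_indicator_iff measurableSet_ball).2 hhi)
    (fun z => by
      by_cases hz : z ∈ ball (0 : ℂ) r'
      · rw [Set.indicator_of_mem hz]; exact (hb z).trans (le_max_left _ _)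
      · rw [Set.indicator_of_notMem hz, abs_zero]; exact hpos)
    (fun z => by
      by_cases hz : z ∈ ball (0 : ℂ) r'
      · rw [Set.indicator_of_mem hz]; exact hhb z hz
      · rw [Set.indicator_of_notMem hz, abs_zero]; exact hpos)
    (wlap_congr (Eventually.of_forall fun z hz => (Set.indicator_of_mem hz _).symm)
      (Eventually.of_forall fun z hz => (Set.indicator_of_mem hz _).symm) (WLap.mono' hw hr2.le))
  refine ⟨g, g1, ?_⟩
  filter_upwards [g2] with z hz hzr
  rw [← hz hzr, Set.indicator_of_mem (ball_subset_ball hr1.le hzr)]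

/-- Step B: the continuous version on the disc of radius `3`. -/
private theorem step_b {f : ℂ → ℝ} (hb : ∀ z, |f z| ≤ π)
    (H : ∀ r : ℝ, r < 3 → ∃ g : ℂ → ℝ, Continuous g ∧ ∀ᵐ z, z ∈ ball (0 : ℂ) r → f z = g z) :
    ∃ g : ℂ → ℝ, ContinuousOn g (ball 0 3) ∧ (∀ᵐ z, z ∈ ball (0 : ℂ) 3 → f z = g z) ∧
      ∀ z ∈ ball (0 : ℂ) 3, |g z| ≤ π := by
  have hR : ∀ n : ℕ, (3 : ℝ) - 1 / (n + 1) < 3 := fun n => by
    have : (0 : ℝ) < 1 / (n + 1) := Nat.one_div_pos_of_nat
    linarith
  choose G G1 G2 using fun n : ℕ => H (3 - 1 / (n + 1)) (hR n)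
  have hmono : ∀ m n : ℕ, m ≤ n → ball (0 : ℂ) (3 - 1 / (m + 1)) ⊆ ball 0 (3 - 1 / (n + 1)) := by
    intro m n hmn
    refine ball_subset_ball ?_
    have : (1 : ℝ) / (n + 1) ≤ 1 / (m + 1) := Nat.one_div_le_one_div hmn
    linarith
  have hG : ∀ m n : ℕ, m ≤ n → ∀ z ∈ ball (0 : ℂ) (3 - 1 / (m + 1)), G m z = G n z := by
    intro m n hmn
    refine Measure.eqOn_open_of_ae_eq (μ := volume) ?_ isOpen_ball (G1 m).continuousOn
      (G1 n).continuousOn
    refine (ae_restrict_iff' measurableSet_ball).2 ?_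
    filter_upwards [G2 m, G2 n] with z h3 h4 hz
    rw [← h3 hz, ← h4 (hmono m n hmn hz)]
  have hex : ∀ z ∈ ball (0 : ℂ) 3, ∃ n : ℕ, z ∈ ball (0 : ℂ) (3 - 1 / (n + 1)) := by
    intro z hz
    rw [mem_ball_zero_iff] at hz
    obtain ⟨n, hn⟩ := exists_nat_one_div_lt (sub_pos.2 hz)
    refine ⟨n, ?_⟩
    rw [mem_ball_zero_iff]
    linarith
  classical
  let g : ℂ → ℝ := fun z => if h : z ∈ ball (0 : ℂ) 3 then G (hex z h).choose z else 0
  have hsub : ∀ n : ℕ, ball (0 : ℂ) (3 - 1 / (n + 1)) ⊆ ball 0 3 := fun n =>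
    ball_subset_ball (hR n).le
  have hg : ∀ n : ℕ, ∀ z ∈ ball (0 : ℂ) (3 - 1 / (n + 1)), g z = G n z := by
    intro n z hz
    have h3 : z ∈ ball (0 : ℂ) 3 := hsub n hz
    have h4 := (hex z h3).choose_spec
    simp only [g, dif_pos h3]
    rcases le_total n (hex z h3).choose with h5 | h5
    · exact (hG _ _ h5 z hz).symm
    · exact hG _ _ h5 z h4
  have hgc : ContinuousOn g (ball 0 3) := by
    intro z hz
    obtain ⟨n, hn⟩ := hex z hz
    refine ContinuousAt.continuousWithinAt ?_
    refine (G1 n).continuousAt.congr ?_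
    filter_upwards [isOpen_ball.mem_nhds hn] with y hy
    exact (hg n y hy).symm
  have hga : ∀ᵐ z, z ∈ ball (0 : ℂ) 3 → f z = g z := by
    filter_upwards [ae_all_iff.2 G2] with z h3 hz
    obtain ⟨n, hn⟩ := hex z hz
    rw [h3 n hn, hg n z hn]
  refine ⟨g, hgc, hga, ?_⟩
  have h5 : Set.EqOn g (fun z => max (min (g z) π) (-π)) (ball 0 3) := by
    refine Measure.eqOn_open_of_ae_eq (μ := volume) ?_ isOpen_ball hgc
      ((hgc.inf continuousOn_const).sup continuousOn_const)
    refine (ae_restrict_iff' measurableSet_ball).2 ?_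
    filter_upwards [hga] with z h3 hz
    have h6 := abs_le.1 (hb z)
    rw [h3 hz] at h6
    rw [min_eq_left h6.2, max_eq_left h6.1]
  intro z hz
  have h6 := h5 hz
  simp only at h6
  rw [abs_le]
  constructor
  · rw [h6]; exact le_max_right _ _
  · rw [h6]
    refine max_le (min_le_right _ _) ?_
    linarith [Real.pi_pos]

theorem stRegLoc (h1 : StReg0) (h2 : StReg1) : StRegLoc := by
  intro a f ha hf hb hw
  obtain ⟨g, gc, gae, gb⟩ := step_b hb (fun r hr => step_a h1 ha hf hb hw hr)
  have hw' : WLap 3 g (fun z => -(a z * Real.sin (g z))) := by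
    refine wlap_congr gae ?_ hw
    filter_upwards [gae] with z hz hzb
    rw [hz hzb]
  have hk : ∀ k : ℕ, ContDiffOn ℝ k g (ball 0 3) := by
    intro k
    induction k with
    | zero => exact_mod_cast contDiffOn_zero.2 gc
    | succ k ih =>
      intro z hz
      rw [mem_ball_zero_iff] at hz
      set r : ℝ := (‖z‖ + 3) / 2 with hr
      set r' : ℝ := (r + 3) / 2 with hr'
      have c1 : ‖z‖ < r := by rw [hr]; linarith
      have c2 : r < r' := by rw [hr']; linarith [hr]
      have c3 : r' < 3 := by rw [hr']; linarith [hr]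
      have hs : ball (0 : ℂ) r' ⊆ ball 0 3 := ball_subset_ball c3.le
      have hh : ContDiffOn ℝ k (fun z => -(a z * Real.sin (g z))) (ball 0 r') := by
        have e1 : ContDiffOn ℝ k a (ball 0 r') :=
          (ha.of_le (by exact_mod_cast le_top)).mono hs
        exact (e1.mul (Real.contDiff_sin.comp_contDiffOn (ih.mono hs))).neg
      have h3 := h2 k r r' g (fun z => -(a z * Real.sin (g z))) c2 (gc.mono hs) hh
        (WLap.mono' hw' c3.le)
      have h4 : ContDiffAt ℝ (k + 1) g z :=
        h3.contDiffAt (isOpen_ball.mem_nhds (by rw [mem_ball_zero_iff]; exact c1))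
      exact_mod_cast h4.contDiffWithinAt
  have hinf : ContDiffOn ℝ ∞ g (ball 0 3) := contDiffOn_infty.2 hk
  refine ⟨g, hinf, gae, gb, ?_⟩
  have hlap : ContinuousOn (lap g) (ball 0 3) :=
    (contDiffOn_fd isOpen_ball (contDiffOn_fd isOpen_ball hinf 1) 1).continuousOn.add
      (contDiffOn_fd isOpen_ball (contDiffOn_fd isOpen_ball hinf Complex.I) Complex.I).continuousOn
  have hrhs : ContinuousOn (fun z => a z * Real.sin (g z)) (ball 0 3) :=
    ha.continuousOn.mul (Real.continuous_sin.comp_continuousOn gc)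
  have hsum : ContinuousOn (fun z => lap g z + a z * Real.sin (g z)) (ball 0 3) := hlap.add hrhs
  have hae := (isOpen_ball (x := (0 : ℂ)) (ε := 3)).ae_eq_zero_of_integral_contDiff_smul_eq_zero
    (f := fun z => lap g z + a z * Real.sin (g z)) (μ := volume)
    (hsum.locallyIntegrableOn measurableSet_ball)
    (fun η e1 e2 e3 => by
      have e4 := hw' η e1 e2 e3
      rw [green isOpen_ball hinf e1 e2 e3] at e4
      have e5 : ∫ z, η z • (lap g z + a z * Real.sin (g z))
          = (∫ z, lap g z * η z) + ∫ z, a z * Real.sin (g z) * η z := by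
        rw [← integral_add (integrable_mul_test isOpen_ball hlap e1.continuous e2 e3)
          (integrable_mul_test isOpen_ball hrhs e1.continuous e2 e3)]
        congr 1
        funext z
        rw [smul_eq_mul]
        ring
      rw [e5, e4, ← integral_add]
      · simp
      · exact (integrable_mul_test isOpen_ball hrhs.neg e1.continuous e2 e3)
      · exact (integrable_mul_test isOpen_ball hrhs e1.continuous e2 e3))
  have heq : Set.EqOn (lap g) (fun z => -(a z * Real.sin (g z))) (ball 0 3) := by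
    refine Measure.eqOn_open_of_ae_eq (μ := volume) ?_ isOpen_ball hlap hrhs.neg
    refine (ae_restrict_iff' measurableSet_ball).2 ?_
    filter_upwards [hae] with z h3 hz
    have h4 := h3 hz
    linarith
  exact fun z hz => heq hz

end Pool.Agent.Helper61.CLB
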