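import Pool.Agent.Helper61.CLB.E01
import Pool.Agent.Helper61.CLB.E02
import Pool.Agent.Helper61.CLB.E03
import Pool.Agent.Helper61.CLB.E04
import Pool.Agent.Helper61.CLB.E05
import Pool.Agent.Helper61.CLB.E06
import Pool.Agent.Helper61.CLB.E07
import Pool.Agent.Helper61.CLB.E08
import Pool.Agent.Helper61.CLB.E09
import Pool.Agent.Helper61.CLB.E10
import Pool.Agent.Helper61.CLB.E11
import Pool.Agent.Helper61.CLB.E12
import Pool.Agent.Helper61.CLB.E12b
import Pool.Agent.Helper61.CLB.E13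
import Pool.Agent.Helper61.CLB.E14
import Pool.Agent.Helper61.CLB.E15
import Pool.Agent.Helper61.CLB.E16

/-!
# Block B, local part: assembly
-/

set_option autoImplicit false

namespace Pool.Agent.Helper61.CLB

open MeasureTheory Filter Topology Metric
open scoped ContDiff Real ENNReal
open Pool.Agent.Helper53.CL

theorem g_holds : StG := stG (stG0 stMax)

theorem int_holds : StInt := stInt g_holds stComm

theorem ball_holds : StBall := stBall int_holds stSin

/-- Block B: `Iface.Bnd1`. -/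
theorem bnd1_holds : Iface.Bnd1 := bnd1 ball_holds

/-- Block B: `Iface.Bnd2`. -/
theorem bnd2_holds : Iface.Bnd2 := bnd2 (stBnd2 ball_holds (stLin int_holds stSinLin) (stLoc g_holds))

/-- Regularity of bounded weak solutions of `Δ f = -a sin f` in the disc of radius `3`. -/
theorem regLoc_holds : StRegLoc :=
  stRegLoc (stReg0 g_holds stMol stMolBd stMolAe) (stReg1 int_holds stLim stMol stMolDer)

/-- The same with a parameter `ε`. -/
theorem locReg_holds (ε : ℝ) (hε : 0 < ε) (a v : ℂ → ℝ) (ha : ContDiffOn ℝ ∞ a (ball 0 3))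
    (hv : AEStronglyMeasurable v (volume.restrict (ball 0 3))) (hb : ∀ z, |v z| ≤ π)
    (hw : ∀ η : ℂ → ℝ, ContDiff ℝ ∞ η → HasCompactSupport η → tsupport η ⊆ ball 0 3 →
      ε ^ 2 * ∫ z, v z * lap η z = -∫ z, a z * Real.sin (v z) * η z) :
    ∃ g : ℂ → ℝ, ContDiffOn ℝ ∞ g (ball 0 3) ∧ (∀ᵐ z, z ∈ ball (0 : ℂ) 3 → v z = g z) ∧
      (∀ z ∈ ball (0 : ℂ) 3, |g z| ≤ π) ∧
      ∀ z ∈ ball (0 : ℂ) 3, ε ^ 2 * lap g z = -(a z * Real.sin (g z)) := by
  have h2 : ε ^ 2 ≠ 0 := by positivity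
  obtain ⟨g, h1, h3, h4, h5⟩ := regLoc_holds (fun z => a z / ε ^ 2) v (ha.div_const _) hv hb (by
    intro η h1 h3 h4
    have h5 := hw η h1 h3 h4
    have h6 : ∀ z, -(a z / ε ^ 2 * Real.sin (v z)) * η z = -(1 / ε ^ 2) * (a z * Real.sin (v z) * η z) := by
      intro z; ring
    simp only [h6]
    rw [integral_const_mul]
    field_simp
    linarith)
  refine ⟨g, h1, h3, h4, fun z hz => ?_⟩
  rw [h5 z hz]
  field_simp

end Pool.Agent.Helper61.CLB
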