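import Pool.Agent.Helper53.CL.Defs

/-!
# Project CL (MP_6f990d_gt), block B: statements

Interior estimates for the Laplacian in the plane, regularity of weak solutions in the plane.
-/

set_option autoImplicit false

namespace Pool.Agent.Helper61.CLB

open MeasureTheory Filter Topology Metric
open scoped ContDiff Real ENNReal
open Pool.Agent.Helper53.CL

universe u

/-! ### B4: local elliptic estimates -/

/-- The maximum principle. -/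
def StMax : Prop := ∀ (K O : Set ℂ) (f : ℂ → ℝ), IsCompact K → IsOpen O → K ⊆ O → ContDiffOn ℝ 2 f O →
  (∀ z ∈ interior K, lap f z ≤ 0) → (∀ z ∈ frontier K, 0 ≤ f z) → ∀ z ∈ K, 0 ≤ f z

/-- The gradient estimate at the origin. -/
def StG0 : Prop := ∀ (d M N : ℝ) (v : ℂ → ℝ) (O : Set ℂ), 0 < d → IsOpen O →
  {z : ℂ | |z.re| ≤ d ∧ |z.im| ≤ d} ⊆ O → ContDiffOn ℝ 2 v O →
  (∀ z : ℂ, |z.re| ≤ d → |z.im| ≤ d → |v z| ≤ M) → (∀ z : ℂ, |z.re| ≤ d → |z.im| ≤ d → |lap v z| ≤ N) →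
  |dx v 0| ≤ 2 * M / d + N * d / 2

/-- The gradient estimate for functions with values in a normed space. -/
def StG : Prop := ∃ K : ℝ, ∀ (E : Type) [NormedAddCommGroup E] [NormedSpace ℝ E] (z₀ : ℂ) (R M N : ℝ)
  (v : ℂ → E), 0 < R → ContDiffOn ℝ 2 v (ball z₀ R) → (∀ z ∈ ball z₀ R, ‖v z‖ ≤ M) →
  (∀ z ∈ ball z₀ R, ‖lap v z‖ ≤ N) → ‖fderiv ℝ v z₀‖ ≤ K * (M / R + R * N)

/-- The Laplacian commutes with the derivative. -/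
def StComm : Prop := ∀ (E : Type) [NormedAddCommGroup E] [NormedSpace ℝ E] (D : Set ℂ) (v : ℂ → E),
  IsOpen D → ContDiffOn ℝ ∞ v D → ContDiffOn ℝ ∞ (lap v) D ∧ ContDiffOn ℝ ∞ (fderiv ℝ v) D ∧
  ∀ z ∈ D, lap (fderiv ℝ v) z = fderiv ℝ (lap v) z

/-- Interior estimates of all orders for the Laplacian. -/
def StInt : Prop := ∀ (k : ℕ) (r r' : ℝ), r < r' → ∃ K : ℝ, ∀ (E : Type) [NormedAddCommGroup E]
  [NormedSpace ℝ E] (z₀ : ℂ) (m : ℝ) (v : ℂ → E), ContDiffOn ℝ ∞ v (ball z₀ r') →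
  (∀ z ∈ ball z₀ r', ‖v z‖ ≤ m) →
  (∀ j ≤ k, ∀ z ∈ ball z₀ r', ‖iteratedFDeriv ℝ j (lap v) z‖ ≤ m) →
  ∀ j ≤ k + 1, ∀ z ∈ ball z₀ r, ‖iteratedFDeriv ℝ j v z‖ ≤ K * m

/-- Derivatives of `a sin u` in terms of the derivatives of `a` and `u`. -/
def StSin : Prop := ∀ (k : ℕ) (M K : ℝ), ∃ K' : ℝ, ∀ (D : Set ℂ) (a u : ℂ → ℝ), IsOpen D →
  ContDiffOn ℝ ∞ a D → ContDiffOn ℝ ∞ u D → (∀ j ≤ k, ∀ z ∈ D, ‖iteratedFDeriv ℝ j a z‖ ≤ M) →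
  (∀ j ≤ k, ∀ z ∈ D, 1 ≤ j → ‖iteratedFDeriv ℝ j u z‖ ≤ K) →
  ∀ j ≤ k, ∀ z ∈ D, ‖iteratedFDeriv ℝ j (fun z => a z * Real.sin (u z)) z‖ ≤ K'

/-- Linear version: the derivatives of `a sin u` are small if `u` and its derivatives are small. -/
def StSinLin : Prop := ∀ (k : ℕ) (M : ℝ), ∃ K' : ℝ, ∀ (m : ℝ) (D : Set ℂ) (a u : ℂ → ℝ), IsOpen D →
  m ≤ 1 → ContDiffOn ℝ ∞ a D → ContDiffOn ℝ ∞ u D →
  (∀ j ≤ k, ∀ z ∈ D, ‖iteratedFDeriv ℝ j a z‖ ≤ M) →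
  (∀ j ≤ k, ∀ z ∈ D, ‖iteratedFDeriv ℝ j u z‖ ≤ m) →
  ∀ j ≤ k, ∀ z ∈ D, ‖iteratedFDeriv ℝ j (fun z => a z * Real.sin (u z)) z‖ ≤ K' * m

/-- Bounds of the derivatives on smaller discs. -/
def StBall : Prop := ∀ (M : ℕ → ℝ) (k : ℕ) (r : ℝ), r < 2 → ∃ K : ℝ, ∀ a u : ℂ → ℝ,
  ContDiffOn ℝ ∞ a (ball 0 2) → (∀ m, ∀ z ∈ ball (0 : ℂ) 2, ‖iteratedFDeriv ℝ m a z‖ ≤ M m) →
  LSol (ball 0 2) 1 a u → ∀ j ≤ k, ∀ z ∈ ball (0 : ℂ) r, ‖iteratedFDeriv ℝ j u z‖ ≤ K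

/-- Linear bounds: `lap v = a sin v` with `v` small on the unit disc. -/
def StLin : Prop := ∀ (M : ℕ → ℝ) (k : ℕ), ∃ K δ : ℝ, 0 < δ ∧ ∀ (m : ℝ) (a v : ℂ → ℝ), m ≤ δ →
  ContDiffOn ℝ ∞ a (ball 0 1) → (∀ j, ∀ z ∈ ball (0 : ℂ) 1, ‖iteratedFDeriv ℝ j a z‖ ≤ M j) →
  ContDiffOn ℝ ∞ v (ball 0 1) → (∀ z ∈ ball (0 : ℂ) 1, lap v z = a z * Real.sin (v z)) →
  (∀ z ∈ ball (0 : ℂ) 1, |v z| ≤ m) → ‖iteratedFDeriv ℝ k v 0‖ ≤ K * m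

/-- Local boundedness: the sup norm is controlled by the `L^2` norm. -/
def StLoc : Prop := ∀ M : ℝ, ∃ K : ℝ, ∀ v : ℂ → ℝ, ContDiffOn ℝ 2 v (ball 0 2) →
  (∀ z ∈ ball (0 : ℂ) 1, |lap v z| ≤ M * |v z|) →
  ∀ z ∈ ball (0 : ℂ) (1 / 2), v z ^ 2 ≤ K * ∫ y in ball (0 : ℂ) 1, v y ^ 2

/-- The derivatives of positive order are bounded by the square root of the energy. -/
def StBnd2 : Prop := ∀ (M : ℕ → ℝ) (k : ℕ), 1 ≤ k → ∃ K : ℝ, 0 ≤ K ∧ ∀ a u : ℂ → ℝ,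
  ContDiffOn ℝ ∞ a (ball 0 2) → (∀ m, ∀ z ∈ ball (0 : ℂ) 2, ‖iteratedFDeriv ℝ m a z‖ ≤ M m) →
  LSol (ball 0 2) 1 a u →
  ‖iteratedFDeriv ℝ k u 0‖ ^ 2 ≤ K * ∫ z in ball (0 : ℂ) 1, (‖gr u z‖ ^ 2 + (1 - Real.cos (u z)))

/-- A uniform limit of smooth functions with uniformly Cauchy derivatives up to the order `k`. -/
def StLim : Prop := ∀ (k : ℕ) (E : Type) [NormedAddCommGroup E] [NormedSpace ℝ E] [CompleteSpace E]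
  (D : Set ℂ) (f : ℕ → ℂ → E) (g : ℂ → E), IsOpen D → (∀ n, ContDiffOn ℝ ∞ (f n) D) →
  (∀ z ∈ D, Tendsto (fun n => f n z) atTop (𝓝 (g z))) →
  (∀ j ≤ k, UniformCauchySeqOn (fun n => iteratedFDeriv ℝ j (f n)) atTop D) → ContDiffOn ℝ k g D

/-! ### B5: regularity of weak solutions of `Δ f = h` in the plane -/

/-- Weak solutions of `Δ f = h` in the disc of radius `r`. -/
def WLap (r : ℝ) (f h : ℂ → ℝ) : Prop := ∀ η : ℂ → ℝ, ContDiff ℝ ∞ η → HasCompactSupport η →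
  tsupport η ⊆ ball 0 r → ∫ z, f z * lap η z = ∫ z, h z * η z

/-- The mollifier of radius `δ`. -/
noncomputable def bmp (δ : ℝ) (hδ : 0 < δ) : ContDiffBump (0 : ℂ) where
  rIn := δ / 2
  rOut := δ
  rIn_pos := by positivity
  rIn_lt_rOut := by linarith

/-- The mollification of `f` at scale `1 / (n + 1)`. -/
noncomputable def mol (n : ℕ) (f : ℂ → ℝ) (z : ℂ) : ℝ :=
  ∫ y, (bmp (1 / (n + 1)) Nat.one_div_pos_of_nat).normed volume y * f (z - y)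

/-- Mollification of a weak solution of `Δ f = h`. -/
def StMol : Prop := ∀ (r : ℝ) (f h : ℂ → ℝ), Integrable f → Integrable h → WLap r f h → ∀ n : ℕ,
  ContDiff ℝ ∞ (mol n f) ∧ ContDiff ℝ ∞ (mol n h) ∧
  ∀ z ∈ ball (0 : ℂ) (r - 1 / (n + 1)), lap (mol n f) z = mol n h z

/-- Bounds of mollifications. -/
def StMolBd : Prop := ∀ (n : ℕ) (f : ℂ → ℝ) (z : ℂ) (m : ℝ), Integrable f →
  (∀ y ∈ ball z (1 / ((n : ℝ) + 1)), |f y| ≤ m) → |mol n f z| ≤ m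

/-- Convergence almost everywhere. -/
def StMolAe : Prop := ∀ f : ℂ → ℝ, Integrable f → ∀ᵐ z, Tendsto (fun n => mol n f z) atTop (𝓝 (f z))

/-- Uniform convergence of the derivatives of mollifications. -/
def StMolDer : Prop := ∀ (k : ℕ) (r r' : ℝ) (g : ℂ → ℝ), r < r' → Integrable g →
  ContDiffOn ℝ k g (ball 0 r') → ∀ j ≤ k,
  TendstoUniformlyOn (fun n => iteratedFDeriv ℝ j (mol n g)) (iteratedFDeriv ℝ j g) atTop (ball 0 r)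

/-- Bounded weak solutions with bounded right hand side are continuous. -/
def StReg0 : Prop := ∀ (r r' m : ℝ) (f h : ℂ → ℝ), r < r' → Integrable f → Integrable h →
  (∀ z, |f z| ≤ m) → (∀ z, |h z| ≤ m) → WLap r' f h →
  ∃ g : ℂ → ℝ, Continuous g ∧ ∀ᵐ z, z ∈ ball (0 : ℂ) r → f z = g z

/-- Continuous weak solutions with right hand side of class `C^k` are of class `C^(k+1)`. -/
def StReg1 : Prop := ∀ (k : ℕ) (r r' : ℝ) (f h : ℂ → ℝ), r < r' → ContinuousOn f (ball 0 r') →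
  ContDiffOn ℝ k h (ball 0 r') → WLap r' f h → ContDiffOn ℝ (k + 1) f (ball 0 r)

/-- Regularity for the semilinear equation. -/
def StRegLoc : Prop := ∀ (a f : ℂ → ℝ), ContDiffOn ℝ ∞ a (ball 0 3) →
  AEStronglyMeasurable f (volume.restrict (ball 0 3)) → (∀ z, |f z| ≤ π) →
  WLap 3 f (fun z => -(a z * Real.sin (f z))) →
  ∃ g : ℂ → ℝ, ContDiffOn ℝ ∞ g (ball 0 3) ∧ (∀ᵐ z, z ∈ ball (0 : ℂ) 3 → f z = g z) ∧
    (∀ z ∈ ball (0 : ℂ) 3, |g z| ≤ π) ∧ ∀ z ∈ ball (0 : ℂ) 3, lap g z = -(a z * Real.sin (g z))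

end Pool.Agent.Helper61.CLB
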