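import Pool.Agent.Helper61.CLB.Defs

/-!
# Block B, E01: the maximum principle

PROOF.  Let `R` with `‖z‖ ≤ R` on `K`, `δ > 0`, `f_δ z = f z + δ (R^2 - ‖z‖^2)`; `lap f_δ = lap f - 4 δ < 0` in the interior.  `f_δ` is continuous on the compact `K`; let `z₀` be a minimum point.  If `z₀` is in the
interior of `K`, then `t ↦ f_δ(z₀ + t)` and `t ↦ f_δ(z₀ + t I)` have local minima at `0`, so their second derivatives `dx (dx f_δ) z₀`, `dy (dy f_δ) z₀` are `≥ 0` (if the second derivative were negative, the first one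
would be positive before `0` and negative after `0`; e.g. `isLocalMax_of_deriv_deriv_neg` applied to `f_δ` gives a local maximum, strict by the sign of the first derivative), contradiction to `lap f_δ < 0`.  So
`z₀ ∈ frontier K` (`K` closed) and `f_δ ≥ f_δ(z₀) ≥ 0` on `K`; let `δ → 0`.
-/

set_option autoImplicit false

namespace Pool.Agent.Helper61.CLB

open MeasureTheory Filter Topology Metric
open scoped ContDiff Real ENNReal
open Pool.Agent.Helper53.CL

universe u

private lemma snd_nonneg {φ : ℝ → ℝ} {x : ℝ} (hc : ContinuousAt φ x) (hm : IsLocalMin φ x) :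
    0 ≤ deriv (deriv φ) x := by
  by_contra hneg
  push Not at hneg
  have hM : IsLocalMax φ x := isLocalMax_of_deriv_deriv_neg hneg hm.deriv_eq_zero hc
  have he : φ =ᶠ[𝓝 x] fun _ => φ x := by
    filter_upwards [hm, hM] with y h1 h2
    exact le_antisymm h2 h1
  have he2 : deriv φ =ᶠ[𝓝 x] deriv fun _ => φ x := he.deriv
  rw [he2.deriv_eq] at hneg
  simp at hneg

private lemma dir_nonneg {g : ℂ → ℝ} {O : Set ℂ} (hO : IsOpen O) (hg : ContDiffOn ℝ 2 g O) {z : ℂ}
    (hz : z ∈ O) (hm : IsLocalMin g z) (e : ℂ) :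
    0 ≤ fderiv ℝ (fun y => fderiv ℝ g y e) z e := by
  obtain ⟨c, hc⟩ : ∃ c : ℝ → ℂ, c = fun t => z + t • e := ⟨_, rfl⟩
  have hcd : ∀ t, HasDerivAt c e t := fun t => by
    rw [hc]
    have h1 : HasDerivAt (fun t : ℝ => t • e) ((1 : ℝ) • e) t := (hasDerivAt_id t).smul_const e
    rw [one_smul] at h1
    exact h1.const_add z
  have hc0 : c 0 = z := by rw [hc]; simp
  have hcc : Continuous c := continuous_iff_continuousAt.2 fun t => (hcd t).continuousAt
  have hev : ∀ᶠ t in 𝓝 (0 : ℝ), c t ∈ O := by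
    refine hcc.continuousAt.eventually ?_
    rw [hc0]
    exact hO.mem_nhds hz
  have hgd : ∀ y ∈ O, DifferentiableAt ℝ g y := fun y hy =>
    (hg.contDiffAt (hO.mem_nhds hy)).differentiableAt (by norm_num)
  have h1 : deriv (g ∘ c) =ᶠ[𝓝 0] (fun y => fderiv ℝ g y e) ∘ c := by
    filter_upwards [hev] with t ht
    exact ((hgd _ ht).hasFDerivAt.comp_hasDerivAt t (hcd t)).deriv
  have hfd : DifferentiableAt ℝ (fun y => fderiv ℝ g y e) z := by
    have h2 : ContDiffOn ℝ 1 (fun y => fderiv ℝ g y e) O :=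
      (hg.fderiv_of_isOpen hO (by norm_num)).clm_apply contDiffOn_const
    exact (h2.contDiffAt (hO.mem_nhds hz)).differentiableAt (by norm_num)
  have h2 : deriv (deriv (g ∘ c)) 0 = fderiv ℝ (fun y => fderiv ℝ g y e) z e := by
    rw [h1.deriv_eq]
    rw [← hc0] at hfd ⊢
    exact (hfd.hasFDerivAt.comp_hasDerivAt 0 (hcd 0)).deriv
  rw [← h2]
  refine snd_nonneg ?_ ?_
  · have h3 : ContinuousAt g (c 0) := by rw [hc0]; exact (hgd z hz).continuousAt
    exact h3.comp hcc.continuousAt
  · have h3 : IsLocalMin g (c 0) := by rw [hc0]; exact hm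
    exact h3.comp_continuous hcc.continuousAt

private lemma q_fderiv (δ R : ℝ) (z : ℂ) :
    HasFDerivAt (fun z : ℂ => δ * (R ^ 2 - (z.re ^ 2 + z.im ^ 2)))
      (-(2 * δ) • (z.re • Complex.reCLM + z.im • Complex.imCLM)) z := by
  have h1 : HasFDerivAt (fun z : ℂ => z.re) Complex.reCLM z := Complex.reCLM.hasFDerivAt
  have h2 : HasFDerivAt (fun z : ℂ => z.im) Complex.imCLM z := Complex.imCLM.hasFDerivAt
  have h3 := ((h1.pow 2).add (h2.pow 2)).const_sub (R ^ 2)
  have h4 := h3.const_mul δ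
  have e : (-(2 * δ) • (z.re • Complex.reCLM + z.im • Complex.imCLM) : ℂ →L[ℝ] ℝ) =
      δ • -((2 • z.re ^ (2 - 1)) • Complex.reCLM + (2 • z.im ^ (2 - 1)) • Complex.imCLM) := by
    ext w
    simp
    ring
  rw [e]
  exact h4

theorem stMax : StMax := by
  intro K O f hK hO hKO hf hlap hfr
  obtain ⟨R, hR⟩ : ∃ R : ℝ, ∀ z ∈ K, ‖z‖ ≤ R := hK.isBounded.exists_norm_le
  have key : ∀ δ > 0, ∀ z ∈ K, 0 ≤ f z + δ * (R ^ 2 - (z.re ^ 2 + z.im ^ 2)) := by
    intro δ hδ
    obtain ⟨q, hq⟩ : ∃ q : ℂ → ℝ, q = fun z => δ * (R ^ 2 - (z.re ^ 2 + z.im ^ 2)) := ⟨_, rfl⟩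
    have hqc : ContDiff ℝ ∞ q := by
      rw [hq]
      exact contDiff_const.mul (contDiff_const.sub
        ((Complex.reCLM.contDiff.pow 2).add (Complex.imCLM.contDiff.pow 2)))
    have hgc : ContDiffOn ℝ 2 (f + q) O :=
      hf.add ((hqc.of_le ENat.LEInfty.out).contDiffOn)
    intro z hz
    have hqpos : ∀ z ∈ K, 0 ≤ q z := fun z hz => by
      rw [hq]
      have h1 : z.re ^ 2 + z.im ^ 2 = ‖z‖ ^ 2 := by
        rw [Complex.sq_norm, Complex.normSq_apply]
        ring
      simp only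
      rw [h1]
      have h2 : ‖z‖ ^ 2 ≤ R ^ 2 := pow_le_pow_left₀ (norm_nonneg _) (hR z hz) 2
      exact mul_nonneg hδ.le (by linarith)
    obtain ⟨z₀, hz₀, hmin⟩ := hK.exists_isMinOn ⟨z, hz⟩ (hgc.continuousOn.mono hKO)
    have hval : f z + δ * (R ^ 2 - (z.re ^ 2 + z.im ^ 2)) = (f + q) z := by rw [hq]; rfl
    rw [hval]
    refine le_trans ?_ (hmin hz)
    by_cases hint : z₀ ∈ interior K
    · exfalso
      have hloc : IsLocalMin (f + q) z₀ := hmin.isLocalMin (mem_interior_iff_mem_nhds.1 hint)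
      have hz₀O := hKO hz₀
      have hx := dir_nonneg hO hgc hz₀O hloc 1
      have hy := dir_nonneg hO hgc hz₀O hloc Complex.I
      have hdir : ∀ e : ℂ, fderiv ℝ (fun y => fderiv ℝ (f + q) y e) z₀ e =
          fderiv ℝ (fun y => fderiv ℝ f y e) z₀ e + fderiv ℝ (fun y => fderiv ℝ q y e) z₀ e := by
        intro e
        have h1 : (fun y => fderiv ℝ (f + q) y e) =ᶠ[𝓝 z₀]
            (fun y => fderiv ℝ f y e) + fun y => fderiv ℝ q y e := by
          filter_upwards [hO.mem_nhds hz₀O] with y hy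
          rw [fderiv_add ((hf.contDiffAt (hO.mem_nhds hy)).differentiableAt (by norm_num))
            (hqc.contDiffAt.differentiableAt (by simp))]
          rfl
        rw [h1.fderiv_eq, fderiv_add]
        · rfl
        · have h2 : ContDiffOn ℝ 1 (fun y => fderiv ℝ f y e) O :=
            (hf.fderiv_of_isOpen hO (by norm_num)).clm_apply contDiffOn_const
          exact (h2.contDiffAt (hO.mem_nhds hz₀O)).differentiableAt (by norm_num)
        · have h2 : ContDiff ℝ ∞ (fun y => fderiv ℝ q y e) :=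
            (hqc.fderiv_right (by simp)).clm_apply contDiff_const
          exact h2.contDiffAt.differentiableAt (by simp)
      have hqx : fderiv ℝ (fun y => fderiv ℝ q y 1) z₀ 1 = -(2 * δ) := by
        have e1 : (fun y => fderiv ℝ q y 1) = fun y : ℂ => -(2 * δ) * y.re := by
          funext y
          rw [hq, (q_fderiv δ R y).fderiv]
          simp
        rw [e1]
        have h1 : HasFDerivAt (fun y : ℂ => -(2 * δ) * y.re) (-(2 * δ) • Complex.reCLM) z₀ :=
          Complex.reCLM.hasFDerivAt.const_mul _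
        rw [h1.fderiv]
        simp
      have hqy : fderiv ℝ (fun y => fderiv ℝ q y Complex.I) z₀ Complex.I = -(2 * δ) := by
        have e1 : (fun y => fderiv ℝ q y Complex.I) = fun y : ℂ => -(2 * δ) * y.im := by
          funext y
          rw [hq, (q_fderiv δ R y).fderiv]
          simp
        rw [e1]
        have h1 : HasFDerivAt (fun y : ℂ => -(2 * δ) * y.im) (-(2 * δ) • Complex.imCLM) z₀ :=
          Complex.imCLM.hasFDerivAt.const_mul _
        rw [h1.fderiv]
        simp
      have hl := hlap z₀ hint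
      have hl2 : lap f z₀ = fderiv ℝ (fun y => fderiv ℝ f y 1) z₀ 1 +
          fderiv ℝ (fun y => fderiv ℝ f y Complex.I) z₀ Complex.I := rfl
      rw [hdir, hqx] at hx
      rw [hdir, hqy] at hy
      rw [hl2] at hl
      linarith
    · have hfr0 : z₀ ∈ frontier K := by
        rw [frontier, hK.isClosed.closure_eq]
        exact ⟨hz₀, hint⟩
      exact add_nonneg (hfr z₀ hfr0) (hqpos z₀ hz₀)
  intro z hz
  by_contra hneg
  push Not at hneg
  obtain ⟨c, hc⟩ : ∃ c, c = R ^ 2 - (z.re ^ 2 + z.im ^ 2) := ⟨_, rfl⟩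
  have hc1 : 0 < |c| + 1 := by positivity
  have h1 := key (-f z / 2 / (|c| + 1)) (by
    have : 0 < -f z := by linarith
    positivity) z hz
  rw [← hc] at h1
  have h2 : -f z / 2 / (|c| + 1) * c ≤ -f z / 2 := by
    have h3 : -f z / 2 / (|c| + 1) * c ≤ -f z / 2 / (|c| + 1) * (|c| + 1) := by
      refine mul_le_mul_of_nonneg_left ?_ (by
        have : 0 < -f z := by linarith
        positivity)
      linarith [le_abs_self c]
    rwa [div_mul_cancel₀ _ hc1.ne'] at h3
  linarith

end Pool.Agent.Helper61.CLB
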