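import Pool.Agent.Helper61.CLB.Defs

/-!
# Block B, E13: uniform convergence of the derivatives of mollifications

PROOF.  If `r ≤ 0` the ball is empty.  Let `r < r₁ < r₂ < r'`, `χ` smooth, `χ = 1` on `ball 0 r₁`, with compact support in `ball 0 r₂` (`exists_contDiff_tsupport_subset` or a `ContDiffBump`), `g₁ = χ g` (zero outside `ball 0 r'`): `g₁` is of
class `C^k` on `ℂ` with compact support.  For `1/(n+1) < r₁ - r` and `z ∈ ball 0 r`: `mol n g = mol n g₁` near `z` (the values `g (z - y)`, `‖y‖ < 1/(n+1)`, agree), and `g = g₁` near `z`; so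
`iteratedFDeriv ℝ j` agree at `z`.  `iteratedFDeriv ℝ j (mol n g₁) z = ∫ η_n y • iteratedFDeriv ℝ j g₁ (z - y) dy` (`HasCompactSupport.contDiff_convolution_right` and induction on `j` with
`HasCompactSupport.hasFDerivAt_convolution_right`; or prove the statement by induction on `k` in the form: for a normed space `E`, `g₁ : ℂ → E` of class `C^k` with compact support, `mol n g₁ → g₁` in `C^k` uniformly on `ℂ`, using
`fderiv (mol n g₁) = mol n (fderiv g₁)`).  `iteratedFDeriv ℝ j g₁` is continuous with compact support, hence uniformly continuous, so the difference to `iteratedFDeriv ℝ j g₁ z` tends to `0` uniformly.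
-/

set_option autoImplicit false

namespace Pool.Agent.Helper61.CLB

open MeasureTheory Filter Topology Metric
open scoped ContDiff Real ENNReal
open Pool.Agent.Helper53.CL

universe u

private noncomputable def mE {E : Type} [NormedAddCommGroup E] [NormedSpace ℝ E] (n : ℕ) (g : ℂ → E) : ℂ → E :=
  convolution ((bmp (1 / (n + 1)) Nat.one_div_pos_of_nat).normed volume) g (ContinuousLinearMap.lsmul ℝ ℝ) volume

private lemma mol_eq_mE (n : ℕ) (g : ℂ → ℝ) : mol n g = mE n g := by
  funext z
  rfl

private lemma locInt_normed (n : ℕ) :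
    LocallyIntegrable ((bmp (1 / ((n : ℝ) + 1)) Nat.one_div_pos_of_nat).normed (volume : Measure ℂ)) volume :=
  (ContDiffBump.contDiff_normed (n := 0) _).continuous.locallyIntegrable

private lemma fderiv_mE {E : Type} [NormedAddCommGroup E] [NormedSpace ℝ E] [CompleteSpace E] (n : ℕ) (g : ℂ → E)
    (hg : ContDiff ℝ 1 g) (hc : HasCompactSupport g) : fderiv ℝ (mE n g) = mE n (fderiv ℝ g) := by
  funext z
  have h1 := hc.hasFDerivAt_convolution_right (ContinuousLinearMap.lsmul ℝ ℝ) (locInt_normed n) hg z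
  unfold mE
  rw [h1.fderiv]
  rfl

private lemma key (j : ℕ) : ∀ (E : Type) [NormedAddCommGroup E] [NormedSpace ℝ E] [CompleteSpace E] (g : ℂ → E),
    ContDiff ℝ j g → HasCompactSupport g →
    ∀ e > 0, ∀ᶠ n : ℕ in atTop, ∀ z, dist (iteratedFDeriv ℝ j (mE n g) z) (iteratedFDeriv ℝ j g z) ≤ e := by
  induction j with
  | zero =>
    intro E _ _ _ g hg hc e he
    have h1 : UniformContinuous g := hc.uniformContinuous_of_continuous hg.continuous
    obtain ⟨d, hd, h2⟩ := Metric.uniformContinuous_iff.1 h1 e he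
    obtain ⟨N, hN⟩ := exists_nat_one_div_lt hd
    filter_upwards [eventually_ge_atTop N] with n hn z
    rw [iteratedFDeriv_zero_eq_comp, iteratedFDeriv_zero_eq_comp, Function.comp_apply, Function.comp_apply,
      LinearIsometryEquiv.dist_map]
    refine ContDiffBump.dist_normed_convolution_le hg.continuous.aestronglyMeasurable ?_
    intro x hx
    apply (h2 _).le
    rw [mem_ball] at hx
    refine lt_of_lt_of_le hx ?_
    change 1 / ((n : ℝ) + 1) ≤ d
    refine le_trans ?_ hN.le
    gcongr
  | succ j ih =>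
    intro E _ _ _ g hg hc e he
    have h1 : ContDiff ℝ 1 g := hg.of_le (by exact_mod_cast Nat.succ_le_succ (Nat.zero_le j))
    have h2 : ContDiff ℝ j (fderiv ℝ g) := hg.fderiv_right (by push_cast; exact le_rfl)
    have h3 : HasCompactSupport (fderiv ℝ g) := hc.fderiv ℝ
    filter_upwards [ih (ℂ →L[ℝ] E) (fderiv ℝ g) h2 h3 e he] with n hn z
    rw [iteratedFDeriv_succ_eq_comp_right, iteratedFDeriv_succ_eq_comp_right, Function.comp_apply,
      Function.comp_apply, LinearIsometryEquiv.dist_map]
    have h4 : (fun y => fderiv ℝ (mE n g) y) = mE n (fderiv ℝ g) := fderiv_mE n g h1 hc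
    rw [h4]
    exact hn z

theorem stMolDer : StMolDer := by
  intro k r r' g hr hg hd j hj
  rcases le_or_gt r 0 with h0 | h0
  · rw [ball_eq_empty.2 h0]
    exact tendstoUniformlyOn_empty
  let χ : ContDiffBump (0 : ℂ) := ⟨(2 * r + r') / 3, (r + 2 * r') / 3, by linarith, by linarith⟩
  have hin : χ.rIn = (2 * r + r') / 3 := rfl
  have hout : χ.rOut = (r + 2 * r') / 3 := rfl
  set g₁ : ℂ → ℝ := fun z => χ z * g z with hg1
  have e1 : ∀ z, ‖z‖ ≤ (2 * r + r') / 3 → g z = g₁ z := by
    intro z hz
    rw [hg1]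
    simp only
    rw [χ.one_of_mem_closedBall (by rw [mem_closedBall_zero_iff, hin]; exact hz), one_mul]
  have hcs : HasCompactSupport g₁ := χ.hasCompactSupport.mul_right
  have hsm : ContDiff ℝ k g₁ := by
    rw [contDiff_iff_contDiffAt]
    intro z
    by_cases hz : z ∈ ball (0 : ℂ) r'
    · exact (χ.contDiff (n := (k : ℕ∞))).contDiffAt.mul (hd.contDiffAt (isOpen_ball.mem_nhds hz))
    · have h1 : z ∉ tsupport χ := by
        rw [χ.tsupport_eq, mem_closedBall_zero_iff, hout]
        rw [mem_ball_zero_iff] at hz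
        intro h
        linarith
      have h2 : g₁ =ᶠ[𝓝 z] fun _ => 0 := by
        filter_upwards [(isClosed_tsupport χ).isOpen_compl.mem_nhds h1] with y hy
        rw [hg1]
        simp only
        rw [image_eq_zero_of_notMem_tsupport hy, zero_mul]
      exact contDiffAt_const.congr_of_eventuallyEq h2
  have hK := key j ℝ g₁ (hsm.of_le (by exact_mod_cast hj)) hcs
  have hU : TendstoUniformlyOn (fun n => iteratedFDeriv ℝ j (mE n g₁)) (iteratedFDeriv ℝ j g₁) atTop (ball 0 r) := by
    rw [Metric.tendstoUniformlyOn_iff]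
    intro e he
    filter_upwards [hK (e / 2) (by linarith)] with n hn z _
    rw [dist_comm]
    exact lt_of_le_of_lt (hn z) (by linarith)
  have e2 : Set.EqOn (iteratedFDeriv ℝ j g₁) (iteratedFDeriv ℝ j g) (ball 0 r) := by
    intro z hz
    have h1 : g₁ =ᶠ[𝓝 z] g := by
      filter_upwards [isOpen_ball.mem_nhds hz] with y hy
      rw [mem_ball_zero_iff] at hy
      exact (e1 y (by linarith)).symm
    exact (h1.iteratedFDeriv ℝ j).eq_of_nhds
  refine (hU.congr ?_).congr_right e2
  obtain ⟨N, hN⟩ := exists_nat_one_div_lt (show 0 < (r' - r) / 3 by linarith)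
  filter_upwards [eventually_ge_atTop N] with n hn z hz
  have h1 : mE n g₁ =ᶠ[𝓝 z] mol n g := by
    filter_upwards [isOpen_ball.mem_nhds hz] with y hy
    rw [mem_ball_zero_iff] at hy
    rw [mol_eq_mE]
    unfold mE convolution
    apply integral_congr_ae
    refine Eventually.of_forall fun w => ?_
    simp only [ContinuousLinearMap.lsmul_apply, smul_eq_mul]
    by_cases hw : w ∈ Function.support ((bmp (1 / ((n : ℝ) + 1)) Nat.one_div_pos_of_nat).normed (volume : Measure ℂ))
    · rw [ContDiffBump.support_normed_eq, mem_ball_zero_iff] at hw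
      have hw' : ‖w‖ < 1 / ((n : ℝ) + 1) := hw
      have h3 : 1 / ((n : ℝ) + 1) ≤ 1 / ((N : ℝ) + 1) := by gcongr
      have h4 : ‖y - w‖ ≤ ‖y‖ + ‖w‖ := norm_sub_le _ _
      rw [e1 (y - w) (by linarith)]
    · rw [Function.notMem_support.1 hw, zero_mul, zero_mul]
  exact (h1.iteratedFDeriv ℝ j).eq_of_nhds

end Pool.Agent.Helper61.CLB
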